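import Mathlib

/-!
# Counting
-/

set_option autoImplicit false

namespace Pool.Agent.Helper716_Lang

open Filter Topology

theorem tendsto_ratio (a b n : ℕ) :
    Tendsto (fun k : ℕ => ((a * k + b : ℕ) : ℝ) ^ n / (k : ℝ) ^ n) atTop (𝓝 ((a : ℝ) ^ n)) := by
  have h1 : Tendsto (fun k : ℕ => (a : ℝ) + (b : ℝ) / (k : ℝ)) atTop (𝓝 ((a : ℝ) + 0)) :=
    tendsto_const_nhds.add (tendsto_const_div_atTop_nhds_zero_nat (b : ℝ))
  rw [add_zero] at h1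
  refine (h1.pow n).congr' ?_
  filter_upwards [eventually_gt_atTop 0] with k hk
  have hk' : (k : ℝ) ≠ 0 := by exact_mod_cast hk.ne'
  rw [← div_pow]
  congr 1
  push_cast
  field_simp

theorem exists_level {I J : Type*} [Fintype I] [Fintype J] (n c : ℕ) (w : I → ℕ) (d : J → ℕ)
    (h : ∑ j, d j ^ n < ∑ i, w i ^ n) :
    ∃ k : ℕ, ∑ j, (d j * (k + c) + 1) ^ n < ∑ i, (w i * k + 1) ^ n := by
  have h1 : Tendsto (fun k : ℕ => ∑ j, ((d j * k + (d j * c + 1) : ℕ) : ℝ) ^ n / (k : ℝ) ^ n) atTop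
      (𝓝 (∑ j, (d j : ℝ) ^ n)) := tendsto_finsetSum _ fun j _ => tendsto_ratio _ _ _
  have h2 : Tendsto (fun k : ℕ => ∑ i, ((w i * k + 1 : ℕ) : ℝ) ^ n / (k : ℝ) ^ n) atTop
      (𝓝 (∑ i, (w i : ℝ) ^ n)) := tendsto_finsetSum _ fun j _ => tendsto_ratio _ _ _
  have h3 : (∑ j, (d j : ℝ) ^ n) < ∑ i, (w i : ℝ) ^ n := by exact_mod_cast h
  obtain ⟨k, hk, hk0⟩ := ((h1.eventually_lt h2 h3).and (eventually_gt_atTop 0)).exists
  refine ⟨k, ?_⟩
  rw [← Finset.sum_div, ← Finset.sum_div] at hk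
  have hk1 : (0 : ℝ) < (k : ℝ) ^ n := by positivity
  rw [div_lt_div_iff_of_pos_right hk1] at hk
  have h4 : ∀ j, d j * (k + c) + 1 = d j * k + (d j * c + 1) := fun j => by ring
  simp only [h4]
  exact_mod_cast hk

end Pool.Agent.Helper716_Lang
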