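import Pool.Agent.Helper716_Lang.KLine
import Pool.Agent.Helper716_Lang.Count

/-!
# Forms over a filtered field
-/

set_option autoImplicit false

namespace Pool.Agent.Helper716_Lang

open Polynomial

/-- A filtration of (part of) the field `K` by finite dimensional `R`-subspaces, of growth
`D (k + 1) ^ n`. -/
structure Filt (R K : Type*) [Field R] [Field K] [Algebra R K] (n : ℕ) where
  A : ℕ → Submodule R K
  c : ℕ
  D : ℕ
  hD : 0 < D
  fin : ∀ k, FiniteDimensional R (A k)
  rank : ∀ k, Module.finrank R (A k) = D * (k + 1) ^ n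
  mono : Monotone A
  mul : ∀ k l x y, x ∈ A k → y ∈ A l → x * y ∈ A (k + l + c)

section

variable {R K : Type*} [Field R] [Field K] [Algebra R K] {n : ℕ}

/-- all coefficients lie in a subspace -/
def CoeffIn (W : Submodule R K) (p : K[X]) : Prop := ∀ e, p.coeff e ∈ W

theorem CoeffIn.mul (Fl : Filt R K n) {k l : ℕ} {p q : K[X]} (hp : CoeffIn (Fl.A k) p)
    (hq : CoeffIn (Fl.A l) q) : CoeffIn (Fl.A (k + l + Fl.c)) (p * q) := by
  intro e
  rw [coeff_mul]
  exact Submodule.sum_mem _ fun x _ => Fl.mul k l _ _ (hp _) (hq _)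

theorem CoeffIn.mono (Fl : Filt R K n) {k l : ℕ} (hkl : k ≤ l) {p : K[X]}
    (hp : CoeffIn (Fl.A k) p) : CoeffIn (Fl.A l) p := fun e => Fl.mono hkl (hp e)

theorem CoeffIn.linear (Fl : Filt R K n) {k : ℕ} {a z : K} (ha : a ∈ Fl.A k) (hz : z ∈ Fl.A k) :
    CoeffIn (Fl.A k) (C a + X * C z) := by
  intro e
  rw [show X * C z = C z * X by ring, coeff_add, coeff_C, coeff_C_mul_X]
  refine Submodule.add_mem _ ?_ ?_
  · split_ifs
    · exact ha
    · exact Submodule.zero_mem _
  · split_ifs
    · exact hz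
    · exact Submodule.zero_mem _

theorem coeffIn_monomial (Fl : Filt R K n) {σ : Type*} (w : σ → ℕ) (hw : ∀ i, 0 < w i) (k : ℕ)
    (a z : σ → K) (ha : ∀ i, a i ∈ Fl.A (w i * k)) (hz : ∀ i, z i ∈ Fl.A (w i * k))
    (α : σ →₀ ℕ) : ∀ (l : ℕ) (p : K[X]), CoeffIn (Fl.A l) p →
      CoeffIn (Fl.A (l + Finsupp.weight w α * (k + Fl.c)))
        (p * α.prod fun i e => (C (a i) + X * C (z i)) ^ e) := by
  induction α using Finsupp.induction_linear with
  | zero => intro l p hp; simpa using hp
  | add α β h1 h2 =>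
    intro l p hp
    have h3 := h2 _ _ (h1 l p hp)
    rw [Finsupp.prod_add_index' (by simp) (by intros; rw [pow_add]), ← mul_assoc]
    refine CoeffIn.mono Fl (le_of_eq ?_) h3
    rw [map_add]
    ring
  | single i e =>
    induction e with
    | zero => intro l p hp; simpa using hp
    | succ e ih =>
      intro l p hp
      have h1 := (ih l p hp).mul Fl (CoeffIn.linear Fl (ha i) (hz i))
      rw [Finsupp.prod_single_index (by simp)] at h1 ⊢
      rw [pow_succ, ← mul_assoc]
      refine CoeffIn.mono Fl ?_ h1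
      rw [Finsupp.weight_single, Finsupp.weight_single]
      have := hw i
      simp only [smul_eq_mul]
      nlinarith [Nat.zero_le (e * w i * (k + Fl.c)), Nat.zero_le Fl.c, Nat.zero_le k,
        Nat.mul_le_mul_right Fl.c this]

theorem coeffIn_kline (Fl : Filt R K n) {σ : Type*} (w : σ → ℕ) (hw : ∀ i, 0 < w i) (k : ℕ)
    (a z : σ → K) (ha : ∀ i, a i ∈ Fl.A (w i * k)) (hz : ∀ i, z i ∈ Fl.A (w i * k))
    (f : MvPolynomial σ K) (d : ℕ) (hf : f.IsWeightedHomogeneous w d)
    (hc : ∀ α, f.coeff α ∈ Fl.A Fl.c) :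
    CoeffIn (Fl.A (Fl.c + d * (k + Fl.c))) (kline f a z) := by
  intro e
  rw [kline, MvPolynomial.aeval_def, MvPolynomial.eval₂_eq, finsetSum_coeff]
  refine Submodule.sum_mem _ fun α hα => ?_
  have hd : Finsupp.weight w α = d := hf (MvPolynomial.mem_support_iff.1 hα)
  have h1 : CoeffIn (Fl.A Fl.c) (C (f.coeff α)) := by
    intro e
    rw [coeff_C]
    split_ifs
    · exact hc α
    · exact Submodule.zero_mem _
  have h2 := coeffIn_monomial Fl w hw k a z ha hz α _ _ h1 e
  rw [hd] at h2
  exact h2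

end

section

variable {R K : Type*} [Field R] [LinearOrder R] [IsStrictOrderedRing R] [Field K] [Algebra R K]
  {n : ℕ}

theorem assemble (hmin : SphereMin R) (hsc : Scaling R) (Fl : Filt R K n) {I J : Type*} [Fintype I]
    [Fintype J] (w : I → ℕ) (hw : ∀ i, 0 < w i) (d : J → ℕ) (hd : ∀ j, 0 < d j)
    (hN : ∑ j, d j ^ n < ∑ i, w i ^ n) (f : J → MvPolynomial I K)
    (hf : ∀ j, (f j).IsWeightedHomogeneous w (d j)) (hc : ∀ j α, (f j).coeff α ∈ Fl.A Fl.c)
    {q : ℕ} (h : Fin q → K) (hh : ∀ l, h l ∈ Fl.A Fl.c) (hh0 : ∃ l, h l ≠ 0)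
    (hh2 : ∑ l, h l ^ 2 = 0) :
    ∃ v : I → K, v ≠ 0 ∧ ∀ j, MvPolynomial.eval v (f j) = 0 := by
  classical
  obtain ⟨k0, hk0⟩ := exists_level n (4 * Fl.c) w d hN
  set k := k0 + 2 * Fl.c with hk
  have hfin : ∀ l, FiniteDimensional R (Fl.A l) := Fl.fin
  -- coordinates
  let b : ∀ i : I, Module.Basis (Fin (Module.finrank R (Fl.A (w i * k)))) R (Fl.A (w i * k)) :=
    fun i => Module.finBasis R (Fl.A (w i * k))
  let ι := Σ i : I, Fin (Module.finrank R (Fl.A (w i * k)))
  let E : I → ι → K := fun i m => if m.1 = i then (b m.1 m.2 : K) else 0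
  have hE : ∀ (s : ι → R) (i : I), ∑ m, s m • E i m = ((∑ m, s ⟨i, m⟩ • b i m : Fl.A (w i * k)) : K) := by
    intro s i
    rw [Fintype.sum_sigma, Finset.sum_eq_single i]
    · simp [E]
    · intro l _ hl
      refine Finset.sum_eq_zero fun m _ => ?_
      simp [E, hl]
    · simp
  -- the index type is not empty
  have hIne : Nonempty I := by
    by_contra hcon
    rw [not_nonempty_iff] at hcon
    simp at hN
  have hfr : ∀ l, 0 < Module.finrank R (Fl.A l) := fun l => by
    rw [Fl.rank]
    exact Nat.mul_pos Fl.hD (by positivity)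
  have : Nonempty ι := by
    obtain ⟨i⟩ := hIne
    exact ⟨⟨i, ⟨0, hfr _⟩⟩⟩
  let g : J → MvPolynomial ι K := fun j =>
    MvPolynomial.aeval (fun i => ∑ m, MvPolynomial.C (E i m) * MvPolynomial.X m) (f j)
  -- surjectivity on coordinates
  have hsurj : ∀ y : I → K, (∀ i, y i ∈ Fl.A (w i * k)) → ∃ ρ : ι → R,
      ∀ i, ∑ m, ρ m • E i m = y i := by
    intro y hy
    refine ⟨fun m => (b m.1).repr ⟨y m.1, hy m.1⟩ m.2, fun i => ?_⟩
    rw [hE]
    have := (b i).sum_repr ⟨y i, hy i⟩
    rw [this]
  have hmem : ∀ (s : ι → R) (i : I), ∑ m, s m • E i m ∈ Fl.A (w i * k) := by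
    intro s i
    rw [hE]
    exact Submodule.coe_mem _
  suffices hmain : ∃ s : ι → R, s ≠ 0 ∧
      ∀ j, MvPolynomial.eval (fun i => algebraMap R K (s i)) (g j) = 0 by
    obtain ⟨s, hs0, hs⟩ := hmain
    refine ⟨fun i => ∑ m, s m • E i m, ?_, fun j => ?_⟩
    · intro h0
      apply hs0
      funext ⟨i, m⟩
      have h1 : ((∑ m, s ⟨i, m⟩ • b i m : Fl.A (w i * k)) : K) = 0 := by
        rw [← hE]
        exact congrFun h0 i
      have h2 : (∑ m, s ⟨i, m⟩ • b i m : Fl.A (w i * k)) = 0 := Subtype.ext h1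
      exact Fintype.linearIndependent_iff.1 (b i).linearIndependent (fun m => s ⟨i, m⟩) h2 m
    · rw [← eval_compose]
      exact hs j
  refine engine (R := R) (A := K) hmin hsc (ι := ι) (fun m => w m.1)
    (fun m => hw m.1) g d hd ?_ ?_
  · -- weighted homogeneity
    intro j r s
    rw [eval_compose, eval_compose]
    have h1 : (fun i => ∑ m, (r ^ w m.1 * s m) • E i m) =
        fun i => (algebraMap R K r) ^ w i * ∑ m, s m • E i m := by
      funext i
      rw [Finset.mul_sum]
      refine Finset.sum_congr rfl fun m _ => ?_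
      by_cases hm : m.1 = i
      · subst hm
        rw [Algebra.smul_def, Algebra.smul_def, map_mul, map_pow]
        ring
      · simp [E, hm]
    rw [h1, MvPolynomial.eval_eq, MvPolynomial.eval_eq, Finset.smul_sum]
    refine Finset.sum_congr rfl fun α hα => ?_
    have h2 : Finsupp.weight w α = d j := hf j (MvPolynomial.mem_support_iff.1 hα)
    rw [Algebra.smul_def, map_pow, ← h2]
    simp only [mul_pow, Finset.prod_mul_distrib]
    have h3 : (algebraMap R K r) ^ (Finsupp.weight w α) =
        ∏ i ∈ α.support, ((algebraMap R K r) ^ w i) ^ α i := by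
      rw [Finsupp.weight_apply, Finsupp.sum, ← Finset.prod_pow_eq_pow_sum]
      refine Finset.prod_congr rfl fun i _ => ?_
      rw [← pow_mul, smul_eq_mul, mul_comm]
    rw [h3]
    ring
  · -- the directions
    intro s
    set a : I → K := fun i => ∑ m, s m • E i m with ha
    have haA : ∀ i, a i ∈ Fl.A (w i * k) := fun i => hmem s i
    -- the linear system
    have hle : ∀ i, w i * k0 ≤ w i * k := fun i => Nat.mul_le_mul_left _ (by omega)
    have hlin : ∀ (z : I → K) (j : J), (∀ i, z i ∈ Fl.A (w i * k0)) →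
        ∑ i, MvPolynomial.eval a (MvPolynomial.pderiv i (f j)) * z i ∈
          Fl.A (d j * (k0 + 4 * Fl.c)) := by
      intro z j hz
      rw [← kline_coeff_one]
      have h1 := coeffIn_kline Fl w hw k a z haA (fun i => Fl.mono (hle i) (hz i)) (f j) (d j)
        (hf j) (hc j) 1
      refine Fl.mono ?_ h1
      have := hd j
      rw [hk]
      nlinarith [Nat.mul_le_mul_right Fl.c this]
    let Λ : (∀ i : I, Fl.A (w i * k0)) →ₗ[R] (∀ j : J, Fl.A (d j * (k0 + 4 * Fl.c))) :=
      { toFun := fun z j => ⟨∑ i, MvPolynomial.eval a (MvPolynomial.pderiv i (f j)) * (z i : K),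
          hlin (fun i => (z i : K)) j fun i => (z i).2⟩
        map_add' := by
          intro x y
          funext j
          apply Subtype.ext
          simp [mul_add, Finset.sum_add_distrib]
        map_smul' := by
          intro r x
          funext j
          apply Subtype.ext
          simp [Finset.smul_sum] }
    have hrank : Module.finrank R (∀ j : J, Fl.A (d j * (k0 + 4 * Fl.c))) <
        Module.finrank R (∀ i : I, Fl.A (w i * k0)) := by
      rw [Module.finrank_pi_fintype, Module.finrank_pi_fintype]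
      simp only [Fl.rank]
      rw [← Finset.mul_sum, ← Finset.mul_sum]
      exact Nat.mul_lt_mul_of_pos_left hk0 Fl.hD
    have hker : LinearMap.ker Λ ≠ ⊥ := LinearMap.ker_ne_bot_of_finrank_lt hrank
    obtain ⟨z, hz, hz0⟩ := Submodule.exists_mem_ne_zero_of_ne_bot hker
    have hzj : ∀ j, ∑ i, MvPolynomial.eval a (MvPolynomial.pderiv i (f j)) * (z i : K) = 0 := by
      intro j
      have h1 : Λ z = 0 := hz
      exact congrArg Subtype.val (congrFun h1 j)
    -- the directions `h l * z`
    have hmemz : ∀ l i, h l * (z i : K) ∈ Fl.A (w i * k) := by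
      intro l i
      refine Fl.mono ?_ (Fl.mul _ _ _ _ (hh l) (z i).2)
      have := hw i
      rw [hk]
      nlinarith [Nat.mul_le_mul_right Fl.c this]
    choose ρ hρ using fun l => hsurj (fun i => h l * (z i : K)) (hmemz l)
    have hρ' : ∀ l, (fun i => ∑ m, ρ l m • E i m) = fun i => h l * (z i : K) := fun l =>
      funext (hρ l)
    have hline : ∀ j l e, (line (g j) s (ρ l)).coeff e =
        (kline (f j) a (fun i => (z i : K))).coeff e * h l ^ e := by
      intro j l e
      rw [line_compose, hρ', kline_smul_coeff]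
    refine ⟨q, ρ, ?_, fun j l => ?_, fun j => ?_⟩
    · obtain ⟨l, hl⟩ := hh0
      refine ⟨l, fun h0 => hz0 ?_⟩
      funext i
      apply Subtype.ext
      have h1 := hρ l i
      rw [h0] at h1
      simp only [Pi.zero_apply, zero_smul, Finset.sum_const_zero] at h1
      rcases mul_eq_zero.1 h1.symm with h2 | h2
      · exact absurd h2 hl
      · exact h2
    · rw [hline, kline_coeff_one, hzj, zero_mul]
    · simp only [hline]
      rw [← Finset.mul_sum, hh2, mul_zero]

end

end Pool.Agent.Helper716_Lang
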