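import Pool.Agent.Helper716_Lang.Linear

/-!
# Binary forms with the antipodal real structure
-/

set_option autoImplicit false

namespace Pool.Agent.Helper716_Lang

open MvPolynomial

/-- The antipodal real structure on complex binary polynomials: conjugate the coefficients and
replace `(a, b)` by `(-b, a)`. -/
noncomputable def sig : MvPolynomial (Fin 2) ℂ →ₐ[ℝ] MvPolynomial (Fin 2) ℂ :=
  { (MvPolynomial.eval₂Hom ((MvPolynomial.C : ℂ →+* MvPolynomial (Fin 2) ℂ).comp (starRingEnd ℂ))
      ![-X 1, X 0]) with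
    commutes' := fun r => by
      simp [MvPolynomial.algebraMap_apply] }

theorem sig_eq (p : MvPolynomial (Fin 2) ℂ) : sig p =
    MvPolynomial.eval₂ ((MvPolynomial.C : ℂ →+* MvPolynomial (Fin 2) ℂ).comp (starRingEnd ℂ))
      ![-X 1, X 0] p := rfl

@[simp] theorem sig_C (c : ℂ) : sig (C c) = C ((starRingEnd ℂ) c) := by
  rw [sig_eq, eval₂_C]
  rfl

@[simp] theorem sig_X0 : sig (X 0) = -X 1 := by
  rw [sig_eq, eval₂_X]
  rfl

@[simp] theorem sig_X1 : sig (X 1) = X 0 := by
  rw [sig_eq, eval₂_X]
  rfl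

theorem sig_isHomogeneous {p : MvPolynomial (Fin 2) ℂ} {m : ℕ} (hp : p.IsHomogeneous m) :
    (sig p).IsHomogeneous m := by
  rw [sig_eq]
  have := hp.eval₂ ((MvPolynomial.C : ℂ →+* MvPolynomial (Fin 2) ℂ).comp (starRingEnd ℂ))
    (![-X 1, X 0] : Fin 2 → MvPolynomial (Fin 2) ℂ) (n := 1)
    (fun r => isHomogeneous_C _ _)
    (fun i => by
      fin_cases i
      · exact (isHomogeneous_X ℂ (1 : Fin 2)).neg
      · exact isHomogeneous_X ℂ (0 : Fin 2))
  rwa [one_mul] at this

theorem sig_sig_X (i : Fin 2) : sig (sig (X i)) = -X i := by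
  match i with
  | 0 => rw [sig_X0, map_neg, sig_X1]
  | 1 => rw [sig_X1, sig_X0]

theorem sig_sig_eq (p : MvPolynomial (Fin 2) ℂ) : sig (sig p) = aeval (fun i => -X i) p := by
  induction p using MvPolynomial.induction_on with
  | C c => simp
  | add p q hp hq => rw [map_add, map_add, hp, hq, map_add]
  | mul_X p i hp =>
    rw [map_mul, map_mul, hp, map_mul, sig_sig_X, aeval_X]

theorem sig_sig {p : MvPolynomial (Fin 2) ℂ} {m : ℕ} (hp : p.IsHomogeneous m) :
    sig (sig p) = (-1) ^ m * p := by
  rw [sig_sig_eq, aeval_def, eval₂_eq]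
  conv_rhs => rw [MvPolynomial.as_sum p, Finset.mul_sum]
  refine Finset.sum_congr rfl fun α hα => ?_
  have h1 : α.degree = m := by
    rw [Finsupp.degree_eq_weight_one]
    exact hp (mem_support_iff.1 hα)
  have h2 : ∏ i ∈ α.support, (-X i : MvPolynomial (Fin 2) ℂ) ^ α i =
      (-1) ^ m * ∏ i ∈ α.support, (X i : MvPolynomial (Fin 2) ℂ) ^ α i := by
    have h3 : Finsupp.degree α = ∑ i ∈ α.support, α i := rfl
    rw [← h1, h3, ← Finset.prod_pow_eq_pow_sum, ← Finset.prod_mul_distrib]
    exact Finset.prod_congr rfl fun i _ => by rw [neg_pow]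
  rw [h2, MvPolynomial.monomial_eq, Finsupp.prod, algebraMap_eq]
  ring

theorem finrank_binary (m : ℕ) :
    Module.finrank ℂ (homogeneousSubmodule (Fin 2) ℂ m) = m + 1 := by
  have h0 : homogeneousSubmodule (Fin 2) ℂ m =
      MvPolynomial.restrictSupport ℂ {α : Fin 2 →₀ ℕ | α.degree = m} :=
    homogeneousSubmodule_eq_finsupp_supported (Fin 2) ℂ m
  rw [h0, Module.finrank_eq_nat_card_basis (MvPolynomial.basisRestrictSupport ℂ _)]
  let e : {α : Fin 2 →₀ ℕ | α.degree = m} ≃ Fin (m + 1) :=
    { toFun := fun α => ⟨α.1 0, by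
        have h := α.2
        simp only [Set.mem_ofPred_eq, Finsupp.degree_eq_sum, Fin.sum_univ_two] at h
        omega⟩
      invFun := fun k => ⟨Finsupp.equivFunOnFinite.symm ![(k : ℕ), m - k], by
        have := k.2
        simp only [Set.mem_ofPred_eq, Finsupp.degree_eq_sum, Fin.sum_univ_two]
        simp
        omega⟩
      left_inv := fun α => by
        have h := α.2
        simp only [Set.mem_ofPred_eq, Finsupp.degree_eq_sum, Fin.sum_univ_two] at h
        apply Subtype.ext
        ext i
        fin_cases i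
        · simp
        · simp
          omega
      right_inv := fun k => by
        apply Fin.ext
        simp }
  rw [Nat.card_congr e]
  simp

end Pool.Agent.Helper716_Lang
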