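import Pool.Agent.Helper716_Lang.RCMin

/-!
# The order of a real closed field given by its algebraic axioms

A field in which `-1` is not a sum of squares, every element or its negative is a square, and every
polynomial of odd degree has a root, carries a linear order whose nonnegative elements are the
squares; for this order the minimum property `SphereMin` holds.
-/

set_option autoImplicit false

namespace Pool.Agent.Helper716_Lang.RC

section field

variable {R : Type} [Field R]

theorem isSquare_add (h1 : ¬ ∃ (m : ℕ) (f : Fin m → R), ∑ i, f i ^ 2 = -1)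
    (h2 : ∀ x : R, IsSquare x ∨ IsSquare (-x)) {x y : R} (hx : IsSquare x) (hy : IsSquare y) :
    IsSquare (x + y) := by
  rcases h2 (x + y) with h | h
  · exact h
  obtain ⟨a, rfl⟩ := hx
  obtain ⟨b, rfl⟩ := hy
  obtain ⟨c, hc⟩ := h
  by_cases hc0 : c = 0
  · have : a * a + b * b = 0 := by
      rw [hc0] at hc
      linear_combination -hc
    rw [this]
    exact IsSquare.zero
  · exact absurd ⟨2, ![a / c, b / c], by
      simp only [Fin.sum_univ_two, Matrix.cons_val_zero, Matrix.cons_val_one]
      field_simp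
      linear_combination -hc⟩ h1

theorem eq_zero_of_squares (h1 : ¬ ∃ (m : ℕ) (f : Fin m → R), ∑ i, f i ^ 2 = -1) {x : R}
    (hx : IsSquare x) (hy : IsSquare (-x)) : x = 0 := by
  obtain ⟨a, rfl⟩ := hx
  obtain ⟨b, hb⟩ := hy
  by_cases ha : a = 0
  · simp [ha]
  · exact absurd ⟨1, ![b / a], by
      simp only [Fin.sum_univ_one, Matrix.cons_val_fin_one]
      field_simp
      linear_combination -hb⟩ h1

/-- the cone of squares -/
def sqCone (h1 : ¬ ∃ (m : ℕ) (f : Fin m → R), ∑ i, f i ^ 2 = -1)
    (h2 : ∀ x : R, IsSquare x ∨ IsSquare (-x)) : RingCone R where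
  carrier := {x | IsSquare x}
  mul_mem' := fun ha hb => IsSquare.mul ha hb
  one_mem' := IsSquare.one
  add_mem' := fun ha hb => isSquare_add h1 h2 ha hb
  zero_mem' := IsSquare.zero
  eq_zero_of_mem_of_neg_mem' := fun ha hb => eq_zero_of_squares h1 ha hb

end field

/-- TARGET -/
theorem exists_order (R : Type) [Field R]
    (h1 : ¬ ∃ (m : ℕ) (f : Fin m → R), ∑ i, f i ^ 2 = -1)
    (h2 : ∀ x : R, IsSquare x ∨ IsSquare (-x))
    (h3 : ∀ p : Polynomial R, Odd p.natDegree → ∃ x : R, p.IsRoot x) :
    ∃ _ : LinearOrder R, IsStrictOrderedRing R ∧ (∀ x : R, 0 ≤ x → IsSquare x) ∧ SphereMin R := by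
  classical
  have : HasMemOrNegMem (sqCone h1 h2) := ⟨fun a => h2 a⟩
  letI lo : LinearOrder R := LinearOrder.mkOfAddGroupCone (sqCone h1 h2)
  have hle : ∀ x : R, 0 ≤ x ↔ IsSquare x := fun x => by
    show x - 0 ∈ sqCone h1 h2 ↔ IsSquare x
    rw [sub_zero]
    rfl
  have : IsOrderedRing R := IsOrderedRing.mkOfCone (sqCone h1 h2)
  have hs : IsStrictOrderedRing R := IsOrderedRing.toIsStrictOrderedRing R
  have : IsRealClosed R := IsRealClosed.of_linearOrderedField (fun {x} hx => (hle x).1 hx)
    (fun {f} hf => h3 f hf)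
  exact ⟨lo, hs, fun x hx => (hle x).1 hx, sphereMin_of_isRealClosed R⟩

end Pool.Agent.Helper716_Lang.RC
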