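import Pool.Agent.Helper716_Lang.Filtration
import Pool.Agent.Helper716_Lang.RCOrder

/-!
# Lang's conjecture of 1953

A field of transcendence degree `n` over a real closed field in which `-1` is a sum of squares is a
`C_n`-field, for systems of forms, and for systems of weighted homogeneous polynomials.
-/

set_option autoImplicit false

namespace Pool.Agent.Helper716_Lang

section

variable {R K : Type*} [Field R] [LinearOrder R] [IsStrictOrderedRing R] [Field K] [Algebra R K]
  {n : ℕ}

theorem core (hmin : SphereMin R) (hsc : Scaling R) {x : Fin n → K}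
    (hx : IsTranscendenceBasis R x) {q : ℕ} (g : Fin q → K) (hg : ∑ l, g l ^ 2 = -1)
    {I J : Type*} [Fintype I] [Fintype J] (w : I → ℕ) (hw : ∀ i, 0 < w i) (d : J → ℕ)
    (hd : ∀ j, 0 < d j) (hN : ∑ j, d j ^ n < ∑ i, w i ^ n) (f : J → MvPolynomial I K)
    (hf : ∀ j, (f j).IsWeightedHomogeneous w (d j)) :
    ∃ v : I → K, v ≠ 0 ∧ ∀ j, MvPolynomial.eval v (f j) = 0 := by
  classical
  let h : Fin (q + 1) → K := Fin.cons 1 g
  have hh2 : ∑ l, h l ^ 2 = 0 := by
    rw [Fin.sum_univ_succ]
    simp [h, hg]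
  let S : Finset K := (Finset.univ.biUnion fun j => (f j).support.image fun α => (f j).coeff α) ∪
    Finset.univ.image h
  obtain ⟨Fl, b, hb, hS⟩ := exists_filt hx S
  obtain ⟨v, hv, hv2⟩ := assemble hmin hsc Fl w hw d hd hN (fun j => MvPolynomial.C b * f j)
    (fun j => by
      have := (MvPolynomial.isWeightedHomogeneous_C w b).mul (hf j)
      rwa [zero_add] at this)
    (fun j α => by
      rw [MvPolynomial.coeff_C_mul]
      by_cases hα : α ∈ (f j).support
      · refine hS _ (Finset.mem_union_left _ (Finset.mem_biUnion.2 ⟨j, Finset.mem_univ j, ?_⟩))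
        exact Finset.mem_image_of_mem _ hα
      · rw [MvPolynomial.notMem_support_iff.1 hα, mul_zero]
        exact Submodule.zero_mem _)
    (fun l => b * h l)
    (fun l => hS _ (Finset.mem_union_right _ (Finset.mem_image_of_mem _ (Finset.mem_univ l))))
    ⟨0, by simpa [h] using hb⟩
    (by
      simp only [mul_pow]
      rw [← Finset.mul_sum, hh2, mul_zero])
  refine ⟨v, hv, fun j => ?_⟩
  have h1 := hv2 j
  rw [map_mul, MvPolynomial.eval_C] at h1
  exact (mul_eq_zero.1 h1).resolve_left hb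

end

/-- The order of a real closed field, from the algebraic axioms. -/
theorem exists_realClosed_order (R : Type) [Field R]
    (h1 : ¬ ∃ (m : ℕ) (f : Fin m → R), ∑ i, f i ^ 2 = -1)
    (h2 : ∀ x : R, IsSquare x ∨ IsSquare (-x))
    (h3 : ∀ p : Polynomial R, Odd p.natDegree → ∃ x : R, p.IsRoot x) :
    ∃ (_ : LinearOrder R) (_ : IsStrictOrderedRing R), IsRealClosed R := by
  classical
  have : HasMemOrNegMem (RC.sqCone h1 h2) := ⟨fun a => h2 a⟩
  let lo : LinearOrder R := LinearOrder.mkOfAddGroupCone (RC.sqCone h1 h2)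
  have hle : ∀ x : R, 0 ≤ x ↔ IsSquare x := fun x => by
    show x - 0 ∈ RC.sqCone h1 h2 ↔ IsSquare x
    rw [sub_zero]
    rfl
  have : IsOrderedRing R := IsOrderedRing.mkOfCone (RC.sqCone h1 h2)
  have hs : IsStrictOrderedRing R := IsOrderedRing.toIsStrictOrderedRing R
  exact ⟨lo, hs, IsRealClosed.of_linearOrderedField (fun {x} hx => (hle x).1 hx)
    (fun {f} hf => h3 f hf)⟩

section realClosed

variable (R : Type) [Field R] [LinearOrder R] [IsStrictOrderedRing R] [IsRealClosed R]

theorem scaling_of_isRealClosed : Scaling R := by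
  intro M w hw v hv
  let P : Polynomial R := ∑ i, Polynomial.C (v i ^ 2) * Polynomial.X ^ (2 * w i) - Polynomial.C 1
  have hP : ∀ c : R, P.eval c = ∑ i, (c ^ w i * v i) ^ 2 - 1 := by
    intro c
    simp only [P, Polynomial.eval_sub, Polynomial.eval_finsetSum, Polynomial.eval_mul,
      Polynomial.eval_C, Polynomial.eval_pow, Polynomial.eval_X]
    congr 1
    exact Finset.sum_congr rfl fun i _ => by rw [mul_pow, ← pow_mul, mul_comm (w i) 2]; ring
  rcases hv.eq_or_lt with h1 | h1
  · exact ⟨1, one_pos, le_rfl, by simpa using h1.symm⟩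
  · have h2 : P.eval 0 = -1 := by
      rw [hP]
      have : ∀ i, ((0 : R) ^ w i * v i) ^ 2 = 0 := fun i => by simp [zero_pow (hw i).ne']
      simp [this]
    have h3 : 0 < P.eval 1 := by
      rw [hP]
      simpa using h1
    obtain ⟨c, hc0, hc1, hc⟩ := RC.exists_root_between P (a := 0) (b := 1) one_pos
      (by rw [h2]; linarith)
    rw [hP] at hc
    exact ⟨c, hc0, hc1.le, by linarith⟩

variable {R}

/-- The theorem over real closed fields, weighted form. -/
theorem lang_weighted {K : Type*} [Field K] [Algebra R K] {n : ℕ} {x : Fin n → K}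
    (hx : IsTranscendenceBasis R x) {q : ℕ} (g : Fin q → K) (hg : ∑ l, g l ^ 2 = -1)
    {I J : Type*} [Fintype I] [Fintype J] (w : I → ℕ) (hw : ∀ i, 0 < w i) (d : J → ℕ)
    (hd : ∀ j, 0 < d j) (hN : ∑ j, d j ^ n < ∑ i, w i ^ n) (f : J → MvPolynomial I K)
    (hf : ∀ j, (f j).IsWeightedHomogeneous w (d j)) :
    ∃ v : I → K, v ≠ 0 ∧ ∀ j, MvPolynomial.eval v (f j) = 0 :=
  core (RC.sphereMin_of_isRealClosed R) (scaling_of_isRealClosed R) hx g hg w hw d hd hN f hf

/-- The theorem over real closed fields. -/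
theorem lang {K : Type*} [Field K] [Algebra R K] {n : ℕ} {x : Fin n → K}
    (hx : IsTranscendenceBasis R x) {q : ℕ} (g : Fin q → K) (hg : ∑ l, g l ^ 2 = -1)
    {N : ℕ} {J : Type*} [Fintype J] (d : J → ℕ)
    (hd : ∀ j, 0 < d j) (hN : ∑ j, d j ^ n < N) (f : J → MvPolynomial (Fin N) K)
    (hf : ∀ j, (f j).IsHomogeneous (d j)) :
    ∃ v : Fin N → K, v ≠ 0 ∧ ∀ j, MvPolynomial.eval v (f j) = 0 :=
  lang_weighted hx g hg (fun _ : Fin N => 1) (fun _ => one_pos) d hd (by simpa using hN) f hf

end realClosed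

end Pool.Agent.Helper716_Lang
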