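import Pool.Agent.Helper716_Lang.Binary
import Pool.Agent.Helper716_Lang.Core

/-!
# Real weighted homogeneous systems have zeros in antipodally real binary forms
-/

set_option autoImplicit false

namespace Pool.Agent.Helper716_Lang

open MvPolynomial

/-- binary forms of degree `m` fixed by the antipodal real structure -/
noncomputable def RB (m : ℕ) : Submodule ℝ (MvPolynomial (Fin 2) ℂ) where
  carrier := {p | p.IsHomogeneous m ∧ sig p = p}
  add_mem' := fun ha hb => ⟨ha.1.add hb.1, by rw [map_add, ha.2, hb.2]⟩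
  zero_mem' := ⟨isHomogeneous_zero _ _ _, map_zero _⟩
  smul_mem' := fun c p hp => ⟨by
    have : c • p = C (c : ℂ) * p := by
      rw [Algebra.smul_def]
      rfl
    rw [this]
    exact hp.1.C_mul _, by rw [map_smul, hp.2]⟩

theorem mem_RB {m : ℕ} {p : MvPolynomial (Fin 2) ℂ} :
    p ∈ RB m ↔ p.IsHomogeneous m ∧ sig p = p := Iff.rfl

instance finite_RB (m : ℕ) : Module.Finite ℝ (RB m) := by
  have h1 : Module.Finite ℂ (homogeneousSubmodule (Fin 2) ℂ m) :=
    Module.finite_of_finrank_pos (by rw [finrank_binary]; omega)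
  have h2 : Module.Finite ℝ (homogeneousSubmodule (Fin 2) ℂ m) := Module.Finite.trans ℂ _
  let φ : RB m →ₗ[ℝ] homogeneousSubmodule (Fin 2) ℂ m :=
    { toFun := fun p => ⟨p.1, p.2.1⟩
      map_add' := fun _ _ => rfl
      map_smul' := fun _ _ => rfl }
  exact Module.Finite.of_injective φ fun p q h => Subtype.ext (congrArg (fun x => x.1) h)

theorem finrank_RB_pos (w : ℕ) : 0 < Module.finrank ℝ (RB (2 * w)) := by
  have h1 : (X 0 ^ 2 + X 1 ^ 2 : MvPolynomial (Fin 2) ℂ) ≠ 0 := by
    intro h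
    have := congrArg (MvPolynomial.eval ![1, 0]) h
    simp at this
  have h2 : (X 0 ^ 2 + X 1 ^ 2 : MvPolynomial (Fin 2) ℂ) ^ w ∈ RB (2 * w) := by
    refine ⟨?_, ?_⟩
    · exact ((isHomogeneous_X_pow 0 2).add (isHomogeneous_X_pow 1 2)).pow w
    · simp [add_comm]
  have : Nontrivial (RB (2 * w)) := ⟨⟨⟨_, h2⟩, 0, fun h => pow_ne_zero w h1
    (congrArg Subtype.val h)⟩⟩
  exact Module.finrank_pos

section

variable {I : Type*}

/-- values of real weighted homogeneous polynomials at binary forms -/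
theorem isHomogeneous_aeval (w : I → ℕ) (g : MvPolynomial I ℝ) (e : ℕ)
    (hg : g.IsWeightedHomogeneous w e) (s : I → MvPolynomial (Fin 2) ℂ)
    (hs : ∀ i, (s i).IsHomogeneous (2 * w i)) : (aeval s g).IsHomogeneous (2 * e) := by
  rw [aeval_def, eval₂_eq]
  refine IsHomogeneous.sum _ _ _ fun α hα => ?_
  have h1 : Finsupp.weight w α = e := hg (mem_support_iff.1 hα)
  have h2 : (∏ i ∈ α.support, s i ^ α i).IsHomogeneous (∑ i ∈ α.support, 2 * w i * α i) :=
    IsHomogeneous.prod _ _ _ fun i _ => (hs i).pow _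
  have h3 : ∑ i ∈ α.support, 2 * w i * α i = 2 * e := by
    rw [← h1, Finsupp.weight_apply, Finsupp.sum, Finset.mul_sum]
    exact Finset.sum_congr rfl fun i _ => by rw [smul_eq_mul]; ring
  rw [h3] at h2
  have h4 := (isHomogeneous_C (Fin 2) ((coeff α g : ℝ) : ℂ)).mul h2
  rw [zero_add] at h4
  exact h4

theorem sig_aeval (g : MvPolynomial I ℝ) (s : I → MvPolynomial (Fin 2) ℂ) :
    sig (aeval s g) = aeval (fun i => sig (s i)) g := by
  have := congrArg (fun φ : MvPolynomial I ℝ →ₐ[ℝ] MvPolynomial (Fin 2) ℂ => φ g)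
    (MvPolynomial.comp_aeval s sig)
  exact this

theorem pderiv_eq_zero_of_lt (w : I → ℕ) (g : MvPolynomial I ℝ) (e : ℕ)
    (hg : g.IsWeightedHomogeneous w e) (i : I) (hi : e < w i) : pderiv i g = 0 := by
  classical
  rw [MvPolynomial.as_sum g, map_sum]
  refine Finset.sum_eq_zero fun α hα => ?_
  have h1 : Finsupp.weight w α = e := hg (mem_support_iff.1 hα)
  have h2 : α i = 0 := by
    by_contra h
    have h3 : w i ≤ Finsupp.weight w α := by
      rw [Finsupp.weight_apply, Finsupp.sum]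
      refine le_trans ?_ (Finset.single_le_sum (f := fun i => α i • w i) (fun _ _ => Nat.zero_le _)
        (Finsupp.mem_support_iff.2 h))
      simp only [smul_eq_mul]
      exact Nat.le_mul_of_pos_left _ (Nat.pos_of_ne_zero h)
    omega
  rw [pderiv_monomial, h2]
  simp

/-- the derivative in a complex direction of odd degree -/
theorem isHomogeneous_deriv [Fintype I] (w : I → ℕ) (hw : ∀ i, 0 < w i) (g : MvPolynomial I ℝ)
    (e : ℕ) (he : 0 < e) (hg : g.IsWeightedHomogeneous w e) (s ζ : I → MvPolynomial (Fin 2) ℂ)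
    (hs : ∀ i, (s i).IsHomogeneous (2 * w i)) (hζ : ∀ i, (ζ i).IsHomogeneous (2 * w i - 1)) :
    (∑ i, aeval s (pderiv i g) * ζ i).IsHomogeneous (2 * e - 1) := by
  refine IsHomogeneous.sum _ _ _ fun i _ => ?_
  rcases lt_or_ge e (w i) with h | h
  · rw [pderiv_eq_zero_of_lt w g e hg i h, map_zero, zero_mul]
    exact isHomogeneous_zero _ _ _
  · have h1 : (pderiv i g).IsWeightedHomogeneous w (e - w i) := hg.pderiv (by omega)
    have h2 := (isHomogeneous_aeval w _ _ h1 s hs).mul (hζ i)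
    have h3 : 2 * (e - w i) + (2 * w i - 1) = 2 * e - 1 := by
      have := hw i
      omega
    rwa [h3] at h2

end

section four

/-- the four directions, over any ring -/
def fourG {A I : Type*} [CommRing A] (z z' : I → A) (x y J : A) : Fin 4 → I → A := ![
  fun i => z i * x + z' i * (-y),
  fun i => J * (z i * x - z' i * (-y)),
  fun i => z i * y + z' i * x,
  fun i => J * (z i * y - z' i * x)]

theorem fourG_prod {A I : Type*} [CommRing A] (z z' : I → A) (x y J : A) (hJ : J * J = -1)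
    (i k : I) : ∑ l, fourG z z' x y J l i * fourG z z' x y J l k = 0 := by
  rw [Fin.sum_univ_four]
  show (z i * x + z' i * (-y)) * (z k * x + z' k * (-y)) +
    (J * (z i * x - z' i * (-y))) * (J * (z k * x - z' k * (-y))) +
    (z i * y + z' i * x) * (z k * y + z' k * x) +
    (J * (z i * y - z' i * x)) * (J * (z k * y - z' k * x)) = 0
  linear_combination ((z i * x - z' i * (-y)) * (z k * x - z' k * (-y)) +
    (z i * y - z' i * x) * (z k * y - z' k * x)) * hJ

theorem fourG_first {A I : Type*} [CommRing A] [Fintype I] (z z' : I → A) (x y J : A) (c : I → A)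
    (h1 : ∑ i, c i * z i = 0) (h2 : ∑ i, c i * z' i = 0) (l : Fin 4) :
    ∑ i, c i * fourG z z' x y J l i = 0 := by
  have key : ∀ u v : A, ∑ i, c i * (z i * u + z' i * v) = 0 := by
    intro u v
    have h3 : ∀ i, c i * (z i * u + z' i * v) = c i * z i * u + c i * z' i * v := fun i => by ring
    simp only [h3]
    rw [Finset.sum_add_distrib, ← Finset.sum_mul, ← Finset.sum_mul, h1, h2, zero_mul, zero_mul,
      add_zero]
  match l with
  | 0 => exact key x (-y)
  | 1 =>
    rw [← key (J * x) (J * y)]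
    refine Finset.sum_congr rfl fun i _ => ?_
    show c i * (J * (z i * x - z' i * (-y))) = _
    ring
  | 2 => exact key y x
  | 3 =>
    rw [← key (J * y) (-(J * x))]
    refine Finset.sum_congr rfl fun i _ => ?_
    show c i * (J * (z i * y - z' i * x)) = _
    ring

variable {I : Type*}

/-- the four real directions attached to a complex direction of odd degree -/
noncomputable def four (z : I → MvPolynomial (Fin 2) ℂ) : Fin 4 → I → MvPolynomial (Fin 2) ℂ :=
  fourG z (fun i => sig (z i)) (X 0) (X 1) (C Complex.I)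

theorem CI_mul_CI : (C Complex.I * C Complex.I : MvPolynomial (Fin 2) ℂ) = -1 := by
  rw [← C_mul, Complex.I_mul_I, C_neg, C_1]

theorem four_prod (z : I → MvPolynomial (Fin 2) ℂ) (i k : I) :
    ∑ l, four z l i * four z l k = 0 := fourG_prod _ _ _ _ _ CI_mul_CI i k

theorem four_first [Fintype I] (z c : I → MvPolynomial (Fin 2) ℂ) (h1 : ∑ i, c i * z i = 0)
    (h2 : ∑ i, c i * sig (z i) = 0) (l : Fin 4) : ∑ i, c i * four z l i = 0 :=
  fourG_first _ _ _ _ _ c h1 h2 l

theorem four_eq_zero (z : I → MvPolynomial (Fin 2) ℂ) (h : ∀ l i, four z l i = 0) (i : I) :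
    z i = 0 := by
  have h1 : z i * X 0 + sig (z i) * (-X 1) = 0 := h 0 i
  have h2 : C Complex.I * (z i * X 0 - sig (z i) * (-X 1)) = 0 := h 1 i
  have hI : (C Complex.I : MvPolynomial (Fin 2) ℂ) ≠ 0 := by
    intro h0
    have := CI_mul_CI
    rw [h0] at this
    simp at this
  have h3 := (mul_eq_zero.1 h2).resolve_left hI
  have h4 : (2 : MvPolynomial (Fin 2) ℂ) * (z i * X 0) = 0 := by
    linear_combination h1 + h3
  have h5 := (mul_eq_zero.1 h4).resolve_left two_ne_zero
  exact (mul_eq_zero.1 h5).resolve_right (X_ne_zero 0)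

theorem sig_odd {p : MvPolynomial (Fin 2) ℂ} {m : ℕ} (hm : Odd m) (hp : p.IsHomogeneous m) :
    sig (sig p) = -p := by
  rw [sig_sig hp, hm.neg_one_pow]
  ring

theorem four_mem_one {p : MvPolynomial (Fin 2) ℂ} {m : ℕ} (hm : Odd m) (hp : p.IsHomogeneous m)
    (l : Fin 4) : fourG (fun _ : Unit => p) (fun _ => sig p) (X 0) (X 1) (C Complex.I) l () ∈
      RB (m + 1) := by
  have hX0 : (X 0 : MvPolynomial (Fin 2) ℂ).IsHomogeneous 1 := isHomogeneous_X ℂ 0
  have hX1 : (X 1 : MvPolynomial (Fin 2) ℂ).IsHomogeneous 1 := isHomogeneous_X ℂ 1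
  have hs := sig_isHomogeneous hp
  have hss := sig_odd hm hp
  have hsI : sig (C Complex.I) = -C Complex.I := by rw [sig_C, Complex.conj_I, C_neg]
  match l with
  | 0 =>
    refine ⟨(hp.mul hX0).add (hs.mul hX1.neg), ?_⟩
    show sig (p * X 0 + sig p * (-X 1)) = p * X 0 + sig p * (-X 1)
    rw [map_add, map_mul, map_mul, map_neg, sig_X0, sig_X1, hss]
    ring
  | 1 =>
    refine ⟨((hp.mul hX0).sub (hs.mul hX1.neg)).C_mul _, ?_⟩
    show sig (C Complex.I * (p * X 0 - sig p * (-X 1))) = C Complex.I * (p * X 0 - sig p * (-X 1))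
    rw [map_mul, map_sub, map_mul, map_mul, map_neg, sig_X0, sig_X1, hss, hsI]
    ring
  | 2 =>
    refine ⟨(hp.mul hX1).add (hs.mul hX0), ?_⟩
    show sig (p * X 1 + sig p * X 0) = p * X 1 + sig p * X 0
    rw [map_add, map_mul, map_mul, sig_X0, sig_X1, hss]
    ring
  | 3 =>
    refine ⟨((hp.mul hX1).sub (hs.mul hX0)).C_mul _, ?_⟩
    show sig (C Complex.I * (p * X 1 - sig p * X 0)) = C Complex.I * (p * X 1 - sig p * X 0)
    rw [map_mul, map_sub, map_mul, map_mul, sig_X0, sig_X1, hss, hsI]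
    ring

theorem four_mem (w : I → ℕ) (hw : ∀ i, 0 < w i) (z : I → MvPolynomial (Fin 2) ℂ)
    (hz : ∀ i, (z i).IsHomogeneous (2 * w i - 1)) (l : Fin 4) (i : I) :
    four z l i ∈ RB (2 * w i) := by
  have hm : Odd (2 * w i - 1) := ⟨w i - 1, by have := hw i; omega⟩
  have h1 := four_mem_one hm (hz i) l
  have h2 : 2 * w i - 1 + 1 = 2 * w i := by have := hw i; omega
  rw [h2] at h1
  have h3 : four z l i =
      fourG (fun _ : Unit => z i) (fun _ => sig (z i)) (X 0) (X 1) (C Complex.I) l () := by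
    match l with
    | 0 => rfl
    | 1 => rfl
    | 2 => rfl
    | 3 => rfl
  rw [h3]
  exact h1

end four

/-- values of real polynomials at binary polynomials -/
theorem eval_map_eq {I : Type*} (g : MvPolynomial I ℝ) (s : I → MvPolynomial (Fin 2) ℂ) :
    MvPolynomial.eval s (MvPolynomial.map (algebraMap ℝ (MvPolynomial (Fin 2) ℂ)) g) =
      aeval s g := by
  rw [MvPolynomial.eval_map, MvPolynomial.aeval_def]

/-- The directions at a given point. -/
theorem exists_directions {I J : Type*} [Fintype I] [Fintype J] (w : I → ℕ) (hw : ∀ i, 0 < w i)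
    (d : J → ℕ) (hd : ∀ j, 0 < d j) (hN : ∑ j, d j < ∑ i, w i) (f : J → MvPolynomial I ℝ)
    (hf : ∀ j, (f j).IsWeightedHomogeneous w (d j)) (a : I → MvPolynomial (Fin 2) ℂ)
    (ha : ∀ i, a i ∈ RB (2 * w i)) :
    ∃ r : Fin 4 → I → MvPolynomial (Fin 2) ℂ, (∀ l i, r l i ∈ RB (2 * w i)) ∧
      (∃ l i, r l i ≠ 0) ∧ (∀ j l, (kline (MvPolynomial.map
        (algebraMap ℝ (MvPolynomial (Fin 2) ℂ)) (f j)) a (r l)).coeff 1 = 0) ∧
      ∀ i k, ∑ l, r l i * r l k = 0 := by
  classical
  have hah : ∀ i, (a i).IsHomogeneous (2 * w i) := fun i => (mem_RB.1 (ha i)).1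
  have has : ∀ i, sig (a i) = a i := fun i => (mem_RB.1 (ha i)).2
  have hlin : ∀ z : I → MvPolynomial (Fin 2) ℂ,
      (∀ i, z i ∈ homogeneousSubmodule (Fin 2) ℂ (2 * w i - 1)) → ∀ j,
      ∑ i, aeval a (pderiv i (f j)) * z i ∈ homogeneousSubmodule (Fin 2) ℂ (2 * d j - 1) := by
    intro z hz j
    rw [mem_homogeneousSubmodule]
    exact isHomogeneous_deriv w hw (f j) (d j) (hd j) (hf j) a z hah
      fun i => (mem_homogeneousSubmodule _ _).1 (hz i)
  let Λ : (∀ i : I, homogeneousSubmodule (Fin 2) ℂ (2 * w i - 1)) →ₗ[ℂ]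
      (∀ j : J, homogeneousSubmodule (Fin 2) ℂ (2 * d j - 1)) :=
    { toFun := fun z j => ⟨∑ i, aeval a (pderiv i (f j)) * (z i : MvPolynomial (Fin 2) ℂ),
        hlin (fun i => (z i : MvPolynomial (Fin 2) ℂ)) (fun i => (z i).2) j⟩
      map_add' := by
        intro x y
        funext j
        apply Subtype.ext
        simp [mul_add, Finset.sum_add_distrib]
      map_smul' := by
        intro r x
        funext j
        apply Subtype.ext
        simp [Finset.smul_sum] }
  have hfin : ∀ m, Module.Finite ℂ (homogeneousSubmodule (Fin 2) ℂ m) := fun m =>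
    Module.finite_of_finrank_pos (by rw [finrank_binary]; omega)
  have hrank : Module.finrank ℂ (∀ j : J, homogeneousSubmodule (Fin 2) ℂ (2 * d j - 1)) <
      Module.finrank ℂ (∀ i : I, homogeneousSubmodule (Fin 2) ℂ (2 * w i - 1)) := by
    rw [Module.finrank_pi_fintype, Module.finrank_pi_fintype]
    simp only [finrank_binary]
    have h1 : ∀ i, 2 * w i - 1 + 1 = 2 * w i := fun i => by have := hw i; omega
    have h2 : ∀ j, 2 * d j - 1 + 1 = 2 * d j := fun j => by have := hd j; omega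
    simp only [h1, h2]
    rw [← Finset.mul_sum, ← Finset.mul_sum]
    omega
  have hker : LinearMap.ker Λ ≠ ⊥ := LinearMap.ker_ne_bot_of_finrank_lt hrank
  obtain ⟨z, hz, hz0⟩ := Submodule.exists_mem_ne_zero_of_ne_bot hker
  have hzj : ∀ j, ∑ i, aeval a (pderiv i (f j)) * (z i : MvPolynomial (Fin 2) ℂ) = 0 := by
    intro j
    have h1 : Λ z = 0 := hz
    exact congrArg Subtype.val (congrFun h1 j)
  have hzh : ∀ i, (z i : MvPolynomial (Fin 2) ℂ).IsHomogeneous (2 * w i - 1) := fun i =>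
    (mem_homogeneousSubmodule _ _).1 (z i).2
  obtain ⟨y, hy⟩ : ∃ y : I → MvPolynomial (Fin 2) ℂ, ∀ i, y i = (z i : MvPolynomial (Fin 2) ℂ) :=
    ⟨fun i => (z i : MvPolynomial (Fin 2) ℂ), fun i => rfl⟩
  have hyne : ∃ i, y i ≠ 0 := by
    by_contra hcon
    push Not at hcon
    apply hz0
    funext i
    apply Subtype.ext
    rw [← hy i]
    exact hcon i
  simp only [← hy] at hzj hzh
  have hzj' : ∀ j, ∑ i, aeval a (pderiv i (f j)) * sig (y i) = 0 := by
    intro j
    have h1 := congrArg sig (hzj j)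
    rw [map_sum, map_zero] at h1
    rw [← h1]
    refine Finset.sum_congr rfl fun i _ => ?_
    rw [map_mul, sig_aeval]
    simp only [has]
  refine ⟨four y, fun l i => four_mem w hw y hzh l i, ?_, fun j l => ?_, four_prod y⟩
  · by_contra hcon
    push Not at hcon
    obtain ⟨i, hi⟩ := hyne
    exact hi (four_eq_zero y hcon i)
  · rw [kline_coeff_one]
    have h0 : ∀ i, MvPolynomial.eval a (pderiv i
        (MvPolynomial.map (algebraMap ℝ (MvPolynomial (Fin 2) ℂ)) (f j))) =
        aeval a (pderiv i (f j)) := by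
      intro i
      rw [MvPolynomial.pderiv_map, eval_map_eq]
    simp only [h0]
    exact four_first _ _ (hzj j) (hzj' j) l

/-- **Main theorem, binary version.** -/
theorem conic_binary {I J : Type*} [Fintype I] [Fintype J] (w : I → ℕ) (hw : ∀ i, 0 < w i)
    (d : J → ℕ) (hd : ∀ j, 0 < d j) (hN : ∑ j, d j < ∑ i, w i) (f : J → MvPolynomial I ℝ)
    (hf : ∀ j, (f j).IsWeightedHomogeneous w (d j)) :
    ∃ s : I → MvPolynomial (Fin 2) ℂ, s ≠ 0 ∧ (∀ i, s i ∈ RB (2 * w i)) ∧
      ∀ j, aeval s (f j) = 0 := by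
  classical
  -- coordinates
  let b : ∀ i : I, Module.Basis (Fin (Module.finrank ℝ (RB (2 * w i)))) ℝ (RB (2 * w i)) :=
    fun i => Module.finBasis ℝ (RB (2 * w i))
  let ι := Σ i : I, Fin (Module.finrank ℝ (RB (2 * w i)))
  let E : I → ι → MvPolynomial (Fin 2) ℂ := fun i m => if m.1 = i then (b m.1 m.2 : MvPolynomial (Fin 2) ℂ) else 0
  have hE : ∀ (s : ι → ℝ) (i : I), ∑ m, s m • E i m =
      ((∑ m, s ⟨i, m⟩ • b i m : RB (2 * w i)) : MvPolynomial (Fin 2) ℂ) := by
    intro s i
    rw [Fintype.sum_sigma, Finset.sum_eq_single i]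
    · simp [E]
    · intro l _ hl
      refine Finset.sum_eq_zero fun m _ => ?_
      simp [E, hl]
    · simp
  have hIne : Nonempty I := by
    by_contra hcon
    rw [not_nonempty_iff] at hcon
    simp at hN
  have : Nonempty ι := by
    obtain ⟨i⟩ := hIne
    exact ⟨⟨i, ⟨0, finrank_RB_pos _⟩⟩⟩
  have hsurj : ∀ y : I → MvPolynomial (Fin 2) ℂ, (∀ i, y i ∈ RB (2 * w i)) → ∃ ρ : ι → ℝ,
      ∀ i, ∑ m, ρ m • E i m = y i := by
    intro y hy
    refine ⟨fun m => (b m.1).repr ⟨y m.1, hy m.1⟩ m.2, fun i => ?_⟩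
    rw [hE]
    have := (b i).sum_repr ⟨y i, hy i⟩
    rw [this]
  have hmem : ∀ (s : ι → ℝ) (i : I), ∑ m, s m • E i m ∈ RB (2 * w i) := by
    intro s i
    rw [hE]
    exact Submodule.coe_mem _
  -- values
  have hval : ∀ (g : MvPolynomial I ℝ) (s : I → MvPolynomial (Fin 2) ℂ),
      MvPolynomial.eval s (MvPolynomial.map (algebraMap ℝ (MvPolynomial (Fin 2) ℂ)) g) =
        aeval s g := eval_map_eq
  suffices hmain : ∃ s : ι → ℝ, s ≠ 0 ∧ ∀ j, MvPolynomial.eval (fun i => ∑ m, s m • E i m)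
      (MvPolynomial.map (algebraMap ℝ (MvPolynomial (Fin 2) ℂ)) (f j)) = 0 by
    obtain ⟨s, hs0, hs⟩ := hmain
    refine ⟨fun i => ∑ m, s m • E i m, ?_, fun i => hmem s i, fun j => ?_⟩
    · intro h0
      apply hs0
      funext ⟨i, m⟩
      have h1 : ((∑ m, s ⟨i, m⟩ • b i m : RB (2 * w i)) : MvPolynomial (Fin 2) ℂ) = 0 := by
        rw [← hE]
        exact congrFun h0 i
      have h2 : (∑ m, s ⟨i, m⟩ • b i m : RB (2 * w i)) = 0 := Subtype.ext h1
      exact Fintype.linearIndependent_iff.1 (b i).linearIndependent (fun m => s ⟨i, m⟩) h2 m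
    · rw [← hval]
      exact hs j
  have : IsRealClosed ℝ := RC.isRealClosed_real
  refine engine_lin sphereMin_real (scaling_of_isRealClosed ℝ) E (fun m => w m.1)
    (fun m => hw m.1) _ d hd ?_ ?_
  · -- weighted homogeneity
    intro j r s
    rw [hval, hval]
    have h1 : (fun i => ∑ m, (r ^ w m.1 * s m) • E i m) =
        fun i => (algebraMap ℝ (MvPolynomial (Fin 2) ℂ) r) ^ w i * ∑ m, s m • E i m := by
      funext i
      rw [Finset.mul_sum]
      refine Finset.sum_congr rfl fun m _ => ?_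
      by_cases hm : m.1 = i
      · subst hm
        rw [Algebra.smul_def, Algebra.smul_def, map_mul, map_pow]
        ring
      · simp [E, hm]
    rw [h1, MvPolynomial.aeval_def, MvPolynomial.aeval_def, MvPolynomial.eval₂_eq,
      MvPolynomial.eval₂_eq, Finset.smul_sum]
    refine Finset.sum_congr rfl fun α hα => ?_
    have h2 : Finsupp.weight w α = d j := hf j (MvPolynomial.mem_support_iff.1 hα)
    rw [Algebra.smul_def, map_pow, ← h2]
    simp only [mul_pow, Finset.prod_mul_distrib]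
    have h3 : (algebraMap ℝ (MvPolynomial (Fin 2) ℂ) r) ^ (Finsupp.weight w α) =
        ∏ i ∈ α.support, ((algebraMap ℝ (MvPolynomial (Fin 2) ℂ) r) ^ w i) ^ α i := by
      rw [Finsupp.weight_apply, Finsupp.sum, ← Finset.prod_pow_eq_pow_sum]
      refine Finset.prod_congr rfl fun i _ => ?_
      rw [← pow_mul, smul_eq_mul, mul_comm]
    rw [h3]
    ring
  · -- the directions
    intro s
    obtain ⟨r, hr, ⟨l0, i0, hr0⟩, hr1, hr2⟩ := exists_directions w hw d hd hN f hf
      (fun i => ∑ m, s m • E i m) (fun i => hmem s i)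
    choose ρ hρ using fun l => hsurj (r l) (hr l)
    have hρ' : ∀ l, (fun i => ∑ m, ρ l m • E i m) = r l := fun l => funext (hρ l)
    refine ⟨4, ρ, ⟨l0, fun h0 => hr0 ?_⟩, fun j l => ?_, fun j => ?_⟩
    · rw [← hρ l0 i0, h0]
      simp
    · rw [hρ']
      exact hr1 j l
    · simp only [hρ']
      exact sum_coeff_two r hr2 _ _

end Pool.Agent.Helper716_Lang
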