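import Mathlib

/-!
# Minima of polynomials on spheres over ordered fields
-/

set_option autoImplicit false

namespace Pool.Agent.Helper716_Lang

/-- Every polynomial in `M ≥ 1` variables over the ordered field `R` attains its minimum on the
unit sphere of `R ^ M`. -/
def SphereMin (R : Type*) [Field R] [LinearOrder R] : Prop :=
  ∀ (M : ℕ) (p : MvPolynomial (Fin M) R), 0 < M → ∃ s : Fin M → R, ∑ i, s i ^ 2 = 1 ∧
    ∀ v : Fin M → R, ∑ i, v i ^ 2 = 1 → MvPolynomial.eval s p ≤ MvPolynomial.eval v p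

/-- Over the reals this is compactness of the sphere. -/
theorem sphereMin_real : SphereMin ℝ := by
  intro M p hM
  have hc : IsCompact {v : Fin M → ℝ | ∑ i, v i ^ 2 = 1} := by
    refine (isCompact_Icc (a := (fun _ => -1 : Fin M → ℝ)) (b := fun _ => 1)).of_isClosed_subset
      (isClosed_eq (by fun_prop) continuous_const) ?_
    intro v hv
    have h : ∀ i, v i ^ 2 ≤ 1 := fun i => by
      rw [← (hv : ∑ i, v i ^ 2 = 1)]
      exact Finset.single_le_sum (f := fun i => v i ^ 2) (fun j _ => sq_nonneg (v j))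
        (Finset.mem_univ i)
    exact ⟨fun i => by have := h i; show -1 ≤ v i; nlinarith [sq_nonneg (v i + 1)],
      fun i => by have := h i; show v i ≤ 1; nlinarith [sq_nonneg (v i - 1)]⟩
  have hne : {v : Fin M → ℝ | ∑ i, v i ^ 2 = 1}.Nonempty := by
    refine ⟨Pi.single ⟨0, hM⟩ 1, ?_⟩
    show ∑ i, (Pi.single (⟨0, hM⟩ : Fin M) (1 : ℝ) : Fin M → ℝ) i ^ 2 = 1
    rw [Finset.sum_eq_single ⟨0, hM⟩]
    · simp
    · intro b _ hb
      simp [Pi.single_apply, hb]
    · simp
  obtain ⟨s, hs, hmin⟩ := hc.exists_isMinOn hne (f := fun v => MvPolynomial.eval v p)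
    (MvPolynomial.continuous_eval p).continuousOn
  exact ⟨s, hs, fun v hv => hmin hv⟩

end Pool.Agent.Helper716_Lang
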