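import Pool.Agent.Helper716_Lang.Order

/-!
# The descent engine

`g j` are polynomials with coefficients in an algebra `A` over the ordered field `R`, in variables
which take values in `R`.  If at every point `s` there are finitely many directions, not all zero,
in which all `g j` have no first order term and in which the second order terms add up to zero,
then the `g j` have a common nontrivial zero over `R`.
-/

set_option autoImplicit false

namespace Pool.Agent.Helper716_Lang

open Polynomial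

/-- Scaling a vector of norm at least one back to the unit sphere, with weights. -/
def Scaling (R : Type*) [Field R] [LinearOrder R] : Prop :=
  ∀ (M : ℕ) (w : Fin M → ℕ), (∀ i, 0 < w i) → ∀ v : Fin M → R, 1 ≤ ∑ i, v i ^ 2 →
    ∃ c : R, 0 < c ∧ c ≤ 1 ∧ ∑ i, (c ^ w i * v i) ^ 2 = 1

section

variable {R : Type*} [Field R] [LinearOrder R] [IsStrictOrderedRing R]

omit [IsStrictOrderedRing R] in
theorem SphereMin.fintype (h : SphereMin R) {ι : Type*} [Fintype ι] [Nonempty ι]
    (p : MvPolynomial ι R) : ∃ s : ι → R, ∑ i, s i ^ 2 = 1 ∧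
    ∀ v : ι → R, ∑ i, v i ^ 2 = 1 → MvPolynomial.eval s p ≤ MvPolynomial.eval v p := by
  classical
  let e := Fintype.equivFin ι
  obtain ⟨s, hs, hmin⟩ := h (Fintype.card ι) (MvPolynomial.rename e p) Fintype.card_pos
  refine ⟨s ∘ e, ?_, fun v hv => ?_⟩
  · rw [← hs]
    exact Equiv.sum_comp e (fun i => s i ^ 2)
  · have h1 := hmin (v ∘ e.symm) (by rw [← hv]; exact Equiv.sum_comp e.symm (fun i => v i ^ 2))
    rw [MvPolynomial.eval_rename, MvPolynomial.eval_rename] at h1
    have h2 : (v ∘ e.symm) ∘ e = v := funext fun i => by simp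
    rwa [h2] at h1

omit [IsStrictOrderedRing R] in
theorem Scaling.fintype (h : Scaling R) {ι : Type*} [Fintype ι] (w : ι → ℕ) (hw : ∀ i, 0 < w i)
    (v : ι → R) (hv : 1 ≤ ∑ i, v i ^ 2) :
    ∃ c : R, 0 < c ∧ c ≤ 1 ∧ ∑ i, (c ^ w i * v i) ^ 2 = 1 := by
  classical
  let e := Fintype.equivFin ι
  obtain ⟨c, h1, h2, h3⟩ := h (Fintype.card ι) (w ∘ e.symm) (fun i => hw _) (v ∘ e.symm)
    (by
      have := Equiv.sum_comp e.symm (fun i => v i ^ 2)
      exact hv.trans this.symm.le)
  refine ⟨c, h1, h2, ?_⟩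
  rw [← h3]
  exact (Equiv.sum_comp e.symm (fun i => (c ^ w i * v i) ^ 2)).symm

variable (R) in
/-- Every vector space over an ordered field has a positive definite symmetric form. -/
theorem exists_form (A : Type*) [AddCommGroup A] [Module R A] :
    ∃ B : A →ₗ[R] A →ₗ[R] R, (∀ x y, B x y = B y x) ∧ ∀ x, x ≠ 0 → 0 < B x x := by
  classical
  let b := Module.Basis.ofVectorSpace R A
  let B : A →ₗ[R] A →ₗ[R] R :=
    (Finsupp.linearCombination R (fun i => b.coord i)) ∘ₗ b.repr.toLinearMap
  have hB : ∀ x y, B x y = (b.repr x).sum fun i c => c * b.repr y i := by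
    intro x y
    simp only [B, LinearMap.comp_apply, LinearEquiv.coe_coe, Finsupp.linearCombination_apply,
      Finsupp.sum, LinearMap.sum_apply, LinearMap.smul_apply, Module.Basis.coord_apply,
      smul_eq_mul]
  have hB2 : ∀ x y, ∀ S : Finset _, (b.repr x).support ⊆ S →
      B x y = ∑ i ∈ S, b.repr x i * b.repr y i := by
    intro x y S hS
    rw [hB]
    exact Finsupp.sum_of_support_subset _ hS _ (by simp)
  refine ⟨B, fun x y => ?_, fun x hx => ?_⟩
  · rw [hB2 x y ((b.repr x).support ∪ (b.repr y).support) Finset.subset_union_left,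
      hB2 y x ((b.repr x).support ∪ (b.repr y).support) Finset.subset_union_right]
    exact Finset.sum_congr rfl fun i _ => mul_comm _ _
  · rw [hB2 x x _ subset_rfl]
    have hx' : (b.repr x).support.Nonempty := by
      rw [Finset.nonempty_iff_ne_empty]
      intro h
      apply hx
      rw [Finsupp.support_eq_empty] at h
      simpa using h
    refine Finset.sum_pos (fun i hi => ?_) hx'
    rw [Finsupp.mem_support_iff] at hi
    exact mul_self_pos.2 hi

end

section

variable {R A : Type*} [Field R] [CommRing A] [Algebra R A] {ι : Type*}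

/-- the restriction of a polynomial to a line -/
noncomputable def line (g : MvPolynomial ι A) (s ρ : ι → R) : A[X] :=
  MvPolynomial.aeval (fun i => C (algebraMap R A (s i)) + X * C (algebraMap R A (ρ i))) g

theorem line_eval (g : MvPolynomial ι A) (s ρ : ι → R) (t : R) :
    (line g s ρ).eval (algebraMap R A t) =
      MvPolynomial.eval (fun i => algebraMap R A (s i + t * ρ i)) g := by
  rw [line]
  induction g using MvPolynomial.induction_on with
  | C a => simp
  | add p q hp hq => rw [map_add, eval_add, hp, hq, map_add]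
  | mul_X p i hp =>
    rw [map_mul, eval_mul, hp, map_mul]
    simp only [MvPolynomial.aeval_X, eval_add, eval_mul, eval_X, eval_C, MvPolynomial.eval_X,
      map_add, map_mul]

theorem line_coeff_zero (g : MvPolynomial ι A) (s ρ : ι → R) :
    (line g s ρ).coeff 0 = MvPolynomial.eval (fun i => algebraMap R A (s i)) g := by
  have := line_eval g s ρ 0
  rw [map_zero] at this
  rw [Polynomial.coeff_zero_eq_eval_zero, this]
  simp

end

section

variable {R A : Type*} [Field R] [LinearOrder R] [IsStrictOrderedRing R] [CommRing A]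
  [Algebra R A] {ι : Type*}

/-- the square norm of a polynomial map is a polynomial -/
theorem exists_normPoly (B : A →ₗ[R] A →ₗ[R] R) (g : MvPolynomial ι A) :
    ∃ F : MvPolynomial ι R, ∀ s : ι → R, MvPolynomial.eval s F =
      B (MvPolynomial.eval (fun i => algebraMap R A (s i)) g)
        (MvPolynomial.eval (fun i => algebraMap R A (s i)) g) := by
  refine ⟨∑ α ∈ g.support, ∑ β ∈ g.support,
    MvPolynomial.monomial (α + β) (B (g.coeff α) (g.coeff β)), fun s => ?_⟩
  have h : MvPolynomial.eval (fun i => algebraMap R A (s i)) g =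
      ∑ α ∈ g.support, (α.prod fun i e => s i ^ e) • g.coeff α := by
    rw [MvPolynomial.eval_eq]
    refine Finset.sum_congr rfl fun α _ => ?_
    rw [Algebra.smul_def, mul_comm, Finsupp.prod, map_prod]
    congr 1
    exact Finset.prod_congr rfl fun i _ => by rw [map_pow]
  rw [h]
  simp only [map_sum, LinearMap.sum_apply, map_smul, LinearMap.smul_apply, smul_eq_mul,
    MvPolynomial.eval_monomial]
  rw [Finset.sum_comm]
  refine Finset.sum_congr rfl fun β _ => ?_
  rw [Finset.mul_sum]
  refine Finset.sum_congr rfl fun α _ => ?_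
  rw [Finsupp.prod_add_index' (by simp) (by intros; rw [pow_add])]
  ring

/-- the square norm of a polynomial path, up to order two -/
theorem exists_normPath (B : A →ₗ[R] A →ₗ[R] R) (hB : ∀ x y, B x y = B y x) (G : A[X]) :
    ∃ Φ : R[X], (∀ t : R, Φ.eval t = B (G.eval (algebraMap R A t)) (G.eval (algebraMap R A t))) ∧
      Φ.coeff 0 = B (G.coeff 0) (G.coeff 0) ∧
      Φ.coeff 1 = 2 * B (G.coeff 0) (G.coeff 1) ∧
      Φ.coeff 2 = 2 * B (G.coeff 0) (G.coeff 2) + B (G.coeff 1) (G.coeff 1) := by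
  set S := Finset.range (G.natDegree + 3) with hS
  have hG : ∀ t : R, G.eval (algebraMap R A t) = ∑ a ∈ S, (t ^ a) • G.coeff a := by
    intro t
    rw [Polynomial.eval_eq_sum_range' (show G.natDegree < G.natDegree + 3 by omega)]
    refine Finset.sum_congr rfl fun a _ => ?_
    rw [Algebra.smul_def, map_pow, mul_comm]
  refine ⟨∑ a ∈ S, ∑ b ∈ S, C (B (G.coeff a) (G.coeff b)) * X ^ (a + b), fun t => ?_, ?_⟩
  · rw [hG]
    simp only [map_sum, LinearMap.sum_apply, map_smul, LinearMap.smul_apply, smul_eq_mul,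
      eval_finsetSum, eval_mul, eval_C, eval_pow, eval_X]
    rw [Finset.sum_comm]
    refine Finset.sum_congr rfl fun β _ => ?_
    rw [Finset.mul_sum]
    refine Finset.sum_congr rfl fun α _ => ?_
    rw [pow_add]
    ring
  · have hc : ∀ n : ℕ, (∑ a ∈ S, ∑ b ∈ S, C (B (G.coeff a) (G.coeff b)) * X ^ (a + b)).coeff n =
        ∑ a ∈ S, ∑ b ∈ S, if n = a + b then B (G.coeff a) (G.coeff b) else 0 := by
      intro n
      simp only [finsetSum_coeff, coeff_C_mul, coeff_X_pow, mul_ite, mul_one, mul_zero]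
    have hc' : ∀ n : ℕ, n < 3 →
        (∑ a ∈ S, ∑ b ∈ S, C (B (G.coeff a) (G.coeff b)) * X ^ (a + b)).coeff n =
        ∑ a ∈ Finset.range (n + 1), B (G.coeff a) (G.coeff (n - a)) := by
      intro n hn
      rw [hc]
      have h1 : Finset.range (n + 1) ⊆ S := by
        rw [hS]
        exact Finset.range_mono (by omega)
      rw [← Finset.sum_subset h1]
      · refine Finset.sum_congr rfl fun a ha => ?_
        rw [Finset.mem_range] at ha
        rw [Finset.sum_eq_single (n - a)]
        · rw [if_pos (by omega)]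
        · intro b _ hb
          rw [if_neg (by omega)]
        · intro h
          exact absurd (by rw [hS, Finset.mem_range]; omega) h
      · intro a _ ha
        rw [Finset.mem_range] at ha
        refine Finset.sum_eq_zero fun b _ => ?_
        rw [if_neg (by omega)]
    refine ⟨?_, ?_, ?_⟩
    · rw [hc' 0 (by norm_num)]
      simp
    · rw [hc' 1 (by norm_num)]
      simp only [Finset.sum_range_succ, Finset.sum_range_zero]
      rw [hB (G.coeff 1)]
      ring
    · rw [hc' 2 (by norm_num)]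
      simp only [Finset.sum_range_succ, Finset.sum_range_zero]
      rw [hB (G.coeff 2)]
      ring

theorem engine (hmin : SphereMin R) (hsc : Scaling R) [Fintype ι] [Nonempty ι] {J : Type*}
    [Fintype J] (w : ι → ℕ) (hw : ∀ i, 0 < w i) (g : J → MvPolynomial ι A) (d : J → ℕ)
    (hd : ∀ j, 0 < d j)
    (hg : ∀ (j : J) (c : R) (s : ι → R),
      MvPolynomial.eval (fun i => algebraMap R A (c ^ w i * s i)) (g j) =
        (c ^ d j) • MvPolynomial.eval (fun i => algebraMap R A (s i)) (g j))
    (H : ∀ s : ι → R, ∃ (q : ℕ) (ρ : Fin q → ι → R), (∃ k, ρ k ≠ 0) ∧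
      (∀ j k, (line (g j) s (ρ k)).coeff 1 = 0) ∧
      ∀ j, ∑ k, (line (g j) s (ρ k)).coeff 2 = 0) :
    ∃ s : ι → R, s ≠ 0 ∧ ∀ j, MvPolynomial.eval (fun i => algebraMap R A (s i)) (g j) = 0 := by
  classical
  obtain ⟨B, hB, hBpos⟩ := exists_form R A
  have hB0 : ∀ x, 0 ≤ B x x := fun x => by
    rcases eq_or_ne x 0 with rfl | hx
    · simp
    · exact (hBpos x hx).le
  choose F hF using fun j => exists_normPoly B (g j)
  set ev : J → (ι → R) → A := fun j s => MvPolynomial.eval (fun i => algebraMap R A (s i)) (g j)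
    with hev
  obtain ⟨s, hs, hsmin⟩ := hmin.fintype (∑ j, F j)
  have hNF : ∀ v, MvPolynomial.eval v (∑ j, F j) = ∑ j, B (ev j v) (ev j v) := by
    intro v
    rw [map_sum]
    exact Finset.sum_congr rfl fun j _ => hF j v
  simp only [hNF] at hsmin
  have hs0 : s ≠ 0 := by
    rintro rfl
    simp at hs
  set m := ∑ j, B (ev j s) (ev j s) with hm
  have hm0 : 0 ≤ m := Finset.sum_nonneg fun j _ => hB0 _
  rcases hm0.eq_or_lt with hm1 | hm1
  · refine ⟨s, hs0, fun j => ?_⟩
    by_contra hne
    have h1 : 0 < m := Finset.sum_pos' (fun j _ => hB0 _) ⟨j, Finset.mem_univ j, hBpos _ hne⟩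
    exact absurd h1 (by rw [← hm1]; exact lt_irrefl _)
  exfalso
  -- a bound for the weights
  obtain ⟨W, hW⟩ : ∃ W : ℕ, ∀ i, w i ≤ W + 1 :=
    ⟨Finset.univ.sup w, fun i => (Finset.le_sup (Finset.mem_univ i)).trans (Nat.le_succ _)⟩
  -- the growth of the norm
  have hgrow : ∀ v : ι → R, 1 ≤ ∑ i, v i ^ 2 →
      m ^ (W + 1) * ∑ i, v i ^ 2 ≤ (∑ j, B (ev j v) (ev j v)) ^ (W + 1) := by
    intro v hv
    obtain ⟨c, hc0, hc1, hc⟩ := hsc.fintype w hw v hv
    have h1 := hsmin (fun i => c ^ w i * v i) hc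
    have h2 : ∑ j, B (ev j fun i => c ^ w i * v i) (ev j fun i => c ^ w i * v i) ≤
        c ^ 2 * ∑ j, B (ev j v) (ev j v) := by
      rw [Finset.mul_sum]
      refine Finset.sum_le_sum fun j _ => ?_
      have h3 : ev j (fun i => c ^ w i * v i) = (c ^ d j) • ev j v := hg j c v
      have h3' : B (c ^ d j • ev j v) (c ^ d j • ev j v) = c ^ (d j + d j) * B (ev j v) (ev j v) := by
        simp only [map_smul, LinearMap.smul_apply, smul_eq_mul]
        rw [pow_add]
        ring
      rw [h3, h3']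
      refine mul_le_mul_of_nonneg_right ?_ (hB0 _)
      exact pow_le_pow_of_le_one hc0.le hc1 (by have := hd j; omega)
    have h4 : m ≤ c ^ 2 * ∑ j, B (ev j v) (ev j v) := h1.trans h2
    have h5 : m ^ (W + 1) ≤ (c ^ 2) ^ (W + 1) * (∑ j, B (ev j v) (ev j v)) ^ (W + 1) := by
      rw [← mul_pow]
      exact pow_le_pow_left₀ hm0 h4 _
    have h6 : (c ^ 2) ^ (W + 1) * ∑ i, v i ^ 2 ≤ 1 := by
      rw [← hc, Finset.mul_sum]
      refine Finset.sum_le_sum fun i _ => ?_
      rw [mul_pow, ← pow_mul, ← pow_mul]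
      refine mul_le_mul_of_nonneg_right ?_ (sq_nonneg _)
      exact pow_le_pow_of_le_one hc0.le hc1 (by have := hW i; nlinarith)
    have h7 : 0 ≤ (∑ j, B (ev j v) (ev j v)) ^ (W + 1) :=
      pow_nonneg (Finset.sum_nonneg fun j _ => hB0 _) _
    calc m ^ (W + 1) * ∑ i, v i ^ 2
        ≤ ((c ^ 2) ^ (W + 1) * (∑ j, B (ev j v) (ev j v)) ^ (W + 1)) * ∑ i, v i ^ 2 :=
          mul_le_mul_of_nonneg_right h5 (by linarith)
      _ = ((c ^ 2) ^ (W + 1) * ∑ i, v i ^ 2) * (∑ j, B (ev j v) (ev j v)) ^ (W + 1) := by ring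
      _ ≤ 1 * (∑ j, B (ev j v) (ev j v)) ^ (W + 1) := mul_le_mul_of_nonneg_right h6 h7
      _ = _ := one_mul _
  obtain ⟨q, ρ, ⟨k0, hk0⟩, hρ1, hρ2⟩ := H s
  -- second order condition in each direction
  have hdir : ∀ k : Fin q, m * ∑ i, ρ k i ^ 2 ≤
      (W + 1 : ℕ) * (2 * ∑ j, B (ev j s) ((line (g j) s (ρ k)).coeff 2)) := by
    intro k
    choose Φ hΦ hΦ0 hΦ1 hΦ2 using fun j => exists_normPath B hB (line (g j) s (ρ k))
    have h0 : (∑ j, Φ j).coeff 0 = m := by
      rw [finsetSum_coeff, hm]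
      refine Finset.sum_congr rfl fun j _ => ?_
      rw [hΦ0, line_coeff_zero]
    have h1 : (∑ j, Φ j).coeff 1 = 0 := by
      rw [finsetSum_coeff]
      refine Finset.sum_eq_zero fun j _ => ?_
      rw [hΦ1, hρ1]
      simp
    have h2 : (∑ j, Φ j).coeff 2 = 2 * ∑ j, B (ev j s) ((line (g j) s (ρ k)).coeff 2) := by
      rw [finsetSum_coeff, Finset.mul_sum]
      refine Finset.sum_congr rfl fun j _ => ?_
      rw [hΦ2, hρ1, line_coeff_zero]
      simp [hev]
    rw [← h2]
    refine second_order (∑ j, Φ j) m (∑ i, s i * ρ k i) (∑ i, ρ k i ^ 2) hm1 W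
      (Finset.sum_nonneg fun i _ => sq_nonneg _) h0 h1 fun t ht => ?_
    have h3 : ∑ i, (s i + t * ρ k i) ^ 2 =
        1 + 2 * (t * ∑ i, s i * ρ k i) + t ^ 2 * ∑ i, ρ k i ^ 2 := by
      rw [← hs, Finset.mul_sum, Finset.mul_sum, Finset.mul_sum, ← Finset.sum_add_distrib,
        ← Finset.sum_add_distrib]
      exact Finset.sum_congr rfl fun i _ => by ring
    have h4 := hgrow (fun i => s i + t * ρ k i) (by rw [h3]; exact ht)
    rw [h3] at h4
    refine h4.trans (le_of_eq ?_)
    congr 1
    rw [eval_finsetSum]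
    refine Finset.sum_congr rfl fun j _ => ?_
    rw [hΦ, line_eval]
  have hsum : ∑ k, (m * ∑ i, ρ k i ^ 2) ≤ 0 := by
    refine (Finset.sum_le_sum fun k _ => hdir k).trans (le_of_eq ?_)
    rw [← Finset.mul_sum, ← Finset.mul_sum, Finset.sum_comm]
    have : ∀ j, ∑ k, B (ev j s) ((line (g j) s (ρ k)).coeff 2) = 0 := by
      intro j
      rw [← map_sum, hρ2, map_zero]
    simp [this]
  have hpos : 0 < ∑ k, (m * ∑ i, ρ k i ^ 2) := by
    refine Finset.sum_pos' (fun k _ => mul_nonneg hm0 (Finset.sum_nonneg fun i _ => sq_nonneg _))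
      ⟨k0, Finset.mem_univ k0, mul_pos hm1 ?_⟩
    obtain ⟨i, hi⟩ : ∃ i, ρ k0 i ≠ 0 := by
      by_contra hcon
      push Not at hcon
      exact hk0 (funext hcon)
    exact Finset.sum_pos' (fun i _ => sq_nonneg _) ⟨i, Finset.mem_univ i, by positivity⟩
  exact absurd hsum (not_le.2 hpos)

end

end Pool.Agent.Helper716_Lang
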