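import Pool.Agent.Helper716_Lang.Assemble

/-!
# Existence of the filtration
-/

set_option autoImplicit false

namespace Pool.Agent.Helper716_Lang

section count

variable (R : Type*) [Field R] (n : ℕ)

theorem finrank_restrictDegree (k : ℕ) :
    Module.finrank R (MvPolynomial.restrictDegree (Fin n) R k) = (k + 1) ^ n := by
  have b := MvPolynomial.basisRestrictSupport R {α : Fin n →₀ ℕ | ∀ i, α i ≤ k}
  have h1 : Module.finrank R (MvPolynomial.restrictDegree (Fin n) R k) =
      Nat.card {α : Fin n →₀ ℕ | ∀ i, α i ≤ k} := Module.finrank_eq_nat_card_basis b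
  rw [h1]
  let e : {α : Fin n →₀ ℕ | ∀ i, α i ≤ k} ≃ (Fin n → Fin (k + 1)) :=
    { toFun := fun α i => ⟨α.1 i, Nat.lt_succ_of_le (α.2 i)⟩
      invFun := fun f => ⟨Finsupp.equivFunOnFinite.symm fun i => (f i : ℕ),
        fun i => Nat.le_of_lt_succ (f i).2⟩
      left_inv := fun α => by
        apply Subtype.ext
        ext i
        rfl
      right_inv := fun f => by
        funext i
        rfl }
  rw [Nat.card_congr e]
  simp

variable {R n}

theorem restrictDegree_mono {k l : ℕ} (h : k ≤ l) :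
    MvPolynomial.restrictDegree (Fin n) R k ≤ MvPolynomial.restrictDegree (Fin n) R l := by
  intro p hp
  rw [MvPolynomial.mem_restrictDegree] at hp ⊢
  exact fun s hs i => (hp s hs i).trans h

theorem restrictDegree_mul {k l : ℕ} {p q : MvPolynomial (Fin n) R}
    (hp : p ∈ MvPolynomial.restrictDegree (Fin n) R k)
    (hq : q ∈ MvPolynomial.restrictDegree (Fin n) R l) :
    p * q ∈ MvPolynomial.restrictDegree (Fin n) R (k + l) := by
  classical
  rw [MvPolynomial.mem_restrictDegree] at hp hq ⊢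
  intro s hs i
  have h1 := MvPolynomial.support_mul p q hs
  rw [Finset.mem_add] at h1
  obtain ⟨a, ha, b, hb, rfl⟩ := h1
  rw [Finsupp.add_apply]
  exact add_le_add (hp a ha i) (hq b hb i)

theorem exists_restrictDegree (p : MvPolynomial (Fin n) R) :
    ∃ k, p ∈ MvPolynomial.restrictDegree (Fin n) R k := by
  refine ⟨p.totalDegree, ?_⟩
  exact MvPolynomial.restrictTotalDegree_le_restrictDegree (Fin n) R _
    ((MvPolynomial.mem_restrictTotalDegree (Fin n) _ _).2 le_rfl)

end count

section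

variable {R K : Type*} [Field R] [Field K] [Algebra R K] {n D : ℕ}

/-- linear combinations of the `ω` with polynomial coefficients -/
noncomputable def comb (φ : MvPolynomial (Fin n) R →ₐ[R] K) (ω : Fin D → K) :
    (Fin D → MvPolynomial (Fin n) R) →ₗ[R] K :=
  { toFun := fun a => ∑ l, φ (a l) * ω l
    map_add' := fun a b => by
      simp only [Pi.add_apply, map_add, add_mul, Finset.sum_add_distrib]
    map_smul' := fun r a => by
      simp only [Pi.smul_apply, map_smul, smul_mul_assoc, RingHom.id_apply, Finset.smul_sum] }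

theorem comb_apply (φ : MvPolynomial (Fin n) R →ₐ[R] K) (ω : Fin D → K)
    (a : Fin D → MvPolynomial (Fin n) R) : comb φ ω a = ∑ l, φ (a l) * ω l := rfl

/-- the levels of the filtration -/
noncomputable def level (φ : MvPolynomial (Fin n) R →ₐ[R] K) (ω : Fin D → K) (k : ℕ) :
    Submodule R K :=
  LinearMap.range ((comb φ ω).comp
    (LinearMap.pi fun l => (MvPolynomial.restrictDegree (Fin n) R k).subtype.comp
      (LinearMap.proj l)) : (Fin D → MvPolynomial.restrictDegree (Fin n) R k) →ₗ[R] K)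

theorem mem_level (φ : MvPolynomial (Fin n) R →ₐ[R] K) (ω : Fin D → K) (k : ℕ) (y : K) :
    y ∈ level φ ω k ↔ ∃ a : Fin D → MvPolynomial (Fin n) R,
      (∀ l, a l ∈ MvPolynomial.restrictDegree (Fin n) R k) ∧ y = ∑ l, φ (a l) * ω l := by
  rw [level, LinearMap.mem_range]
  constructor
  · rintro ⟨a, rfl⟩
    exact ⟨fun l => (a l : MvPolynomial (Fin n) R), fun l => (a l).2, rfl⟩
  · rintro ⟨a, ha, rfl⟩
    exact ⟨fun l => ⟨a l, ha l⟩, rfl⟩

theorem filt_of_order (φ : MvPolynomial (Fin n) R →ₐ[R] K) (ω : Fin D → K) (hD : 0 < D)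
    (hω : ∀ a : Fin D → MvPolynomial (Fin n) R, ∑ l, φ (a l) * ω l = 0 → a = 0)
    (hmul : ∀ i j, ∃ γ : Fin D → MvPolynomial (Fin n) R, ω i * ω j = ∑ l, φ (γ l) * ω l)
    (S : Finset K)
    (hS : ∀ s ∈ S, ∃ γ : Fin D → MvPolynomial (Fin n) R, s = ∑ l, φ (γ l) * ω l) :
    ∃ Fl : Filt R K n, ∀ s ∈ S, s ∈ Fl.A Fl.c := by
  classical
  choose γ hγ using hmul
  have hS' : ∀ s : K, ∃ δ : Fin D → MvPolynomial (Fin n) R, s ∈ S → s = ∑ l, φ (δ l) * ω l := by
    intro s
    by_cases hs : s ∈ S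
    · obtain ⟨δ, hδ⟩ := hS s hs
      exact ⟨δ, fun _ => hδ⟩
    · exact ⟨0, fun h => absurd h hs⟩
  choose δ hδ using hS'
  choose deg hdeg using exists_restrictDegree (R := R) (n := n)
  -- a bound for all degrees
  let c1 : ℕ := Finset.univ.sup fun x : Fin D × Fin D × Fin D => deg (γ x.1 x.2.1 x.2.2)
  let c2 : ℕ := S.sup fun s => Finset.univ.sup fun l => deg (δ s l)
  let c := max c1 c2
  have hc1 : ∀ i j l, γ i j l ∈ MvPolynomial.restrictDegree (Fin n) R c := by
    intro i j l
    refine restrictDegree_mono ?_ (hdeg _)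
    exact (Finset.le_sup (f := fun x : Fin D × Fin D × Fin D => deg (γ x.1 x.2.1 x.2.2))
      (Finset.mem_univ (i, j, l))).trans (le_max_left _ _)
  have hc2 : ∀ s ∈ S, ∀ l, δ s l ∈ MvPolynomial.restrictDegree (Fin n) R c := by
    intro s hs l
    refine restrictDegree_mono ?_ (hdeg _)
    refine le_trans ?_ (le_max_right _ _)
    refine le_trans ?_ (Finset.le_sup (f := fun s => Finset.univ.sup fun l => deg (δ s l)) hs)
    exact Finset.le_sup (f := fun l => deg (δ s l)) (Finset.mem_univ l)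
  refine ⟨{ A := level φ ω, c := c, D := D, hD := hD, fin := ?_, rank := ?_, mono := ?_,
            mul := ?_ }, ?_⟩
  · intro k
    rw [level]
    infer_instance
  · intro k
    rw [level, LinearMap.finrank_range_of_inj]
    · rw [Module.finrank_pi_fintype]
      simp [finrank_restrictDegree]
    · rw [← LinearMap.ker_eq_bot, LinearMap.ker_eq_bot']
      intro a ha
      have h1 := hω (fun l => (a l : MvPolynomial (Fin n) R)) ha
      funext l
      exact Subtype.ext (congrFun h1 l)
  · intro k l hkl y hy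
    rw [mem_level] at hy ⊢
    obtain ⟨a, ha, rfl⟩ := hy
    exact ⟨a, fun i => restrictDegree_mono hkl (ha i), rfl⟩
  · intro k l x y hx hy
    rw [mem_level] at hx hy ⊢
    obtain ⟨a, ha, rfl⟩ := hx
    obtain ⟨b, hb, rfl⟩ := hy
    refine ⟨fun m => ∑ i, ∑ j, a i * b j * γ i j m, fun m => ?_, ?_⟩
    · refine Submodule.sum_mem _ fun i _ => Submodule.sum_mem _ fun j _ => ?_
      exact restrictDegree_mul (restrictDegree_mul (ha i) (hb j)) (hc1 i j m)
    · rw [Finset.sum_mul_sum]
      have h1 : ∀ i j, φ (a i) * ω i * (φ (b j) * ω j) =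
          ∑ m, φ (a i) * φ (b j) * φ (γ i j m) * ω m := by
        intro i j
        have : φ (a i) * ω i * (φ (b j) * ω j) = φ (a i) * φ (b j) * (ω i * ω j) := by ring
        rw [this, hγ, Finset.mul_sum]
        exact Finset.sum_congr rfl fun m _ => by ring
      simp only [h1, map_sum, map_mul, Finset.sum_mul]
      rw [eq_comm, Finset.sum_comm]
      refine Finset.sum_congr rfl fun i _ => ?_
      rw [Finset.sum_comm]
  · intro s hs
    rw [mem_level]
    exact ⟨δ s, hc2 s hs, hδ s hs⟩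

end

section

theorem common_den {P ι : Type*} [CommRing P] [IsDomain P] (Q : P → ι → Prop)
    (hQ : ∀ p q t, Q p t → Q (q * p) t) (T : Finset ι) (h : ∀ t ∈ T, ∃ p, p ≠ 0 ∧ Q p t) :
    ∃ p, p ≠ 0 ∧ ∀ t ∈ T, Q p t := by
  classical
  induction T using Finset.induction_on with
  | empty => exact ⟨1, one_ne_zero, by simp⟩
  | insert a T _ ih =>
    obtain ⟨p, hp, hpT⟩ := ih fun t ht => h t (Finset.mem_insert_of_mem ht)
    obtain ⟨q, hq, hqa⟩ := h a (Finset.mem_insert_self _ _)
    refine ⟨p * q, mul_ne_zero hp hq, fun t ht => ?_⟩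
    rcases Finset.mem_insert.1 ht with rfl | ht
    · exact hQ q p _ hqa
    · rw [mul_comm]
      exact hQ p q _ (hpT t ht)

variable {R K : Type*} [Field R] [Field K] [Algebra R K] {n : ℕ}

theorem exists_filt {x : Fin n → K} (hx : IsTranscendenceBasis R x) (S : Finset K) :
    ∃ (Fl : Filt R K n) (b : K), b ≠ 0 ∧ ∀ s ∈ S, b * s ∈ Fl.A Fl.c := by
  classical
  let L := IntermediateField.adjoin R (Set.range x)
  have halg : Algebra.IsAlgebraic L K := hx.isAlgebraic_field
  let E := IntermediateField.adjoin L (S : Set K)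
  have hfin : FiniteDimensional L E := IntermediateField.finiteDimensional_adjoin
    (fun y _ => (Algebra.IsAlgebraic.isAlgebraic y).isIntegral)
  let D := Module.finrank L E
  have hD : 0 < D := Module.finrank_pos
  let bas : Module.Basis (Fin D) L E := Module.finBasis L E
  let φ : MvPolynomial (Fin n) R →ₐ[R] K := MvPolynomial.aeval x
  have hφ : Function.Injective φ := hx.1
  have hφ0 : ∀ p, p ≠ 0 → φ p ≠ 0 := fun p hp h => hp (hφ (by rw [h, map_zero]))
  have hφL : ∀ p, φ p ∈ L := by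
    intro p
    rw [IntermediateField.mem_adjoin_range_iff]
    exact ⟨p, 1, by simp [φ]⟩
  let ω0 : Fin D → K := fun l => (bas l : K)
  -- denominators in `L`
  have hden0 : ∀ u ∈ L, ∃ p, p ≠ 0 ∧ ∃ a, φ p * u = φ a := by
    intro u hu
    rw [IntermediateField.mem_adjoin_range_iff] at hu
    obtain ⟨r, s, rfl⟩ := hu
    by_cases hs : s = 0
    · exact ⟨1, one_ne_zero, 0, by simp [hs]⟩
    · refine ⟨s, hs, r, ?_⟩
      have h1 : φ s ≠ 0 := hφ0 s hs
      show φ s * (φ r / φ s) = φ r
      field_simp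
  -- denominators in `E`
  have hden1 : ∀ y ∈ E, ∃ p, p ≠ 0 ∧ ∃ a : Fin D → MvPolynomial (Fin n) R,
      φ p * y = ∑ l, φ (a l) * ω0 l := by
    intro y hy
    obtain ⟨p, hp, hp2⟩ := common_den
      (fun (p : MvPolynomial (Fin n) R) (l : Fin D) =>
        ∃ a, φ p * ((bas.repr ⟨y, hy⟩ l : L) : K) = φ a)
      (by
        rintro p q l ⟨a, ha⟩
        exact ⟨q * a, by rw [map_mul, map_mul, ← ha]; ring⟩) Finset.univ
      (fun l _ => hden0 _ (bas.repr ⟨y, hy⟩ l).2)
    choose a ha using fun l => hp2 l (Finset.mem_univ l)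
    refine ⟨p, hp, a, ?_⟩
    have h1 : y = ∑ l, ((bas.repr ⟨y, hy⟩ l : L) : K) * ω0 l := by
      have h2 := congrArg (fun e : E => (e : K)) (bas.sum_repr ⟨y, hy⟩)
      simp only at h2
      rw [AddSubmonoidClass.coe_finsetSum] at h2
      exact h2.symm
    conv_lhs => rw [h1]
    rw [Finset.mul_sum]
    exact Finset.sum_congr rfl fun l _ => by rw [← ha]; ring
  -- a common denominator
  let T : Finset K := S ∪ (Finset.univ.image fun x : Fin D × Fin D => ω0 x.1 * ω0 x.2)
  have hTE : ∀ y ∈ T, y ∈ E := by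
    intro y hy
    rcases Finset.mem_union.1 hy with h | h
    · exact IntermediateField.subset_adjoin L _ h
    · obtain ⟨z, _, rfl⟩ := Finset.mem_image.1 h
      exact E.mul_mem (bas z.1).2 (bas z.2).2
  obtain ⟨p, hp, hpT⟩ := common_den
    (fun (p : MvPolynomial (Fin n) R) (y : K) => ∃ a : Fin D → MvPolynomial (Fin n) R,
      φ p * y = ∑ l, φ (a l) * ω0 l)
    (by
      rintro p q l ⟨a, ha⟩
      refine ⟨fun l => q * a l, ?_⟩
      rw [map_mul, mul_assoc, ha, Finset.mul_sum]
      exact Finset.sum_congr rfl fun l _ => by rw [map_mul]; ring) T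
    (fun y hy => hden1 y (hTE y hy))
  have hp0 : φ p ≠ 0 := hφ0 p hp
  suffices hmain : ∃ Fl : Filt R K n, ∀ s ∈ S.image (fun s => φ p * φ p * s), s ∈ Fl.A Fl.c by
    obtain ⟨Fl, hFl⟩ := hmain
    exact ⟨Fl, φ p * φ p, mul_ne_zero hp0 hp0, fun s hs => hFl _ (Finset.mem_image_of_mem _ hs)⟩
  refine filt_of_order φ (fun l => φ p * ω0 l) hD ?_ ?_ (S.image fun s => φ p * φ p * s) ?_
  · intro a ha
    have h1 : φ p * ∑ l, φ (a l) * ω0 l = 0 := by
      rw [← ha, Finset.mul_sum]
      exact Finset.sum_congr rfl fun l _ => by ring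
    have h2 : ∑ l, φ (a l) * ω0 l = 0 := (mul_eq_zero.1 h1).resolve_left hp0
    have h3 : ∑ l, (⟨φ (a l), hφL _⟩ : L) • bas l = 0 := by
      apply Subtype.ext
      rw [AddSubmonoidClass.coe_finsetSum]
      exact h2
    have h4 := Fintype.linearIndependent_iff.1 bas.linearIndependent _ h3
    funext l
    have h5 := congrArg (fun e : L => (e : K)) (h4 l)
    by_contra h6
    exact hφ0 _ h6 h5
  · intro i j
    obtain ⟨a, ha⟩ := hpT (ω0 i * ω0 j) (Finset.mem_union_right _
      (Finset.mem_image.2 ⟨(i, j), Finset.mem_univ _, rfl⟩))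
    refine ⟨a, ?_⟩
    have : φ p * ω0 i * (φ p * ω0 j) = φ p * (φ p * (ω0 i * ω0 j)) := by ring
    rw [this, ha, Finset.mul_sum]
    exact Finset.sum_congr rfl fun l _ => by ring
  · intro s hs
    obtain ⟨t, ht, rfl⟩ := Finset.mem_image.1 hs
    obtain ⟨a, ha⟩ := hpT t (Finset.mem_union_left _ ht)
    refine ⟨a, ?_⟩
    rw [mul_assoc, ha, Finset.mul_sum]
    exact Finset.sum_congr rfl fun l _ => by ring

end

end Pool.Agent.Helper716_Lang
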