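import Pool.Agent.Helper716_Lang.Engine

/-!
# Restriction of a polynomial to a line of `K ^ N`
-/

set_option autoImplicit false

namespace Pool.Agent.Helper716_Lang

open Polynomial

section

variable {K : Type*} [CommRing K] {σ : Type*}

/-- the restriction of `f` to the line through `a` in direction `z` -/
noncomputable def kline (f : MvPolynomial σ K) (a z : σ → K) : K[X] :=
  MvPolynomial.aeval (fun i => C (a i) + X * C (z i)) f

theorem kline_coeff_zero (f : MvPolynomial σ K) (a z : σ → K) :
    (kline f a z).coeff 0 = MvPolynomial.eval a f := by
  rw [kline]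
  induction f using MvPolynomial.induction_on with
  | C a => simp
  | add p q hp hq => rw [map_add, coeff_add, hp, hq, map_add]
  | mul_X p i hp =>
    rw [map_mul, mul_coeff_zero, hp, map_mul]
    simp

theorem kline_coeff_one [Fintype σ] (f : MvPolynomial σ K) (a z : σ → K) :
    (kline f a z).coeff 1 = ∑ i, MvPolynomial.eval a (MvPolynomial.pderiv i f) * z i := by
  classical
  induction f using MvPolynomial.induction_on with
  | C a => simp [kline, Polynomial.algebraMap_apply, Polynomial.coeff_C]
  | add p q hp hq =>
    have : kline (p + q) a z = kline p a z + kline q a z := by simp [kline]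
    rw [this, coeff_add, hp, hq, ← Finset.sum_add_distrib]
    exact Finset.sum_congr rfl fun i _ => by rw [map_add, map_add, add_mul]
  | mul_X p l hp =>
    have h1 : kline (p * MvPolynomial.X l) a z = kline p a z * (C (a l) + X * C (z l)) := by
      simp [kline]
    have h2 : (kline p a z * (C (a l) + X * C (z l))).coeff 1 =
        (kline p a z).coeff 1 * a l + (kline p a z).coeff 0 * z l := by
      rw [mul_add, coeff_add, coeff_mul_C, show X * C (z l) = C (z l) * X by ring, ← mul_assoc,
        coeff_mul_X, coeff_mul_C]
    rw [h1, h2, hp, kline_coeff_zero]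
    have h3 : ∀ i, MvPolynomial.eval a (MvPolynomial.pderiv i (p * MvPolynomial.X l)) * z i =
        MvPolynomial.eval a (MvPolynomial.pderiv i p) * z i * a l +
          (if i = l then MvPolynomial.eval a p * z i else 0) := by
      intro i
      rw [Derivation.leibniz, MvPolynomial.pderiv_X, map_add]
      by_cases hil : i = l
      · subst hil
        simp
        ring
      · simp [hil, Pi.single_apply, Ne.symm hil]
        ring
    simp only [h3]
    rw [Finset.sum_add_distrib, ← Finset.sum_mul]
    simp

theorem kline_smul (f : MvPolynomial σ K) (a z : σ → K) (h : K) :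
    kline f a (fun i => h * z i) = (kline f a z).comp (C h * X) := by
  rw [kline, kline]
  induction f using MvPolynomial.induction_on with
  | C a => simp [Polynomial.algebraMap_apply]
  | add p q hp hq => rw [map_add, map_add, add_comp, hp, hq]
  | mul_X p i hp =>
    rw [map_mul, map_mul, mul_comp, hp]
    congr 1
    simp
    ring

theorem kline_smul_coeff (f : MvPolynomial σ K) (a z : σ → K) (h : K) (n : ℕ) :
    (kline f a (fun i => h * z i)).coeff n = (kline f a z).coeff n * h ^ n := by
  rw [kline_smul, comp_C_mul_X_coeff]

end

section

variable {R K : Type*} [Field R] [CommRing K] [Algebra R K] {σ ι : Type*}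

/-- composition with a linear map, given by its matrix -/
theorem line_compose [Fintype ι] (f : MvPolynomial σ K) (E : σ → ι → K) (s ρ : ι → R) :
    line (MvPolynomial.aeval (fun i => ∑ m, MvPolynomial.C (E i m) * MvPolynomial.X m) f :
      MvPolynomial ι K) s ρ =
    kline f (fun i => ∑ m, (s m) • E i m) (fun i => ∑ m, (ρ m) • E i m) := by
  rw [line, kline]
  induction f using MvPolynomial.induction_on with
  | C a => simp
  | add p q hp hq => rw [map_add, map_add, map_add, hp, hq]
  | mul_X p i hp =>
    rw [map_mul, map_mul, map_mul, hp]
    congr 1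
    simp only [MvPolynomial.aeval_X, map_sum, map_mul, MvPolynomial.algHom_C,
      Polynomial.algebraMap_apply, Algebra.algebraMap_self, RingHom.id_apply]
    rw [Finset.mul_sum, ← Finset.sum_add_distrib]
    refine Finset.sum_congr rfl fun m _ => ?_
    rw [Algebra.smul_def, Algebra.smul_def, map_mul, map_mul]
    ring

theorem eval_compose [Fintype ι] (f : MvPolynomial σ K) (E : σ → ι → K) (s : ι → R) :
    MvPolynomial.eval (fun m => algebraMap R K (s m))
      (MvPolynomial.aeval (fun i => ∑ m, MvPolynomial.C (E i m) * MvPolynomial.X m) f :
        MvPolynomial ι K) = MvPolynomial.eval (fun i => ∑ m, (s m) • E i m) f := by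
  have := line_coeff_zero (MvPolynomial.aeval
    (fun i => ∑ m, MvPolynomial.C (E i m) * MvPolynomial.X m) f : MvPolynomial ι K) s s
  rw [← this, line_compose, kline_coeff_zero]

end

end Pool.Agent.Helper716_Lang
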