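import Pool.Agent.Helper716_Lang.KLine

/-!
# The descent engine on a space of vectors given by a matrix
-/

set_option autoImplicit false

namespace Pool.Agent.Helper716_Lang

open Polynomial

section

variable {R A : Type*} [Field R] [LinearOrder R] [IsStrictOrderedRing R] [CommRing A] [Algebra R A]

/-- The engine for the vectors `∑ m, s m • E i m`. -/
theorem engine_lin (hmin : SphereMin R) (hsc : Scaling R) {ι I J : Type*} [Fintype ι] [Nonempty ι]
    [Fintype J] (E : I → ι → A) (w : ι → ℕ) (hw : ∀ m, 0 < w m) (f : J → MvPolynomial I A)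
    (d : J → ℕ) (hd : ∀ j, 0 < d j)
    (hscale : ∀ (j : J) (c : R) (s : ι → R),
      MvPolynomial.eval (fun i => ∑ m, (c ^ w m * s m) • E i m) (f j) =
        (c ^ d j) • MvPolynomial.eval (fun i => ∑ m, s m • E i m) (f j))
    (H : ∀ s : ι → R, ∃ (q : ℕ) (ρ : Fin q → ι → R), (∃ l, ρ l ≠ 0) ∧
      (∀ j l, (kline (f j) (fun i => ∑ m, s m • E i m)
        (fun i => ∑ m, ρ l m • E i m)).coeff 1 = 0) ∧
      ∀ j, ∑ l, (kline (f j) (fun i => ∑ m, s m • E i m)
        (fun i => ∑ m, ρ l m • E i m)).coeff 2 = 0) :
    ∃ s : ι → R, s ≠ 0 ∧ ∀ j, MvPolynomial.eval (fun i => ∑ m, s m • E i m) (f j) = 0 := by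
  obtain ⟨s, hs0, hs⟩ := engine (R := R) (A := A) hmin hsc (ι := ι) w hw
    (fun j => MvPolynomial.aeval (fun i => ∑ m, MvPolynomial.C (E i m) * MvPolynomial.X m) (f j))
    d hd
    (fun j c s => by rw [eval_compose, eval_compose]; exact hscale j c s)
    (fun s => by
      obtain ⟨q, ρ, h0, h1, h2⟩ := H s
      refine ⟨q, ρ, h0, fun j l => ?_, fun j => ?_⟩
      · rw [line_compose]
        exact h1 j l
      · simp only [line_compose]
        exact h2 j)
  refine ⟨s, hs0, fun j => ?_⟩
  rw [← eval_compose]
  exact hs j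

end

section

variable {A : Type*} [CommRing A] {σ : Type*} [Fintype σ]

theorem kline_coeff_two_mul_X (f : MvPolynomial σ A) (l : σ) (a z : σ → A) :
    (kline (f * MvPolynomial.X l) a z).coeff 2 =
      (kline f a z).coeff 2 * a l + (kline f a z).coeff 1 * z l := by
  have h1 : kline (f * MvPolynomial.X l) a z = kline f a z * (C (a l) + X * C (z l)) := by
    simp [kline]
  rw [h1, mul_add, coeff_add, coeff_mul_C, show X * C (z l) = C (z l) * X by ring, ← mul_assoc,
    coeff_mul_X, coeff_mul_C]

/-- If the products of coordinates of the directions add up to zero, the second order terms do. -/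
theorem sum_coeff_two {q : ℕ} (r : Fin q → σ → A) (hr : ∀ i k, ∑ l, r l i * r l k = 0)
    (f : MvPolynomial σ A) (a : σ → A) : ∑ l, (kline f a (r l)).coeff 2 = 0 := by
  induction f using MvPolynomial.induction_on with
  | C c => simp [kline, coeff_C]
  | add p p' hp hp' =>
    have : ∀ l, (kline (p + p') a (r l)).coeff 2 =
        (kline p a (r l)).coeff 2 + (kline p' a (r l)).coeff 2 := fun l => by simp [kline]
    simp only [this]
    rw [Finset.sum_add_distrib, hp, hp', add_zero]
  | mul_X p k hp =>
    simp only [kline_coeff_two_mul_X, kline_coeff_one]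
    rw [Finset.sum_add_distrib, ← Finset.sum_mul, hp, zero_mul, zero_add]
    simp only [Finset.sum_mul]
    rw [Finset.sum_comm]
    refine Finset.sum_eq_zero fun i _ => ?_
    have : ∀ l, MvPolynomial.eval a (MvPolynomial.pderiv i p) * r l i * r l k =
        MvPolynomial.eval a (MvPolynomial.pderiv i p) * (r l i * r l k) := fun l => by ring
    simp only [this]
    rw [← Finset.mul_sum, hr, mul_zero]

end

end Pool.Agent.Helper716_Lang
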