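import Pool.Agent.Helper716_Lang.Ternary

/-!
# Maps from the conic without real points to a variety without real points are not constant
-/

set_option autoImplicit false

namespace Pool.Agent.Helper716_Lang

open MvPolynomial

/-- weighted homogeneity in terms of values -/
theorem aeval_weighted {I : Type*} (w : I → ℕ) (g : MvPolynomial I ℝ) (e : ℕ)
    (hg : g.IsWeightedHomogeneous w e) (t : ℂ) (c : I → ℂ) :
    aeval (fun i => t ^ w i * c i) g = t ^ e * aeval c g := by
  rw [aeval_def, aeval_def, eval₂_eq, eval₂_eq, Finset.mul_sum]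
  refine Finset.sum_congr rfl fun α hα => ?_
  have h1 : Finsupp.weight w α = e := hg (mem_support_iff.1 hα)
  have h3 : t ^ e = ∏ i ∈ α.support, (t ^ w i) ^ α i := by
    rw [← h1, Finsupp.weight_apply, Finsupp.sum, ← Finset.prod_pow_eq_pow_sum]
    refine Finset.prod_congr rfl fun i _ => ?_
    rw [← pow_mul, smul_eq_mul, mul_comm]
  rw [h3]
  simp only [mul_pow, Finset.prod_mul_distrib]
  ring

theorem aeval_conj {I : Type*} (g : MvPolynomial I ℝ) (c : I → ℂ) :
    aeval (fun i => (starRingEnd ℂ) (c i)) g = (starRingEnd ℂ) (aeval c g) := by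
  have h1 := congrArg (fun φ : MvPolynomial I ℝ →ₐ[ℝ] ℂ => φ g)
    (MvPolynomial.comp_aeval c (Complex.conjAe : ℂ →ₐ[ℝ] ℂ))
  exact h1.symm

/-- a real polynomial at a vector of real numbers -/
theorem aeval_ofReal {I : Type*} (g : MvPolynomial I ℝ) (a : I → ℝ) :
    aeval (fun i => ((a i : ℝ) : ℂ)) g = ((MvPolynomial.eval a g : ℝ) : ℂ) := by
  have h1 : (fun i => ((a i : ℝ) : ℂ)) = algebraMap ℝ ℂ ∘ a := rfl
  rw [h1, MvPolynomial.aeval_algebraMap_apply]
  rfl

/-- A system of real weighted homogeneous equations with no real zero has no zero that is fixed by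
complex conjugation up to the weighted action. -/
theorem no_real_orbit {I J : Type*} (w : I → ℕ) (hw : ∀ i, 0 < w i) (d : J → ℕ)
    (f : J → MvPolynomial I ℝ) (hf : ∀ j, (f j).IsWeightedHomogeneous w (d j))
    (hno : ∀ a : I → ℝ, (∀ j, MvPolynomial.eval a (f j) = 0) → a = 0) (c : I → ℂ)
    (hc : ∀ j, aeval c (f j) = 0) (μ : ℂ) (hμ : ∀ i, (starRingEnd ℂ) (c i) = μ ^ w i * c i) :
    c = 0 := by
  by_contra hne
  obtain ⟨i, hi⟩ : ∃ i, c i ≠ 0 := by
    by_contra hcon
    push Not at hcon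
    exact hne (funext hcon)
  -- `μ` has absolute value one
  have h1 : ‖μ‖ = 1 := by
    have h2 := congrArg norm (hμ i)
    rw [norm_mul, norm_pow, Complex.norm_conj] at h2
    have h3 : ‖c i‖ ≠ 0 := by simpa using hi
    have h4 : ‖μ‖ ^ w i = 1 := by
      have h5 : (‖μ‖ ^ w i - 1) * ‖c i‖ = 0 := by linear_combination -h2
      have := (mul_eq_zero.1 h5).resolve_right h3
      linarith
    exact (pow_eq_one_iff_of_nonneg (norm_nonneg _) (hw i).ne').1 h4
  obtain ⟨ν, hν⟩ := IsAlgClosed.exists_pow_nat_eq μ (n := 2) (by norm_num)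
  have hν1 : ‖ν‖ = 1 := by
    have h2 := congrArg norm hν
    rw [norm_pow, h1] at h2
    exact (pow_eq_one_iff_of_nonneg (norm_nonneg _) two_ne_zero).1 h2
  have hνν : (starRingEnd ℂ) ν * ν = 1 := by
    rw [mul_comm, Complex.mul_conj, Complex.normSq_eq_norm_sq, hν1]
    norm_num
  have hreal : ∀ l, (starRingEnd ℂ) (ν ^ w l * c l) = ν ^ w l * c l := by
    intro l
    rw [map_mul, map_pow, hμ l, ← hν]
    have h2 : ((starRingEnd ℂ) ν) ^ w l * ((ν ^ 2) ^ w l * c l) =
        (((starRingEnd ℂ) ν) * ν) ^ w l * (ν ^ w l * c l) := by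
      rw [mul_pow, ← pow_mul, two_mul, pow_add]
      ring
    rw [h2, hνν, one_pow, one_mul]
  choose a ha using fun l => Complex.conj_eq_iff_real.1 (hreal l)
  have ha0 : a = 0 := by
    refine hno a fun j => ?_
    have h2 : aeval (fun l => ((a l : ℝ) : ℂ)) (f j) = 0 := by
      have h3 : (fun l => ((a l : ℝ) : ℂ)) = fun l => ν ^ w l * c l := funext fun l => (ha l).symm
      rw [h3, aeval_weighted w (f j) (d j) (hf j), hc j, mul_zero]
    rw [aeval_ofReal] at h2
    exact_mod_cast h2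
  have h2 : ν ^ w i * c i = 0 := by rw [ha i, ha0]; simp
  have hν0 : ν ≠ 0 := by
    rintro rfl
    simp at hν1
  exact (mul_ne_zero (pow_ne_zero _ hν0) hi) h2

/-- a real ternary polynomial not divisible by the conic has a complex non-zero on the conic -/
theorem exists_point (s : MvPolynomial (Fin 3) ℝ) (hs : ¬ conicEq ∣ s) :
    ∃ p : Fin 3 → ℂ, p 0 ^ 2 + p 1 ^ 2 + p 2 ^ 2 = 0 ∧ aeval p s ≠ 0 := by
  have h1 : par s ≠ 0 := fun h => hs ((par_eq_zero_iff s).1 h)
  obtain ⟨v, hv⟩ : ∃ v : Fin 2 → ℂ, MvPolynomial.eval v (par s) ≠ 0 := by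
    by_contra hcon
    push Not at hcon
    exact h1 (MvPolynomial.funext fun v => by rw [hcon v, map_zero])
  have hv2 : v = ![v 0, v 1] := by
    funext i
    fin_cases i <;> rfl
  rw [hv2, eval_par] at hv
  refine ⟨_, ?_, hv⟩
  show (v 0 ^ 2 + v 1 ^ 2) ^ 2 + (Complex.I * (v 0 ^ 2 - v 1 ^ 2)) ^ 2 +
    (2 * Complex.I * (v 0 * v 1)) ^ 2 = 0
  linear_combination ((v 0 ^ 2 - v 1 ^ 2) ^ 2 + 4 * (v 0 * v 1) ^ 2) * Complex.I_mul_I

/-- the map given by the ternary forms is not constant -/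
theorem not_constant {I J : Type*} (w : I → ℕ) (hw : ∀ i, 0 < w i) (d : J → ℕ)
    (f : J → MvPolynomial I ℝ) (hf : ∀ j, (f j).IsWeightedHomogeneous w (d j))
    (hno : ∀ a : I → ℝ, (∀ j, MvPolynomial.eval a (f j) = 0) → a = 0)
    (s : I → MvPolynomial (Fin 3) ℝ) (hs : ∃ i, ¬ conicEq ∣ s i)
    (hfs : ∀ j, conicEq ∣ aeval s (f j)) :
    ¬ ∃ c : I → ℂ, ∀ p : Fin 3 → ℂ, p 0 ^ 2 + p 1 ^ 2 + p 2 ^ 2 = 0 →
      ∃ t : ℂ, ∀ i, aeval p (s i) = t ^ w i * c i := by
  rintro ⟨c, hc⟩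
  obtain ⟨i, hi⟩ := hs
  obtain ⟨p, hp, hpi⟩ := exists_point (s i) hi
  obtain ⟨t, ht⟩ := hc p hp
  have hp' : (starRingEnd ℂ) (p 0) ^ 2 + (starRingEnd ℂ) (p 1) ^ 2 + (starRingEnd ℂ) (p 2) ^ 2 =
      0 := by
    rw [← map_pow, ← map_pow, ← map_pow, ← map_add, ← map_add, hp, map_zero]
  obtain ⟨t', ht'⟩ := hc (fun k => (starRingEnd ℂ) (p k)) hp'
  have hti : t ^ w i * c i ≠ 0 := by rw [← ht i]; exact hpi
  have ht0 : t ≠ 0 := by
    rintro rfl
    rw [zero_pow (hw i).ne', zero_mul] at hti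
    exact hti rfl
  have hci : c i ≠ 0 := right_ne_zero_of_mul hti
  -- the equations hold at `c`
  have hfc : ∀ j, aeval c (f j) = 0 := by
    intro j
    have h1 : aeval (fun l => aeval p (s l)) (f j) = 0 := by
      obtain ⟨G, hG⟩ := hfs j
      have h2 : aeval p (aeval s (f j)) = aeval (fun l => aeval p (s l)) (f j) := by
        have h3 := congrArg (fun φ : MvPolynomial I ℝ →ₐ[ℝ] ℂ => φ (f j))
          (MvPolynomial.comp_aeval s (aeval p : MvPolynomial (Fin 3) ℝ →ₐ[ℝ] ℂ))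
        exact h3
      rw [← h2, hG, map_mul]
      have h4 : aeval p conicEq = 0 := by
        rw [conicEq]
        simp only [map_add, map_pow, aeval_X]
        exact hp
      rw [h4, zero_mul]
    simp only [ht] at h1
    rw [aeval_weighted w (f j) (d j) (hf j)] at h1
    exact (mul_eq_zero.1 h1).resolve_left (pow_ne_zero _ ht0)
  have hct0 : (starRingEnd ℂ) t ≠ 0 := by simpa using ht0
  have hμ : ∀ l, (starRingEnd ℂ) (c l) = (t' / (starRingEnd ℂ) t) ^ w l * c l := by
    intro l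
    have h1 := ht' l
    rw [aeval_conj, ht l, map_mul, map_pow] at h1
    rw [div_pow, div_mul_eq_mul_div, ← h1]
    field_simp
  exact hci (congrFun (no_real_orbit w hw d f hf hno c hfc _ hμ) i)

end Pool.Agent.Helper716_Lang
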