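import Pool.Agent.Helper716_Lang.Defs

/-!
# Second order conditions at a minimum, over ordered fields
-/

set_option autoImplicit false

namespace Pool.Agent.Helper716_Lang

open Polynomial

section

variable {R : Type*} [Field R] [LinearOrder R] [IsStrictOrderedRing R]

/-- A polynomial is bounded on `[-1, 1]`. -/
theorem exists_bound (Q : R[X]) : ∃ C : R, 0 ≤ C ∧ ∀ t : R, |t| ≤ 1 → |Q.eval t| ≤ C := by
  refine ⟨∑ i ∈ Finset.range (Q.natDegree + 1), |Q.coeff i|,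
    Finset.sum_nonneg fun i _ => abs_nonneg _, fun t ht => ?_⟩
  rw [Polynomial.eval_eq_sum_range]
  refine (Finset.abs_sum_le_sum_abs _ _).trans (Finset.sum_le_sum fun i _ => ?_)
  rw [abs_mul, abs_pow]
  exact mul_le_of_le_one_right (abs_nonneg _) (pow_le_one₀ (abs_nonneg _) ht)

/-- If `γ t ^ 2 + t ^ 3 Q(t) ≥ 2 b t` (up to a positive factor) on the side `t b ≥ 0`, then `γ ≥ 0`. -/
theorem nonneg_of_side (Q : R[X]) (b μ γ : R) (hμ : 0 ≤ μ)
    (h : ∀ t : R, 0 ≤ t * b → μ * (2 * (t * b)) ≤ γ * t ^ 2 + t ^ 3 * Q.eval t) : 0 ≤ γ := by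
  by_contra hγ
  push Not at hγ
  obtain ⟨C, hC, hb⟩ := exists_bound Q
  -- a small positive number
  obtain ⟨ε, hε0, hε1, hεC⟩ : ∃ ε : R, 0 < ε ∧ ε ≤ 1 ∧ ε * C < -γ := by
    refine ⟨min 1 (-γ / (C + 1) / 2), ?_, min_le_left _ _, ?_⟩
    · have : 0 < -γ / (C + 1) / 2 := by
        apply div_pos (div_pos (by linarith) (by linarith)) (by norm_num)
      exact lt_min one_pos this
    · have h1 : min 1 (-γ / (C + 1) / 2) * C ≤ (-γ / (C + 1) / 2) * C :=
        mul_le_mul_of_nonneg_right (min_le_right _ _) hC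
      have h2 : (-γ / (C + 1) / 2) * C < -γ := by
        have h3 : 0 < -γ := by linarith
        have h4 : 0 < C + 1 := by linarith
        rw [div_div, div_mul_eq_mul_div, div_lt_iff₀ (by positivity)]
        nlinarith
      linarith
  -- the right sign
  obtain ⟨t, ht1, ht2, ht3⟩ : ∃ t : R, |t| = ε ∧ 0 ≤ t * b ∧ t ≠ 0 := by
    rcases le_total 0 b with hb' | hb'
    · exact ⟨ε, abs_of_pos hε0, mul_nonneg hε0.le hb', hε0.ne'⟩
    · exact ⟨-ε, by rw [abs_neg, abs_of_pos hε0], mul_nonneg_of_nonpos_of_nonpos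
        (by linarith) hb', by simpa using hε0.ne'⟩
  have h1 := h t ht2
  have h2 : 0 ≤ γ * t ^ 2 + t ^ 3 * Q.eval t :=
    le_trans (mul_nonneg hμ (by linarith)) h1
  have h3 : γ * t ^ 2 + t ^ 3 * Q.eval t = t ^ 2 * (γ + t * Q.eval t) := by ring
  have h4 : 0 < t ^ 2 := by positivity
  have h5 : 0 ≤ γ + t * Q.eval t := by
    rw [h3] at h2
    exact nonneg_of_mul_nonneg_right h2 h4
  have h6 : t * Q.eval t ≤ ε * C := by
    calc t * Q.eval t ≤ |t * Q.eval t| := le_abs_self _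
      _ = |t| * |Q.eval t| := abs_mul _ _
      _ ≤ ε * C := by
        rw [ht1]
        exact mul_le_mul_of_nonneg_left (hb t (by rw [ht1]; exact hε1)) hε0.le
  linarith

/-- the expansion of a power -/
theorem pow_expand (m β : R) (S : R[X]) (W : ℕ) :
    ∃ T : R[X], (C m + C β * X ^ 2 + X ^ 3 * S) ^ (W + 1) =
      C (m ^ (W + 1)) + C ((W + 1 : ℕ) * m ^ W * β) * X ^ 2 + X ^ 3 * T := by
  induction W with
  | zero => exact ⟨S, by simp⟩
  | succ W ih =>
    obtain ⟨T, hT⟩ := ih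
    refine ⟨C (m ^ (W + 1)) * S + C ((W + 1 : ℕ) * m ^ W * β) * (C β * X + X ^ 2 * S) +
      T * (C m + C β * X ^ 2 + X ^ 3 * S), ?_⟩
    rw [pow_succ, hT]
    simp only [map_mul, map_pow, map_natCast, Nat.cast_add, Nat.cast_one, Nat.cast_succ, map_add,
      map_one]
    ring

/-- second order condition at a minimum with a power -/
theorem second_order (Φ : R[X]) (m b p : R) (hm : 0 < m) (W : ℕ) (hp : 0 ≤ p)
    (h0 : Φ.coeff 0 = m) (h1 : Φ.coeff 1 = 0)
    (h : ∀ t : R, 1 ≤ 1 + 2 * (t * b) + t ^ 2 * p →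
      m ^ (W + 1) * (1 + 2 * (t * b) + t ^ 2 * p) ≤ (Φ.eval t) ^ (W + 1)) :
    m * p ≤ (W + 1 : ℕ) * Φ.coeff 2 := by
  set β := Φ.coeff 2 with hβ
  have hΦ : Φ = C m + C β * X ^ 2 + X ^ 3 * Φ.divX.divX.divX := by
    conv_lhs => rw [← Polynomial.divX_mul_X_add Φ, ← Polynomial.divX_mul_X_add Φ.divX,
      ← Polynomial.divX_mul_X_add Φ.divX.divX]
    simp only [Polynomial.coeff_divX]
    rw [show (0 + 1 + 1 : ℕ) = 2 from rfl, show (0 + 1 : ℕ) = 1 from rfl, h0, h1, ← hβ]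
    simp only [map_zero]
    ring
  obtain ⟨T, hT⟩ := pow_expand m β Φ.divX.divX.divX W
  have key : 0 ≤ (W + 1 : ℕ) * m ^ W * β - m ^ (W + 1) * p := by
    refine nonneg_of_side T b (m ^ (W + 1)) _ (by positivity) fun t ht => ?_
    have h2 := h t (by nlinarith [sq_nonneg t, mul_nonneg (sq_nonneg t) hp])
    have h3 : (Φ.eval t) ^ (W + 1) = m ^ (W + 1) + (W + 1 : ℕ) * m ^ W * β * t ^ 2 +
        t ^ 3 * T.eval t := by
      rw [← Polynomial.eval_pow]
      conv_lhs => rw [hΦ, hT]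
      simp
    rw [h3] at h2
    linarith
  have h4 : (W + 1 : ℕ) * m ^ W * β - m ^ (W + 1) * p = m ^ W * ((W + 1 : ℕ) * β - m * p) := by
    ring
  rw [h4] at key
  have := nonneg_of_mul_nonneg_right key (pow_pos hm W)
  linarith

end

end Pool.Agent.Helper716_Lang
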