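import Pool.Agent.Helper716_Lang.RCQE
import Pool.Agent.Helper716_Lang.Defs

/-!
# Transfer: a polynomial over a real closed field attains its minimum on the unit sphere
-/

set_option autoImplicit false

namespace Pool.Agent.Helper716_Lang.RC

open MvPolynomial

variable {ι κ : Type}

/-! ### Polynomial functions -/

lemma PF.coordM (i : ι) : PF (fun v : Pt ι => v.2 i) := ⟨X i, fun v => by simp⟩

lemma PF.zeroM : PF (fun v : Pt ι => (0 : v.1.F)) := ⟨0, fun v => by simp⟩

lemma PF.oneM : PF (fun v : Pt ι => (1 : v.1.F)) := ⟨1, fun v => by simp⟩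

lemma PF.addM {f g : (v : Pt ι) → v.1.F} (hf : PF f) (hg : PF g) :
    PF (fun v => f v + g v) := by
  obtain ⟨p, hp⟩ := hf
  obtain ⟨q, hq⟩ := hg
  exact ⟨p + q, fun v => by simp [hp, hq]⟩

lemma PF.subM {f g : (v : Pt ι) → v.1.F} (hf : PF f) (hg : PF g) :
    PF (fun v => f v - g v) := by
  obtain ⟨p, hp⟩ := hf
  obtain ⟨q, hq⟩ := hg
  exact ⟨p - q, fun v => by simp [hp, hq]⟩

lemma PF.mulM {f g : (v : Pt ι) → v.1.F} (hf : PF f) (hg : PF g) :
    PF (fun v => f v * g v) := by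
  obtain ⟨p, hp⟩ := hf
  obtain ⟨q, hq⟩ := hg
  exact ⟨p * q, fun v => by simp [hp, hq]⟩

lemma PF.powM {f : (v : Pt ι) → v.1.F} (hf : PF f) (n : ℕ) : PF (fun v => f v ^ n) := by
  obtain ⟨p, hp⟩ := hf
  exact ⟨p ^ n, fun v => by simp [hp]⟩

lemma PF.sumM {α : Type*} (s : Finset α) {f : α → (v : Pt ι) → v.1.F}
    (hf : ∀ a ∈ s, PF (f a)) : PF (fun v => ∑ a ∈ s, f a v) := by
  classical
  induction s using Finset.induction_on with
  | empty => simpa using PF.zeroM
  | insert a s ha ih =>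
    have : (fun v : Pt ι => ∑ b ∈ insert a s, f b v) = fun v => f a v + ∑ b ∈ s, f b v := by
      funext v; rw [Finset.sum_insert ha]
    rw [this]
    exact (hf a (by simp)).addM (ih fun b hb => hf b (by simp [hb]))

lemma PF.prodM {α : Type*} (s : Finset α) {f : α → (v : Pt ι) → v.1.F}
    (hf : ∀ a ∈ s, PF (f a)) : PF (fun v => ∏ a ∈ s, f a v) := by
  classical
  induction s using Finset.induction_on with
  | empty => simpa using PF.oneM
  | insert a s ha ih =>
    have : (fun v : Pt ι => ∏ b ∈ insert a s, f b v) = fun v => f a v * ∏ b ∈ s, f b v := by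
      funext v; rw [Finset.prod_insert ha]
    rw [this]
    exact (hf a (by simp)).mulM (ih fun b hb => hf b (by simp [hb]))

/-! ### Predicates -/

lemma SAP.iffM {p : Pt ι → Prop} (h : SAP p) :
    ∃ Q : Finset (MvPolynomial ι ℚ), ∀ v w : Pt ι,
    (∀ q ∈ Q, SignType.sign (aeval v.2 q) = SignType.sign (aeval w.2 q)) → (p v ↔ p w) := by
  obtain ⟨Q, hQ⟩ := h
  exact ⟨Q, fun v w h => ⟨hQ v w h, hQ w v fun q hq => (h q hq).symm⟩⟩

lemma SAP.notM {p : Pt ι → Prop} (h : SAP p) : SAP (fun v => ¬ p v) := by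
  obtain ⟨Q, hQ⟩ := h.iffM
  exact ⟨Q, fun v w h hv hw => hv ((hQ v w h).2 hw)⟩

lemma SAP.andM {p q : Pt ι → Prop} (hp : SAP p) (hq : SAP q) : SAP (fun v => p v ∧ q v) := by
  classical
  obtain ⟨Q, hQ⟩ := hp
  obtain ⟨R, hR⟩ := hq
  refine ⟨Q ∪ R, fun v w h hv =>
    ⟨hQ v w (fun q hq => h q ?_) hv.1, hR v w (fun q hq => h q ?_) hv.2⟩⟩
  · simp [hq]
  · simp [hq]

lemma SAP.congrM {p q : Pt ι → Prop} (hp : SAP p) (h : ∀ v, q v ↔ p v) : SAP q := by
  have : q = p := funext fun v => propext (h v)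
  rwa [this]

lemma SAP.orM {p q : Pt ι → Prop} (hp : SAP p) (hq : SAP q) : SAP (fun v => p v ∨ q v) :=
  (hp.notM.andM hq.notM).notM.congrM fun v => by tauto

lemma SAP.impM {p q : Pt ι → Prop} (hp : SAP p) (hq : SAP q) : SAP (fun v => p v → q v) :=
  (hp.notM.orM hq).congrM fun v => by tauto

lemma SAP.sign_eqM {f : (v : Pt ι) → v.1.F} (hf : PF f) (s : SignType) :
    SAP (fun v => SignType.sign (f v) = s) := by
  obtain ⟨q, hq⟩ := hf
  refine ⟨{q}, fun v w h hv => ?_⟩
  have := h q (by simp)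
  simp only [hq] at hv ⊢
  rw [← this, hv]

lemma SAP.posM {f : (v : Pt ι) → v.1.F} (hf : PF f) : SAP (fun v => 0 < f v) :=
  (SAP.sign_eqM hf 1).congrM fun v => by rw [sign_eq_one_iff]

lemma SAP.eq_zeroM {f : (v : Pt ι) → v.1.F} (hf : PF f) : SAP (fun v => f v = 0) :=
  (SAP.sign_eqM hf 0).congrM fun v => by rw [sign_eq_zero_iff]

lemma SAP.ltM {f g : (v : Pt ι) → v.1.F} (hf : PF f) (hg : PF g) : SAP (fun v => f v < g v) :=
  (SAP.posM (hg.subM hf)).congrM fun v => by rw [sub_pos]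

lemma SAP.leM {f g : (v : Pt ι) → v.1.F} (hf : PF f) (hg : PF g) : SAP (fun v => f v ≤ g v) :=
  (SAP.ltM hg hf).notM.congrM fun v => by rw [not_lt]

lemma SAP.eqM {f g : (v : Pt ι) → v.1.F} (hf : PF f) (hg : PF g) : SAP (fun v => f v = g v) :=
  (SAP.eq_zeroM (hf.subM hg)).congrM fun v => by rw [sub_eq_zero]

/-- renaming of the variables -/
lemma SAP.renamingM {p : Pt ι → Prop} (hp : SAP p) (f : ι → κ) :
    SAP (fun v : Pt κ => p ⟨v.1, v.2 ∘ f⟩) := by
  classical
  obtain ⟨Q, hQ⟩ := hp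
  refine ⟨Q.image (rename f), fun v w h hv => ?_⟩
  refine hQ ⟨v.1, v.2 ∘ f⟩ ⟨w.1, w.2 ∘ f⟩ (fun q hq => ?_) hv
  have := h _ (Finset.mem_image_of_mem (rename f) hq)
  rw [aeval_rename, aeval_rename] at this
  exact this

/-- a block of existential quantifiers -/
lemma SAP.exists_fin_blockM (n : ℕ) : ∀ {p : Pt (ι ⊕ Fin n) → Prop}, SAP p →
    SAP (fun v : Pt ι => ∃ s : Fin n → v.1.F, p ⟨v.1, Sum.elim v.2 s⟩) := by
  induction n with
  | zero =>
    intro p hp
    refine (hp.renamingM (Sum.elim id Fin.elim0 : ι ⊕ Fin 0 → ι)).congrM fun v => ?_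
    have key : ∀ s : Fin 0 → v.1.F, Sum.elim v.2 s = v.2 ∘ (Sum.elim id Fin.elim0) := by
      intro s
      funext x
      rcases x with x | x
      · rfl
      · exact x.elim0
    constructor
    · rintro ⟨s, hs⟩
      rwa [key s] at hs
    · intro h
      exact ⟨Fin.elim0, by rwa [key]⟩
  | succ n ih =>
    intro p hp
    let g : ι ⊕ Fin (n + 1) → Option (ι ⊕ Fin n) :=
      Sum.elim (fun i => some (Sum.inl i)) (Fin.cons none fun j => some (Sum.inr j))
    have h1 := SAP.exists_pt (hp.renamingM g)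
    have h2 := ih h1
    refine h2.congrM fun v => ?_
    have key : ∀ (s' : Fin n → v.1.F) (t : v.1.F),
        (Sum.elim v.2 (Fin.cons t s' : Fin (n + 1) → v.1.F)) =
          (ext t (Sum.elim v.2 s')) ∘ g := by
      intro s' t
      funext x
      rcases x with x | x
      · rfl
      · refine Fin.cases ?_ (fun j => ?_) x
        · simp [g, ext]
        · simp [g, ext]
    constructor
    · rintro ⟨s, hs⟩
      refine ⟨fun j => s j.succ, s 0, ?_⟩
      show p ⟨v.1, (ext (s 0) (Sum.elim v.2 fun j => s j.succ)) ∘ g⟩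
      rw [← key]
      have : (Fin.cons (s 0) (fun j : Fin n => s j.succ) : Fin (n + 1) → v.1.F) = s :=
        Fin.cons_self_tail s
      rw [this]
      exact hs
    · rintro ⟨s', t, hs⟩
      refine ⟨Fin.cons t s', ?_⟩
      rw [key]
      exact hs

lemma SAP.exists_blockM [Fintype κ] {p : Pt (ι ⊕ κ) → Prop} (hp : SAP p) :
    SAP (fun v : Pt ι => ∃ s : κ → v.1.F, p ⟨v.1, Sum.elim v.2 s⟩) := by
  let e := Fintype.equivFin κ
  have h1 := SAP.exists_fin_blockM _
    (hp.renamingM (Sum.map id e : ι ⊕ κ → ι ⊕ Fin (Fintype.card κ)))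
  refine h1.congrM fun v => ?_
  have key : ∀ s : Fin (Fintype.card κ) → v.1.F,
      Sum.elim v.2 s ∘ Sum.map id e = Sum.elim v.2 (s ∘ e) := by
    intro s
    funext x
    rcases x with x | x <;> rfl
  constructor
  · rintro ⟨s, hs⟩
    refine ⟨s ∘ e.symm, ?_⟩
    show p ⟨v.1, Sum.elim v.2 (s ∘ e.symm) ∘ Sum.map id e⟩
    rw [key]
    have : (s ∘ e.symm) ∘ e = s := by
      funext x; simp
    rw [this]
    exact hs
  · rintro ⟨s, hs⟩
    refine ⟨s ∘ e, ?_⟩
    rw [← key]
    exact hs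

lemma SAP.forall_blockM [Fintype κ] {p : Pt (ι ⊕ κ) → Prop} (hp : SAP p) :
    SAP (fun v : Pt ι => ∀ s : κ → v.1.F, p ⟨v.1, Sum.elim v.2 s⟩) :=
  (SAP.exists_blockM hp.notM).notM.congrM fun v => by push Not; rfl

/-- sentences have the same truth value in all models -/
lemma SAP.transferM {p : Pt Empty → Prop} (hp : SAP p) (v w : Pt Empty) (h : p v) : p w := by
  obtain ⟨Q, hQ⟩ := hp
  refine hQ v w (fun q _ => ?_) h
  have key : ∀ u : Pt Empty, aeval u.2 q = algebraMap ℚ u.1.F (coeff 0 q) := by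
    intro u
    obtain ⟨r, rfl⟩ := C_surjective Empty q
    rw [aeval_C, coeff_zero_C]
  have sgn : ∀ (M : Model) (r : ℚ), SignType.sign (algebraMap ℚ M.F r) = SignType.sign r := by
    intro M r
    rw [eq_ratCast]
    rcases lt_trichotomy r 0 with h | h | h
    · rw [sign_neg h, sign_neg (Rat.cast_lt_zero.2 h)]
    · simp [h]
    · rw [sign_pos h, sign_pos (Rat.cast_pos.2 h)]
  rw [key, key, sgn, sgn]

/-- the value of the polynomial with exponents in `A` and coefficients `c` -/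
noncomputable def val {M : ℕ} {F : Type} [Field F] (A : Finset (Fin M →₀ ℕ)) (c : A → F)
    (s : Fin M → F) : F := ∑ α : A, c α * ∏ i, s i ^ (α.1 i)

/-- the sentence: all polynomials with exponents in `A` attain their minimum -/
def Stmt {M : ℕ} (A : Finset (Fin M →₀ ℕ)) (N : Model) : Prop :=
  ∀ c : A → N.F, ∃ s : Fin M → N.F, ∑ i, s i ^ 2 = 1 ∧
    ∀ v : Fin M → N.F, ∑ i, v i ^ 2 = 1 → val A c s ≤ val A c v

lemma stmt_sap {M : ℕ} (A : Finset (Fin M →₀ ℕ)) : SAP (fun v : Pt Empty => Stmt A v.1) := by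
  classical
  -- coordinates: `Empty ⊕ A` for the coefficients, then `s`, then `v`
  have h1 : SAP (fun u : Pt (((Empty ⊕ A) ⊕ Fin M) ⊕ Fin M) =>
      ∑ i, u.2 (Sum.inr i) ^ 2 = 1 →
        val A (fun α => u.2 (Sum.inl (Sum.inl (Sum.inr α)))) (fun i => u.2 (Sum.inl (Sum.inr i))) ≤
        val A (fun α => u.2 (Sum.inl (Sum.inl (Sum.inr α)))) (fun i => u.2 (Sum.inr i))) := by
    refine SAP.impM (SAP.eqM (PF.sumM _ fun i _ => (PF.coordM _).powM 2) PF.oneM) (SAP.leM ?_ ?_)
    · exact PF.sumM _ fun α _ => (PF.coordM _).mulM (PF.prodM _ fun i _ => (PF.coordM _).powM _)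
    · exact PF.sumM _ fun α _ => (PF.coordM _).mulM (PF.prodM _ fun i _ => (PF.coordM _).powM _)
  have h2 := SAP.forall_blockM h1
  have h3 : SAP (fun u : Pt ((Empty ⊕ A) ⊕ Fin M) => ∑ i, u.2 (Sum.inr i) ^ 2 = 1) :=
    SAP.eqM (PF.sumM _ fun i _ => (PF.coordM _).powM 2) PF.oneM
  have h4 := SAP.forall_blockM (SAP.exists_blockM (h3.andM h2))
  exact h4.congrM fun v => Iff.rfl

lemma val_eq_eval {M : ℕ} {F : Type} [Field F] (p : MvPolynomial (Fin M) F) (s : Fin M → F) :
    val p.support (fun α => coeff α.1 p) s = eval s p := by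
  rw [eval_eq', val]
  rw [← Finset.sum_coe_sort p.support (fun α => coeff α p * ∏ i, s i ^ (α i))]

lemma val_eq_eval' {M : ℕ} {F : Type} [Field F] (A : Finset (Fin M →₀ ℕ)) (c : A → F)
    (s : Fin M → F) : val A c s = eval s (∑ α : A, monomial α.1 (c α)) := by
  rw [val, map_sum]
  refine Finset.sum_congr rfl fun α _ => ?_
  rw [eval_monomial, Finsupp.prod_fintype]
  intro i
  simp

/-- a real polynomial of odd degree with positive leading coefficient has a root -/
lemma odd_root_pos (f : Polynomial ℝ) (hf : Odd f.natDegree) (hl : 0 < f.leadingCoeff) :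
    ∃ x, f.IsRoot x := by
  have hdeg : 0 < f.degree := Polynomial.natDegree_pos_iff_degree_pos.1 hf.pos
  have h1 := f.tendsto_atTop_of_leadingCoeff_nonneg hdeg hl.le
  obtain ⟨a, ha⟩ := (h1.eventually (Filter.eventually_ge_atTop 0)).exists
  have hX : (-Polynomial.X : Polynomial ℝ).natDegree = 1 := by simp
  have hg : (f.comp (-Polynomial.X)).natDegree = f.natDegree := by
    rw [Polynomial.natDegree_comp, hX, mul_one]
  have hgl : (f.comp (-Polynomial.X)).leadingCoeff = -f.leadingCoeff := by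
    rw [Polynomial.leadingCoeff_comp (by rw [hX]; exact one_ne_zero)]
    simp [hf.neg_one_pow]
  have hgdeg : 0 < (f.comp (-Polynomial.X)).degree :=
    Polynomial.natDegree_pos_iff_degree_pos.1 (by rw [hg]; exact hf.pos)
  have h2 := (f.comp (-Polynomial.X)).tendsto_atBot_of_leadingCoeff_nonpos hgdeg
    (by rw [hgl]; linarith)
  obtain ⟨b, hb⟩ := (h2.eventually (Filter.eventually_le_atBot 0)).exists
  have hb' : f.eval (-b) ≤ 0 := by
    simpa [Polynomial.eval_comp] using hb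
  exact mem_range_of_exists_le_of_exists_ge f.continuous ⟨-b, hb'⟩ ⟨a, ha⟩

lemma isRealClosed_real : IsRealClosed ℝ := by
  refine IsRealClosed.of_linearOrderedField (fun {x} hx => ⟨√x, (Real.mul_self_sqrt hx).symm⟩)
    (fun {f} hf => ?_)
  have h0 : f.leadingCoeff ≠ 0 := by
    intro h
    rw [Polynomial.leadingCoeff_eq_zero] at h
    rw [h] at hf
    simp at hf
  rcases lt_or_gt_of_ne h0 with h | h
  · obtain ⟨x, hx⟩ := odd_root_pos (-f) (by rwa [Polynomial.natDegree_neg])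
      (by rw [Polynomial.leadingCoeff_neg]; linarith)
    exact ⟨x, by simpa [Polynomial.IsRoot] using hx⟩
  · exact odd_root_pos f hf h

/-- TARGET -/
theorem sphereMin_of_isRealClosed (R : Type) [Field R] [LinearOrder R] [IsStrictOrderedRing R]
    [IsRealClosed R] : SphereMin R := by
  classical
  intro M p hM
  have := isRealClosed_real
  let NR : Model := ⟨ℝ⟩
  let N : Model := ⟨R⟩
  have hreal : Stmt p.support NR := by
    intro c
    obtain ⟨s, hs, hmin⟩ := sphereMin_real M (∑ α : p.support, monomial α.1 (c α)) hM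
    refine ⟨s, hs, fun v hv => ?_⟩
    rw [val_eq_eval', val_eq_eval']
    exact hmin v hv
  have h : Stmt p.support N :=
    (stmt_sap p.support).transferM ⟨NR, Empty.elim⟩ ⟨N, Empty.elim⟩ hreal
  obtain ⟨s, hs, hmin⟩ := h (fun α => coeff α.1 p)
  refine ⟨s, hs, fun v hv => ?_⟩
  have := hmin v hv
  rw [val_eq_eval, val_eq_eval] at this
  exact this

end Pool.Agent.Helper716_Lang.RC
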