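import Pool.Agent.R316.DSf

/-!
Elementary facts on polynomials over a real closed field `K` (sign at infinity, Rolle, root_cases).
-/

set_option autoImplicit false

namespace Pool.Agent.Helper716_Lang.RC

open Polynomial Set

section ordered

variable {K : Type*} [Field K] [LinearOrder K] [IsStrictOrderedRing K]

/-- eventually `P(s)` times the leading coefficient is bounded below by a positive constant -/
lemma aux213_top (n : ℕ) : ∀ P : K[X], P ≠ 0 → P.natDegree = n →
    ∃ s₀ δ : K, 0 < δ ∧ ∀ s, s₀ ≤ s → δ ≤ P.eval s * P.leadingCoeff := by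
  induction n with
  | zero =>
    intro P hP hn
    have hl : P.leadingCoeff ≠ 0 := by simpa using hP
    refine ⟨0, P.leadingCoeff * P.leadingCoeff, mul_self_pos.2 hl, ?_⟩
    intro s _
    have h1 : P.eval s = P.leadingCoeff := by
      rw [Polynomial.eq_C_of_natDegree_eq_zero hn]
      simp
    rw [h1]
  | succ n ih =>
    intro P hP hn
    have h1 : P.divX * X + C (P.coeff 0) = P := divX_mul_X_add P
    have h2 : P.divX.natDegree = n := by
      rw [natDegree_divX_eq_natDegree_tsub_one, hn]; rfl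
    have h3 : P.divX ≠ 0 := by
      intro h
      rw [h, zero_mul, zero_add] at h1
      rw [← h1, natDegree_C] at hn
      omega
    have h4 : P.divX.leadingCoeff = P.leadingCoeff := by
      rw [leadingCoeff, leadingCoeff, h2, hn, coeff_divX]
    obtain ⟨s₀, δ, hδ, hs⟩ := ih P.divX h3 h2
    rw [h4] at hs
    refine ⟨max (max s₀ 0) ((1 + |P.coeff 0 * P.leadingCoeff|) / δ), 1, one_pos, ?_⟩
    intro s hss
    have e1 : s₀ ≤ s := (le_max_left _ _).trans ((le_max_left _ _).trans hss)
    have e2 : 0 ≤ s := (le_max_right _ _).trans ((le_max_left _ _).trans hss)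
    have e3 : (1 + |P.coeff 0 * P.leadingCoeff|) / δ ≤ s := (le_max_right _ _).trans hss
    rw [div_le_iff₀ hδ] at e3
    have e4 := hs s e1
    have e5 : P.eval s = P.divX.eval s * s + P.coeff 0 := by
      conv_lhs => rw [← h1]
      simp
    have e6 := neg_abs_le (P.coeff 0 * P.leadingCoeff)
    have e7 := mul_le_mul_of_nonneg_left e4 e2
    rw [e5]
    have e8 : (P.divX.eval s * s + P.coeff 0) * P.leadingCoeff
        = s * (P.divX.eval s * P.leadingCoeff) + P.coeff 0 * P.leadingCoeff := by ring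
    rw [e8]
    linarith

lemma aux213_sign_eq {x y : K} (h : 0 < x * y) : SignType.sign x = SignType.sign y := by
  rcases mul_pos_iff.1 h with ⟨h1, h2⟩ | ⟨h1, h2⟩
  · rw [sign_pos h1, sign_pos h2]
  · rw [sign_neg h1, sign_neg h2]

/-- there are arbitrarily large points where the sign is the sign of the leading coefficient -/
lemma exists_sign_atTop (P : K[X]) (hP : P ≠ 0) (a : K) :
    ∃ s, a < s ∧ SignType.sign (P.eval s) = SignType.sign P.leadingCoeff := by
  obtain ⟨s₀, δ, hδ, hs⟩ := aux213_top _ P hP rfl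
  refine ⟨max s₀ (a + 1), lt_of_lt_of_le (lt_add_one a) (le_max_right _ _), ?_⟩
  exact aux213_sign_eq (lt_of_lt_of_le hδ (hs _ (le_max_left _ _)))

lemma exists_sign_atBot (P : K[X]) (hP : P ≠ 0) (a : K) :
    ∃ s, s < a ∧ SignType.sign (P.eval s) =
      SignType.sign ((-1) ^ P.natDegree * P.leadingCoeff) := by
  have h1 : P.comp (-X) ≠ 0 := by
    intro h
    apply hP
    have := congrArg (fun q => q.comp (-X)) h
    simpa [Polynomial.comp_assoc] using this
  have h3 : (P.comp (-X)).leadingCoeff = (-1) ^ P.natDegree * P.leadingCoeff := by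
    rw [Polynomial.leadingCoeff_comp (by simp)]
    simp [mul_comm]
  obtain ⟨s, hs1, hs2⟩ := exists_sign_atTop (P.comp (-X)) h1 (-a)
  refine ⟨-s, by linarith, ?_⟩
  rw [← h3, ← hs2]
  simp

lemma aux213_sign_mul_neg {x y z : K} (h : SignType.sign y = SignType.sign z) (hxy : x * y < 0) :
    x * z < 0 := by
  have h1 : SignType.sign (x * y) = SignType.sign (x * z) := by rw [sign_mul, sign_mul, h]
  rw [sign_neg hxy, eq_comm, sign_eq_neg_one_iff] at h1
  exact h1

lemma aux213_strict_signs (P : K[X]) {D : Set K}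
    (h : StrictMonoOn (fun t => P.eval t) D ∨ StrictAntiOn (fun t => P.eval t) D)
    {a t b : K} (ha : a ∈ D) (ht : t ∈ D) (hb : b ∈ D) (hat : a < t) (htb : t < b)
    (h0 : P.eval t = 0) : P.eval a * P.eval b < 0 := by
  rcases h with h | h
  · have h1 := h ha ht hat
    have h2 := h ht hb htb
    simp only [h0] at h1 h2
    exact mul_neg_of_neg_of_pos h1 h2
  · have h1 := h ha ht hat
    have h2 := h ht hb htb
    simp only [h0] at h1 h2
    exact mul_neg_of_pos_of_neg h1 h2

/-- the component of a point outside a finite set -/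
lemma aux213_comp_left (Z : Finset K) (t : K) :
    (∃ a ∈ Z, a < t ∧ ∀ z ∈ Z, z < t → z ≤ a) ∨ (∀ z ∈ Z, ¬ z < t) := by
  classical
  by_cases h : ∃ z ∈ Z, z < t
  · left
    obtain ⟨a, ha, hmax⟩ := Finset.exists_max_image (Z.filter (· < t)) id
      (by obtain ⟨z, hz, hzt⟩ := h; exact ⟨z, by simp [hz, hzt]⟩)
    simp only [Finset.mem_filter, id] at ha hmax
    exact ⟨a, ha.1, ha.2, fun z hz hzt => hmax z ⟨hz, hzt⟩⟩
  · right
    push Not at h
    exact fun z hz => not_lt.2 (h z hz)

lemma aux213_comp_right (Z : Finset K) (t : K) :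
    (∃ a ∈ Z, t < a ∧ ∀ z ∈ Z, t < z → a ≤ z) ∨ (∀ z ∈ Z, ¬ t < z) := by
  classical
  by_cases h : ∃ z ∈ Z, t < z
  · left
    obtain ⟨a, ha, hmin⟩ := Finset.exists_min_image (Z.filter (t < ·)) id
      (by obtain ⟨z, hz, hzt⟩ := h; exact ⟨z, by simp [hz, hzt]⟩)
    simp only [Finset.mem_filter, id] at ha hmin
    exact ⟨a, ha.1, ha.2, fun z hz hzt => hmin z ⟨hz, hzt⟩⟩
  · right
    push Not at h
    exact fun z hz => not_lt.2 (h z hz)

end ordered

variable {K : Type*} [Field K] [LinearOrder K] [IsStrictOrderedRing K] [IsRealClosed K]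

lemma exists_root_between (P : K[X]) {a b : K} (hab : a < b) (h : P.eval a * P.eval b < 0) :
    ∃ t, a < t ∧ t < b ∧ P.eval t = 0 :=
  Pool.Agent.R316.DS.ivp_of_isRealClosed P a b hab h

lemma sign_const (P : K[X]) {I : Set K} (hI : I.OrdConnected) (h : ∀ t ∈ I, P.eval t ≠ 0)
    {x y : K} (hx : x ∈ I) (hy : y ∈ I) :
    SignType.sign (P.eval x) = SignType.sign (P.eval y) := by
  by_contra hne
  have key : ∀ x y : K, x ∈ I → y ∈ I → x < y →
      SignType.sign (P.eval x) ≠ SignType.sign (P.eval y) → False := by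
    intro x y hx hy hxy hne
    have hx0 := h x hx
    have hy0 := h y hy
    have : P.eval x * P.eval y < 0 := by
      rcases lt_or_gt_of_ne hx0 with h1 | h1 <;> rcases lt_or_gt_of_ne hy0 with h2 | h2
      · exact absurd (by rw [sign_neg h1, sign_neg h2]) hne
      · exact mul_neg_of_neg_of_pos h1 h2
      · exact mul_neg_of_pos_of_neg h1 h2
      · exact absurd (by rw [sign_pos h1, sign_pos h2]) hne
    obtain ⟨t, h1, h2, h3⟩ := exists_root_between P hxy this
    exact h t (hI.out hx hy ⟨h1.le, h2.le⟩) h3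
  rcases lt_trichotomy x y with hxy | hxy | hxy
  · exact key x y hx hy hxy hne
  · exact hne (by rw [hxy])
  · exact key y x hy hx hxy (fun h => hne h.symm)

/-- Rolle between consecutive roots -/
lemma aux213_rolle_consec (P : K[X]) (hP : P ≠ 0) {a b : K} (hab : a < b) (ha : P.eval a = 0)
    (hb : P.eval b = 0) (hno : ∀ t, a < t → t < b → P.eval t ≠ 0) :
    ∃ c, a < c ∧ c < b ∧ P.derivative.eval c = 0 := by
  obtain ⟨q, hq, hqa⟩ := exists_eq_pow_rootMultiplicity_mul_and_not_dvd P hP a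
  have hm : 0 < rootMultiplicity a P := (rootMultiplicity_pos hP).2 ha
  obtain ⟨m, hm'⟩ : ∃ m, rootMultiplicity a P = m + 1 := ⟨_, (Nat.succ_pred_eq_of_pos hm).symm⟩
  rw [hm'] at hq
  have hq0 : q ≠ 0 := by
    rintro rfl
    rw [mul_zero] at hq
    exact hP hq
  have hba : b - a ≠ 0 := sub_ne_zero.2 hab.ne'
  have hqb : q.eval b = 0 := by
    rw [hq] at hb
    simp only [eval_mul, eval_pow, eval_sub, eval_X, eval_C] at hb
    rcases mul_eq_zero.1 hb with h | h
    · exact absurd (pow_eq_zero_iff (by omega) |>.1 h) hba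
    · exact h
  obtain ⟨Q, hQ, hQb⟩ := exists_eq_pow_rootMultiplicity_mul_and_not_dvd q hq0 b
  have hn : 0 < rootMultiplicity b q := (rootMultiplicity_pos hq0).2 hqb
  obtain ⟨n, hn'⟩ : ∃ n, rootMultiplicity b q = n + 1 := ⟨_, (Nat.succ_pred_eq_of_pos hn).symm⟩
  rw [hn'] at hQ
  have hQb' : Q.eval b ≠ 0 := fun h => hQb (dvd_iff_isRoot.2 h)
  have hQa' : Q.eval a ≠ 0 := by
    intro h
    apply hqa
    rw [dvd_iff_isRoot, IsRoot, hQ]
    simp [h]
  have hPQ : P = (X - C a) ^ (m + 1) * ((X - C b) ^ (n + 1) * Q) := by rw [hq]; rw [← hQ]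
  have hQne : ∀ t ∈ Icc a b, Q.eval t ≠ 0 := by
    intro t ht h0
    rcases eq_or_lt_of_le ht.1 with h1 | h1
    · exact hQa' (by rw [h1]; exact h0)
    · rcases eq_or_lt_of_le ht.2 with h2 | h2
      · exact hQb' (by rw [← h2]; exact h0)
      · apply hno t h1 h2
        rw [hPQ]
        simp [h0]
  have hsign := sign_const Q (ordConnected_Icc (a := a) (b := b)) hQne
    (left_mem_Icc.2 hab.le) (right_mem_Icc.2 hab.le)
  have hQQ : 0 < Q.eval a * Q.eval b := by
    rcases lt_or_gt_of_ne hQa' with h | h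
    · have h2 : Q.eval b < 0 := by
        rw [sign_neg h, eq_comm, sign_eq_neg_one_iff] at hsign
        exact hsign
      exact mul_pos_of_neg_of_neg h h2
    · have h2 : 0 < Q.eval b := by
        rw [sign_pos h, eq_comm, sign_eq_one_iff] at hsign
        exact hsign
      exact mul_pos h h2
  set Q₁ : K[X] := C ((m : K) + 1) * (X - C b) * Q + C ((n : K) + 1) * (X - C a) * Q
    + (X - C a) * (X - C b) * derivative Q with hQ₁
  have hder : derivative P = (X - C a) ^ m * (X - C b) ^ n * Q₁ := by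
    rw [hPQ, derivative_mul, derivative_mul, derivative_pow, derivative_pow]
    simp only [derivative_sub, derivative_X, derivative_C, sub_zero, mul_one, Nat.add_sub_cancel]
    rw [hQ₁]
    push_cast
    simp only [map_add, map_natCast, map_one]
    ring
  have h1 : Q₁.eval a * Q₁.eval b < 0 := by
    have e1 : Q₁.eval a = ((m : K) + 1) * (a - b) * Q.eval a := by
      rw [hQ₁]
      simp
    have e2 : Q₁.eval b = ((n : K) + 1) * (b - a) * Q.eval b := by
      rw [hQ₁]
      simp
    rw [e1, e2]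
    have e3 : ((m : K) + 1) * (a - b) * Q.eval a * (((n : K) + 1) * (b - a) * Q.eval b)
        = -((((m : K) + 1) * ((n : K) + 1)) * ((b - a) * (b - a)) * (Q.eval a * Q.eval b)) := by
      ring
    rw [e3]
    have h5 : 0 < b - a := sub_pos.2 hab
    have : 0 < (((m : K) + 1) * ((n : K) + 1)) * ((b - a) * (b - a)) * (Q.eval a * Q.eval b) := by
      positivity
    linarith
  obtain ⟨c, hc1, hc2, hc3⟩ := exists_root_between Q₁ hab h1
  exact ⟨c, hc1, hc2, by rw [hder, eval_mul, hc3, mul_zero]⟩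

/-- Rolle over a real closed field -/
lemma aux213_rolle (P : K[X]) (hP : P ≠ 0) {a b : K} (hab : a < b) (ha : P.eval a = 0)
    (hb : P.eval b = 0) : ∃ c, a < c ∧ c < b ∧ P.derivative.eval c = 0 := by
  classical
  obtain ⟨b', hb', hmin⟩ := Finset.exists_min_image (P.roots.toFinset.filter (a < ·)) id
    ⟨b, by simp [hab, hP, hb]⟩
  simp only [Finset.mem_filter, Multiset.mem_toFinset, mem_roots hP, IsRoot, id] at hb' hmin
  have hb'b : b' ≤ b := hmin b ⟨hb, hab⟩
  obtain ⟨c, hc1, hc2, hc3⟩ := aux213_rolle_consec P hP hb'.2 ha hb'.1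
    (fun t h1 h2 h3 => absurd (hmin t ⟨h3, h1⟩) (not_le.2 h2))
  exact ⟨c, hc1, hc2.trans_le hb'b, hc3⟩

/-- mean value theorem over a real closed field -/
lemma aux213_mvt (P : K[X]) {a b : K} (hab : a < b) :
    ∃ c, a < c ∧ c < b ∧ P.eval b - P.eval a = (b - a) * P.derivative.eval c := by
  have hba : b - a ≠ 0 := sub_ne_zero.2 hab.ne'
  set R : K[X] := C (b - a) * (P - C (P.eval a)) - C (P.eval b - P.eval a) * (X - C a) with hR
  have hRa : R.eval a = 0 := by rw [hR]; simp
  have hRb : R.eval b = 0 := by rw [hR]; simp; ring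
  have hRd : ∀ c, R.derivative.eval c = (b - a) * P.derivative.eval c - (P.eval b - P.eval a) := by
    intro c
    rw [hR]
    simp
  by_cases hR0 : R = 0
  · refine ⟨(a + b) / 2, by linarith, by linarith, ?_⟩
    have := hRd ((a + b) / 2)
    rw [hR0] at this
    simp only [derivative_zero, eval_zero] at this
    linarith
  · obtain ⟨c, hc1, hc2, hc3⟩ := aux213_rolle R hR0 hab hRa hRb
    rw [hRd] at hc3
    exact ⟨c, hc1, hc2, by linarith⟩

/-- strictly monotone on a closed interval if the derivative has no zero inside -/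
lemma strict_of_deriv (P : K[X]) {a b : K} (h : ∀ t, a < t → t < b → P.derivative.eval t ≠ 0) :
    StrictMonoOn (fun t => P.eval t) (Icc a b) ∨ StrictAntiOn (fun t => P.eval t) (Icc a b) := by
  rcases lt_or_ge a b with hab | hab
  · have hmid : (a + b) / 2 ∈ Ioo a b := ⟨by linarith, by linarith⟩
    have hne : ∀ t ∈ Ioo a b, P.derivative.eval t ≠ 0 := fun t ht => h t ht.1 ht.2
    rcases lt_or_gt_of_ne (hne _ hmid) with h0 | h0
    · right
      intro x hx y hy hxy
      obtain ⟨c, hc1, hc2, hc3⟩ := aux213_mvt P hxy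
      have hc : c ∈ Ioo a b := ⟨hx.1.trans_lt hc1, hc2.trans_le hy.2⟩
      have hs := sign_const P.derivative ordConnected_Ioo hne hc hmid
      rw [sign_neg h0, sign_eq_neg_one_iff] at hs
      have h5 : 0 < y - x := sub_pos.2 hxy
      have := mul_neg_of_pos_of_neg h5 hs
      simp only
      linarith
    · left
      intro x hx y hy hxy
      obtain ⟨c, hc1, hc2, hc3⟩ := aux213_mvt P hxy
      have hc : c ∈ Ioo a b := ⟨hx.1.trans_lt hc1, hc2.trans_le hy.2⟩
      have hs := sign_const P.derivative ordConnected_Ioo hne hc hmid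
      rw [sign_pos h0, sign_eq_one_iff] at hs
      have h5 : 0 < y - x := sub_pos.2 hxy
      have := mul_pos h5 hs
      simp only
      linarith
  · left
    intro x hx y hy hxy
    exact absurd (hxy.trans_le (hy.2.trans hab)) (not_lt.2 hx.1)

/-- classification of the position of a root which is not a root of the derivative -/
lemma root_cases (P : K[X]) (hP : P ≠ 0) (Z : Finset K)
    (hZ : ∀ t, t ∉ Z → P.derivative.eval t ≠ 0) {t : K} (ht : t ∉ Z) (h0 : P.eval t = 0) :
    (∃ a ∈ Z, ∃ b ∈ Z, a < t ∧ t < b ∧ (∀ z ∈ Z, ¬ (a < z ∧ z < b)) ∧ P.eval a * P.eval b < 0) ∨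
    (∃ a ∈ Z, a < t ∧ (∀ z ∈ Z, ¬ a < z) ∧ P.eval a * P.leadingCoeff < 0) ∨
    (∃ b ∈ Z, t < b ∧ (∀ z ∈ Z, ¬ z < b) ∧
      P.eval b * ((-1) ^ P.natDegree * P.leadingCoeff) < 0) ∨
    ((∀ z, z ∉ Z) ∧ ((-1) ^ P.natDegree * P.leadingCoeff) * P.leadingCoeff < 0) := by
  rcases aux213_comp_left Z t with ⟨a, ha, hat, hamax⟩ | hL <;>
  rcases aux213_comp_right Z t with ⟨b, hb, htb, hbmin⟩ | hR
  · left
    have hgap : ∀ z ∈ Z, ¬ (a < z ∧ z < b) := by
      rintro z hz ⟨h1, h2⟩
      rcases lt_trichotomy z t with h | h | h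
      · exact absurd (hamax z hz h) (not_le.2 h1)
      · exact ht (h ▸ hz)
      · exact absurd (hbmin z hz h) (not_le.2 h2)
    refine ⟨a, ha, b, hb, hat, htb, hgap, ?_⟩
    have hs := strict_of_deriv P (a := a) (b := b) (fun s hs1 hs2 =>
      hZ s fun hz => hgap s hz ⟨hs1, hs2⟩)
    exact aux213_strict_signs P hs ⟨le_rfl, (hat.trans htb).le⟩ ⟨hat.le, htb.le⟩
      ⟨(hat.trans htb).le, le_rfl⟩ hat htb h0
  · right; left
    have hgap : ∀ z ∈ Z, ¬ a < z := by
      intro z hz h1
      rcases lt_trichotomy z t with h | h | h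
      · exact absurd (hamax z hz h) (not_le.2 h1)
      · exact ht (h ▸ hz)
      · exact hR z hz h
    refine ⟨a, ha, hat, hgap, ?_⟩
    obtain ⟨s, h2, h1⟩ := exists_sign_atTop P hP t
    have hs := strict_of_deriv P (a := a) (b := s) (fun r hr1 _ =>
      hZ r fun hz => hgap r hz hr1)
    exact aux213_sign_mul_neg h1 (aux213_strict_signs P hs ⟨le_rfl, (hat.trans h2).le⟩
      ⟨hat.le, h2.le⟩ ⟨(hat.trans h2).le, le_rfl⟩ hat h2 h0)
  · right; right; left
    have hgap : ∀ z ∈ Z, ¬ z < b := by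
      intro z hz h1
      rcases lt_trichotomy z t with h | h | h
      · exact hL z hz h
      · exact ht (h ▸ hz)
      · exact absurd (hbmin z hz h) (not_le.2 h1)
    refine ⟨b, hb, htb, hgap, ?_⟩
    obtain ⟨s, h2, h1⟩ := exists_sign_atBot P hP t
    have hs := strict_of_deriv P (a := s) (b := b) (fun r _ hr2 =>
      hZ r fun hz => hgap r hz hr2)
    refine aux213_sign_mul_neg h1 ?_
    rw [mul_comm]
    exact aux213_strict_signs P hs ⟨le_rfl, (h2.trans htb).le⟩ ⟨h2.le, htb.le⟩
      ⟨(h2.trans htb).le, le_rfl⟩ h2 htb h0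
  · right; right; right
    have hgap : ∀ z, z ∉ Z := by
      intro z hz
      rcases lt_trichotomy z t with h | h | h
      · exact hL z hz h
      · exact ht (h ▸ hz)
      · exact hR z hz h
    refine ⟨hgap, ?_⟩
    obtain ⟨s, h2, h1⟩ := exists_sign_atTop P hP t
    obtain ⟨s', h2', h1'⟩ := exists_sign_atBot P hP t
    have hs := strict_of_deriv P (a := s') (b := s) (fun r _ _ => hZ r (hgap r))
    have := aux213_strict_signs P hs ⟨le_rfl, (h2'.trans h2).le⟩ ⟨h2'.le, h2.le⟩
      ⟨(h2'.trans h2).le, le_rfl⟩ h2' h2 h0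
    have h3 := aux213_sign_mul_neg h1 this
    rw [mul_comm] at h3
    have h4 := aux213_sign_mul_neg h1' h3
    rwa [mul_comm] at h4

lemma root_right (P : K[X]) (hP : P ≠ 0) {a : K} (h : P.eval a * P.leadingCoeff < 0) :
    ∃ t, a < t ∧ P.eval t = 0 := by
  obtain ⟨s, h2, h1⟩ := exists_sign_atTop P hP a
  obtain ⟨t, h3, _, h5⟩ := exists_root_between P h2 (aux213_sign_mul_neg h1.symm h)
  exact ⟨t, h3, h5⟩

lemma root_left (P : K[X]) (hP : P ≠ 0) {b : K}
    (h : P.eval b * ((-1) ^ P.natDegree * P.leadingCoeff) < 0) :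
    ∃ t, t < b ∧ P.eval t = 0 := by
  obtain ⟨s, h2, h1⟩ := exists_sign_atBot P hP b
  obtain ⟨t, _, h4, h5⟩ := exists_root_between P h2
    (by rw [mul_comm]; exact aux213_sign_mul_neg h1.symm h)
  exact ⟨t, h4, h5⟩

lemma root_all (P : K[X]) (hP : P ≠ 0)
    (h : ((-1) ^ P.natDegree * P.leadingCoeff) * P.leadingCoeff < 0) :
    ∃ t, P.eval t = 0 := by
  obtain ⟨s, h2, h1⟩ := exists_sign_atTop P hP 0
  have h3 := aux213_sign_mul_neg h1.symm h
  rw [mul_comm] at h3
  obtain ⟨t, _, h5⟩ := root_left P hP h3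
  exact ⟨t, h5⟩

end Pool.Agent.Helper716_Lang.RC
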