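import Pool.Agent.Helper716_Lang.RCPoly

/-!
# Tarski-Seidenberg, uniformly over all real closed fields (job RCF-2)

Port of the starting-library files `Pool/Agent/H581R2/{SA,Spec,QE}.lean` from the reals to all real closed fields:
points are pairs of a model and a tuple in it, and a predicate is `SAP` if it depends only on the signs of finitely
many rational polynomials, across models.
-/

set_option autoImplicit false

namespace Pool.Agent.Helper716_Lang.RC

open MvPolynomial

/-- real closed fields, bundled -/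
structure Model where
  F : Type
  [field : Field F]
  [lo : LinearOrder F]
  [sor : IsStrictOrderedRing F]
  [rc : IsRealClosed F]

attribute [instance] Model.field Model.lo Model.sor Model.rc

/-- points over all models -/
def Pt (ι : Type) : Type 1 := Σ M : Model, (ι → M.F)

variable {ι κ : Type}

/-- polynomial functions with rational coefficients -/
def PF (f : (v : Pt ι) → v.1.F) : Prop := ∃ q : MvPolynomial ι ℚ, ∀ v, f v = aeval v.2 q

/-- predicates depending only on the signs of finitely many rational polynomials -/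
def SAP (p : Pt ι → Prop) : Prop :=
  ∃ Q : Finset (MvPolynomial ι ℚ), ∀ v w : Pt ι,
    (∀ q ∈ Q, SignType.sign (aeval v.2 q) = SignType.sign (aeval w.2 q)) → p v → p w

/-- add a coordinate -/
def ext {M : Model} (t : M.F) (v : ι → M.F) : Option ι → M.F := fun o => o.elim t v

@[simp] lemma ext_none {M : Model} (t : M.F) (v : ι → M.F) : ext t v none = t := rfl
@[simp] lemma ext_some {M : Model} (t : M.F) (v : ι → M.F) (i : ι) : ext t v (some i) = v i := rfl

/-! ### Polynomial functions -/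

lemma PF.aeval (q : MvPolynomial ι ℚ) : PF (fun v : Pt ι => MvPolynomial.aeval v.2 q) :=
  ⟨q, fun _ => rfl⟩

lemma PF.coord (i : ι) : PF (fun v : Pt ι => v.2 i) := ⟨X i, fun v => by simp⟩

lemma PF.const (r : ℚ) : PF (fun v : Pt ι => (r : v.1.F)) := ⟨C r, fun v => by simp⟩

lemma PF.zero : PF (fun v : Pt ι => (0 : v.1.F)) := ⟨0, fun v => by simp⟩

lemma PF.one : PF (fun v : Pt ι => (1 : v.1.F)) := ⟨1, fun v => by simp⟩

lemma PF.add {f g : (v : Pt ι) → v.1.F} (hf : PF f) (hg : PF g) : PF (fun v => f v + g v) := by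
  obtain ⟨p, hp⟩ := hf
  obtain ⟨q, hq⟩ := hg
  exact ⟨p + q, fun v => by simp [hp, hq]⟩

lemma PF.sub {f g : (v : Pt ι) → v.1.F} (hf : PF f) (hg : PF g) : PF (fun v => f v - g v) := by
  obtain ⟨p, hp⟩ := hf
  obtain ⟨q, hq⟩ := hg
  exact ⟨p - q, fun v => by simp [hp, hq]⟩

lemma PF.neg {f : (v : Pt ι) → v.1.F} (hf : PF f) : PF (fun v => - f v) := by
  obtain ⟨p, hp⟩ := hf
  exact ⟨-p, fun v => by simp [hp]⟩

lemma PF.mul {f g : (v : Pt ι) → v.1.F} (hf : PF f) (hg : PF g) : PF (fun v => f v * g v) := by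
  obtain ⟨p, hp⟩ := hf
  obtain ⟨q, hq⟩ := hg
  exact ⟨p * q, fun v => by simp [hp, hq]⟩

lemma PF.pow {f : (v : Pt ι) → v.1.F} (hf : PF f) (n : ℕ) : PF (fun v => f v ^ n) := by
  obtain ⟨p, hp⟩ := hf
  exact ⟨p ^ n, fun v => by simp [hp]⟩

lemma PF.sum {α : Type*} (s : Finset α) {f : α → (v : Pt ι) → v.1.F} (hf : ∀ a ∈ s, PF (f a)) :
    PF (fun v => ∑ a ∈ s, f a v) := by
  classical
  induction s using Finset.induction_on with
  | empty => simpa using PF.zero
  | insert a s ha ih =>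
    have : (fun v => ∑ b ∈ insert a s, f b v) = fun v => f a v + ∑ b ∈ s, f b v := by
      funext v; rw [Finset.sum_insert ha]
    rw [this]
    exact (hf a (by simp)).add (ih fun b hb => hf b (by simp [hb]))

/-- substitution of polynomial functions in a polynomial function -/
lemma PF.comp {f : (v : Pt κ) → v.1.F} (hf : PF f) {φ : (w : Pt ι) → κ → w.1.F}
    (hφ : ∀ k, PF (fun v => φ v k)) : PF (fun v : Pt ι => f ⟨v.1, φ v⟩) := by
  obtain ⟨p, hp⟩ := hf
  choose r hr using hφ
  refine ⟨bind₁ r p, fun v => (hp ⟨v.1, φ v⟩).trans ?_⟩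
  show MvPolynomial.aeval (φ v) p = _
  rw [aeval_bind₁]
  congr 2
  funext k
  exact hr k v

/-! ### Semialgebraic predicates -/

lemma SAP.iff_def {p : Pt ι → Prop} (h : SAP p) :
    ∃ Q : Finset (MvPolynomial ι ℚ), ∀ v w : Pt ι,
    (∀ q ∈ Q, SignType.sign (MvPolynomial.aeval v.2 q) = SignType.sign (MvPolynomial.aeval w.2 q)) →
      (p v ↔ p w) := by
  obtain ⟨Q, hQ⟩ := h
  exact ⟨Q, fun v w h => ⟨hQ v w h, hQ w v fun q hq => (h q hq).symm⟩⟩

lemma SAP.not {p : Pt ι → Prop} (hp : SAP p) : SAP (fun v => ¬ p v) := by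
  obtain ⟨Q, hQ⟩ := hp.iff_def
  exact ⟨Q, fun v w h hv hw => hv ((hQ v w h).2 hw)⟩

lemma SAP.and {p q : Pt ι → Prop} (hp : SAP p) (hq : SAP q) : SAP (fun v => p v ∧ q v) := by
  classical
  obtain ⟨Q, hQ⟩ := hp
  obtain ⟨R, hR⟩ := hq
  refine ⟨Q ∪ R, fun v w h hv => ⟨hQ v w (fun q hq => h q ?_) hv.1, hR v w (fun q hq => h q ?_) hv.2⟩⟩
  · simp [hq]
  · simp [hq]

lemma SAP.congr {p q : Pt ι → Prop} (hp : SAP p) (h : ∀ v, q v ↔ p v) : SAP q := by
  have : q = p := funext fun v => propext (h v)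
  rwa [this]

lemma SAP.or {p q : Pt ι → Prop} (hp : SAP p) (hq : SAP q) : SAP (fun v => p v ∨ q v) :=
  (hp.not.and hq.not).not.congr fun v => by tauto

lemma SAP.imp {p q : Pt ι → Prop} (hp : SAP p) (hq : SAP q) : SAP (fun v => p v → q v) :=
  (hp.not.or hq).congr fun v => by tauto

lemma SAP.iff {p q : Pt ι → Prop} (hp : SAP p) (hq : SAP q) : SAP (fun v => p v ↔ q v) :=
  ((hp.imp hq).and (hq.imp hp)).congr fun v => by tauto

lemma SAP.const (P : Prop) : SAP (fun _ : Pt ι => P) := by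
  by_cases h : P
  · exact ⟨∅, fun _ _ _ _ => h⟩
  · exact ⟨∅, fun _ _ _ h' => absurd h' h⟩

lemma SAP.exists_mem {α : Type*} (s : Finset α) {p : α → Pt ι → Prop}
    (h : ∀ a ∈ s, SAP (p a)) : SAP (fun v => ∃ a ∈ s, p a v) := by
  classical
  induction s using Finset.induction_on with
  | empty => exact SAP.congr (SAP.const False) (by simp)
  | insert a s ha ih =>
    exact SAP.congr ((h a (by simp)).or (ih fun b hb => h b (by simp [hb]))) (by simp)

lemma SAP.forall_mem {α : Type*} (s : Finset α) {p : α → Pt ι → Prop}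
    (h : ∀ a ∈ s, SAP (p a)) : SAP (fun v => ∀ a ∈ s, p a v) := by
  classical
  induction s using Finset.induction_on with
  | empty => exact SAP.congr (SAP.const True) (by simp)
  | insert a s ha ih =>
    exact SAP.congr ((h a (by simp)).and (ih fun b hb => h b (by simp [hb]))) (by simp)

lemma SAP.exists_fin {α : Type*} [Finite α] {p : α → Pt ι → Prop}
    (h : ∀ a, SAP (p a)) : SAP (fun v => ∃ a, p a v) := by
  classical
  have := Fintype.ofFinite α
  exact SAP.congr (SAP.exists_mem Finset.univ fun a _ => h a) (by simp)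

lemma SAP.sign_eq {f : (v : Pt ι) → v.1.F} (hf : PF f) (s : SignType) :
    SAP (fun v => SignType.sign (f v) = s) := by
  obtain ⟨q, hq⟩ := hf
  refine ⟨{q}, fun v w h hv => ?_⟩
  have := h q (by simp)
  simp only [hq] at hv ⊢
  rw [← this, hv]

lemma SAP.pos {f : (v : Pt ι) → v.1.F} (hf : PF f) : SAP (fun v => 0 < f v) :=
  (SAP.sign_eq hf 1).congr fun v => by rw [sign_eq_one_iff]

lemma SAP.eq_zero {f : (v : Pt ι) → v.1.F} (hf : PF f) : SAP (fun v => f v = 0) :=
  (SAP.sign_eq hf 0).congr fun v => by rw [sign_eq_zero_iff]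

lemma SAP.lt {f g : (v : Pt ι) → v.1.F} (hf : PF f) (hg : PF g) : SAP (fun v => f v < g v) :=
  (SAP.pos (hg.sub hf)).congr fun v => by rw [sub_pos]

lemma SAP.le {f g : (v : Pt ι) → v.1.F} (hf : PF f) (hg : PF g) : SAP (fun v => f v ≤ g v) :=
  (SAP.lt hg hf).not.congr fun v => by rw [not_lt]

lemma SAP.eq {f g : (v : Pt ι) → v.1.F} (hf : PF f) (hg : PF g) : SAP (fun v => f v = g v) :=
  (SAP.eq_zero (hf.sub hg)).congr fun v => by rw [sub_eq_zero]

/-- preimages under polynomial maps -/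
lemma SAP.preimage {p : Pt κ → Prop} (hp : SAP p) {φ : (w : Pt ι) → κ → w.1.F}
    (hφ : ∀ k, PF (fun v => φ v k)) : SAP (fun v : Pt ι => p ⟨v.1, φ v⟩) := by
  classical
  obtain ⟨Q, hQ⟩ := hp
  choose r hr using hφ
  have key : ∀ (v : Pt ι) (q : MvPolynomial κ ℚ),
      MvPolynomial.aeval (φ v) q = MvPolynomial.aeval v.2 (bind₁ r q) := by
    intro v q
    rw [aeval_bind₁]
    congr 2
    funext k
    exact hr k v
  refine ⟨Q.image (bind₁ r), fun v w h hv => ?_⟩
  refine hQ ⟨v.1, φ v⟩ ⟨w.1, φ w⟩ (fun q hq => ?_) hv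
  show SignType.sign (MvPolynomial.aeval (φ v) q) = SignType.sign (MvPolynomial.aeval (φ w) q)
  rw [key, key]
  exact h _ (Finset.mem_image_of_mem _ hq)

end Pool.Agent.Helper716_Lang.RC

/-! ### Univariate polynomials with polynomial coefficients, and their specialisations -/

namespace Pool.Agent.Helper716_Lang.RC

open Polynomial

variable {ι κ : Type}

/-- polynomials in one variable whose coefficients are polynomials in the parameters -/
abbrev UP (ι : Type) : Type := Polynomial (MvPolynomial ι ℚ)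

/-- specialisation of the parameters -/
noncomputable def spec {M : Model} (v : ι → M.F) (F : UP ι) : M.F[X] :=
  F.map ((MvPolynomial.aeval v : MvPolynomial ι ℚ →ₐ[ℚ] M.F) : MvPolynomial ι ℚ →+* M.F)

@[simp] lemma spec_coeff {M : Model} (v : ι → M.F) (F : UP ι) (i : ℕ) :
    (spec v F).coeff i = MvPolynomial.aeval v (F.coeff i) := by
  simp [spec, Polynomial.coeff_map]

lemma spec_derivative {M : Model} (v : ι → M.F) (F : UP ι) :
    spec v (derivative F) = derivative (spec v F) := by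
  simp [spec, Polynomial.derivative_map]

lemma spec_eval {M : Model} (v : ι → M.F) (F : UP ι) (t : M.F) :
    (spec v F).eval t =
      ∑ i ∈ Finset.range (F.natDegree + 1), MvPolynomial.aeval v (F.coeff i) * t ^ i := by
  rw [spec, Polynomial.eval_map, Polynomial.eval₂_eq_sum_range]
  rfl

lemma spec_eq_zero_iff {M : Model} (v : ι → M.F) (F : UP ι) :
    spec v F = 0 ↔ ∀ i ∈ Finset.range (F.natDegree + 1), MvPolynomial.aeval v (F.coeff i) = 0 := by
  constructor
  · intro h i _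
    have := congrArg (fun p => p.coeff i) h
    simpa using this
  · intro h
    ext i
    by_cases hi : i < F.natDegree + 1
    · simpa using h i (Finset.mem_range.2 hi)
    · simp [Polynomial.coeff_eq_zero_of_natDegree_lt (show F.natDegree < i by omega)]

/-- the value of a specialised polynomial is a polynomial function -/
lemma PF.spec_eval {φ : (w : Pt κ) → ι → w.1.F} (hφ : ∀ i, PF (fun w => φ w i)) (F : UP ι)
    {f : (w : Pt κ) → w.1.F} (hf : PF f) : PF (fun w => (spec (φ w) F).eval (f w)) := by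
  have : (fun w : Pt κ => (spec (φ w) F).eval (f w)) = fun w =>
      ∑ i ∈ Finset.range (F.natDegree + 1), MvPolynomial.aeval (φ w) (F.coeff i) * (f w) ^ i := by
    funext w
    rw [Pool.Agent.Helper716_Lang.RC.spec_eval]
  rw [this]
  exact PF.sum _ fun i _ => ((PF.aeval (F.coeff i)).comp hφ).mul (hf.pow i)

lemma PF.spec_coeff {φ : (w : Pt κ) → ι → w.1.F} (hφ : ∀ i, PF (fun w => φ w i)) (F : UP ι)
    (i : ℕ) : PF (fun w => (spec (φ w) F).coeff i) := by
  have : (fun w : Pt κ => (spec (φ w) F).coeff i) =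
      fun w => MvPolynomial.aeval (φ w) (F.coeff i) := by
    funext w
    simp
  rw [this]
  exact (PF.aeval (F.coeff i)).comp hφ

lemma SAP.spec_ne_zero {φ : (w : Pt κ) → ι → w.1.F} (hφ : ∀ i, PF (fun w => φ w i)) (F : UP ι) :
    SAP (fun w => spec (φ w) F ≠ 0) := by
  refine SAP.not ?_
  refine SAP.congr (SAP.forall_mem (Finset.range (F.natDegree + 1))
    (p := fun i w => MvPolynomial.aeval (φ w) (F.coeff i) = 0) fun i _ => ?_)
    (fun w => spec_eq_zero_iff (φ w) F)
  exact SAP.eq_zero ((PF.aeval (F.coeff i)).comp hφ)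

/-- pull back of the parameters along a polynomial map -/
lemma exists_pull {φ : (w : Pt κ) → ι → w.1.F} (hφ : ∀ i, PF (fun w => φ w i)) (F : UP ι) :
    ∃ G : UP κ, G.degree ≤ F.degree ∧ ∀ w : Pt κ, spec w.2 G = spec (φ w) F := by
  choose r hr using hφ
  refine ⟨F.map ((MvPolynomial.bind₁ r : MvPolynomial ι ℚ →ₐ[ℚ] MvPolynomial κ ℚ) :
    MvPolynomial ι ℚ →+* MvPolynomial κ ℚ), Polynomial.degree_map_le, fun w => ?_⟩
  ext i
  simp only [spec_coeff, Polynomial.coeff_map, RingHom.coe_coe]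
  rw [MvPolynomial.aeval_bind₁]
  congr 2
  funext k
  exact (hr k w).symm

/-- a polynomial in the variables `Option ι` as a univariate polynomial -/
lemma exists_univ (q : MvPolynomial (Option ι) ℚ) :
    ∃ F : UP ι, ∀ {M : Model} (v : ι → M.F) (t : M.F),
      MvPolynomial.aeval (ext t v) q = (spec v F).eval t := by
  refine ⟨MvPolynomial.optionEquivLeft ℚ ι q, fun {M} v t => ?_⟩
  induction q using MvPolynomial.induction_on with
  | C a => simp [spec, MvPolynomial.optionEquivLeft_C]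
  | add p q hp hq =>
    simp only [map_add, hp, hq, spec, Polynomial.map_add, Polynomial.eval_add]
  | mul_X p i hp =>
    rw [map_mul, hp, map_mul]
    simp only [spec, Polynomial.map_mul, Polynomial.eval_mul]
    congr 1
    cases i with
    | none => simp [MvPolynomial.optionEquivLeft_X_none]
    | some i => simp [MvPolynomial.optionEquivLeft_X_some]

/-- the finite set of all zeros of the nonzero specialisations of a finite family -/
noncomputable def zset {M : Model} (G : Finset (UP ι)) (v : ι → M.F) : Finset M.F := by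
  classical exact G.biUnion fun g => (spec v g).roots.toFinset

lemma mem_zset {M : Model} (G : Finset (UP ι)) (v : ι → M.F) (z : M.F) :
    z ∈ zset G v ↔ ∃ g ∈ G, spec v g ≠ 0 ∧ (spec v g).eval z = 0 := by
  classical
  simp [zset, Polynomial.IsRoot.def]

section comp

variable {K : Type*} [LinearOrder K]

lemma comp_left (Z : Finset K) (t : K) :
    (∃ a ∈ Z, a < t ∧ ∀ z ∈ Z, z < t → z ≤ a) ∨ (∀ z ∈ Z, ¬ z < t) := by
  classical
  by_cases h : ∃ z ∈ Z, z < t
  · left
    obtain ⟨a, ha, hmax⟩ := Finset.exists_max_image (Z.filter (· < t)) id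
      (by obtain ⟨z, hz, hzt⟩ := h; exact ⟨z, by simp [hz, hzt]⟩)
    simp only [Finset.mem_filter, id] at ha hmax
    exact ⟨a, ha.1, ha.2, fun z hz hzt => hmax z ⟨hz, hzt⟩⟩
  · right
    push Not at h
    exact fun z hz => not_lt.2 (h z hz)

lemma comp_right (Z : Finset K) (t : K) :
    (∃ a ∈ Z, t < a ∧ ∀ z ∈ Z, t < z → a ≤ z) ∨ (∀ z ∈ Z, ¬ t < z) := by
  classical
  by_cases h : ∃ z ∈ Z, t < z
  · left
    obtain ⟨a, ha, hmin⟩ := Finset.exists_min_image (Z.filter (t < ·)) id
      (by obtain ⟨z, hz, hzt⟩ := h; exact ⟨z, by simp [hz, hzt]⟩)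
    simp only [Finset.mem_filter, id] at ha hmin
    exact ⟨a, ha.1, ha.2, fun z hz hzt => hmin z ⟨hz, hzt⟩⟩
  · right
    push Not at h
    exact fun z hz => not_lt.2 (h z hz)

end comp


/-! ### Elimination of one quantifier -/

/-- elimination of a quantifier bounded by an equation of degree `< d` -/
def H0 (d : ℕ) : Prop := ∀ (ι : Type) (F : UP ι), F.degree < d →
  ∀ p : Pt (Option ι) → Prop, SAP p →
  SAP (fun v : Pt ι => spec v.2 F ≠ 0 ∧ ∃ t : v.1.F, (spec v.2 F).eval t = 0 ∧ p ⟨v.1, ext t v.2⟩)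

/-- the same, with a substitution of the parameters -/
def HH (d : ℕ) : Prop := ∀ (κ ι : Type) (φ : (w : Pt κ) → ι → w.1.F), (∀ i, PF (fun w => φ w i)) →
  ∀ F : UP ι, F.degree < d → ∀ p : Pt (Option κ) → Prop, SAP p →
  SAP (fun w : Pt κ => spec (φ w) F ≠ 0 ∧ ∃ t : w.1.F, (spec (φ w) F).eval t = 0 ∧
    p ⟨w.1, ext t w.2⟩)

lemma HH_of_H0 {d : ℕ} (h : H0 d) : HH d := by
  intro κ ι φ hφ F hF p hp
  obtain ⟨G, hG, hs⟩ := exists_pull hφ F
  exact SAP.congr (h κ G (lt_of_le_of_lt hG hF) p hp) (fun w => by rw [hs])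

lemma exists_rem {ι : Type} (F : UP ι) (d : ℕ) (hF : F.degree < ((d + 2 : ℕ) : WithBot ℕ)) :
    ∀ (N : ℕ) (g : UP ι), g.degree < (N : WithBot ℕ) → ∃ r : UP ι,
      r.degree < ((d + 1 : ℕ) : WithBot ℕ) ∧
      ∀ {M : Model} (v : ι → M.F) (t : M.F), (spec v F).eval t = 0 →
        ∃ k : ℕ, ((spec v F).coeff (d + 1)) ^ (2 * k) * (spec v g).eval t =
          (spec v r).eval t := by
  intro N
  induction N with
  | zero =>
    intro g hg
    refine ⟨g, lt_of_lt_of_le hg (by exact_mod_cast Nat.zero_le _), fun v t _ => ⟨0, by simp⟩⟩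
  | succ M ih =>
    intro g hg
    by_cases hM : M + 1 ≤ d + 1
    · exact ⟨g, lt_of_lt_of_le hg (by exact_mod_cast hM), fun v t _ => ⟨0, by simp⟩⟩
    · have hM' : d + 1 ≤ M := by omega
      set a := F.coeff (d + 1) with ha
      set b := g.coeff M with hb
      set g2 : UP ι := C (a ^ 2) * g - C (a * b) * (X ^ (M - (d + 1)) * F) with hg2
      have hdeg : g2.degree < (M : WithBot ℕ) := by
        rw [Polynomial.degree_lt_iff_coeff_zero]
        intro m hm
        rw [hg2, Polynomial.coeff_sub, Polynomial.coeff_C_mul, Polynomial.coeff_C_mul,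
          Polynomial.coeff_X_pow_mul', if_pos (by omega)]
        rcases Nat.eq_or_lt_of_le hm with h | h
        · subst h
          rw [show M - (M - (d + 1)) = d + 1 by omega, ← ha, ← hb]
          ring
        · rw [Polynomial.coeff_eq_zero_of_degree_lt
            (lt_of_lt_of_le hg (by exact_mod_cast (show M + 1 ≤ m by omega))),
            Polynomial.coeff_eq_zero_of_degree_lt (lt_of_lt_of_le hF
              (by exact_mod_cast (show d + 2 ≤ m - (M - (d + 1)) by omega)))]
          simp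
      obtain ⟨r, hr, hr2⟩ := ih g2 hdeg
      refine ⟨r, hr, fun v t h0 => ?_⟩
      obtain ⟨k, hk⟩ := hr2 v t h0
      refine ⟨k + 1, ?_⟩
      rw [← hk]
      have : (spec v g2).eval t = ((spec v F).coeff (d + 1)) ^ 2 * (spec v g).eval t := by
        have h1 : spec v g2 = C (MvPolynomial.aeval v a ^ 2) * spec v g -
            C (MvPolynomial.aeval v a * MvPolynomial.aeval v b) *
              (X ^ (M - (d + 1)) * spec v F) := by
          simp [hg2, spec]
        rw [h1]
        simp only [eval_sub, eval_mul, eval_C, eval_pow, eval_X, h0, mul_zero, sub_zero]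
        rw [spec_coeff]
      rw [this]
      ring

lemma degree_lt_of_coeff {ι : Type} {F : UP ι} {d : ℕ} (hF : F.degree < ((d + 1 : ℕ) : WithBot ℕ))
    {m : ℕ} (hm : d + 1 ≤ m) : F.coeff m = 0 :=
  Polynomial.coeff_eq_zero_of_degree_lt (lt_of_lt_of_le hF (by exact_mod_cast hm))

section main

variable {ι : Type}

/-- no zeros of the family satisfying a condition -/
def NoRoot {κ : Type} (G : Finset (UP ι)) (φ : (w : Pt κ) → ι → w.1.F) (p : Pt (Option κ) → Prop)
    (w : Pt κ) : Prop :=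
  ∀ g ∈ G, ¬ (spec (φ w) g ≠ 0 ∧ ∃ c : w.1.F, (spec (φ w) g).eval c = 0 ∧ p ⟨w.1, ext c w.2⟩)

lemma noRoot_iff {κ : Type} (G : Finset (UP ι)) (φ : (w : Pt κ) → ι → w.1.F)
    (p : Pt (Option κ) → Prop) (w : Pt κ) :
    NoRoot G φ p w ↔ ∀ z ∈ zset G (φ w), ¬ p ⟨w.1, ext z w.2⟩ := by
  constructor
  · intro h z hz hp
    obtain ⟨g, hg, h1, h2⟩ := (mem_zset _ _ _).1 hz
    exact h g hg ⟨h1, z, h2, hp⟩
  · rintro h g hg ⟨h1, c, h2, hp⟩
    exact h c ((mem_zset _ _ _).2 ⟨g, hg, h1, h2⟩) hp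

/-- some zero of the family satisfying a condition -/
def HasRoot {κ : Type} (G : Finset (UP ι)) (φ : (w : Pt κ) → ι → w.1.F) (p : Pt (Option κ) → Prop)
    (w : Pt κ) : Prop :=
  ∃ g ∈ G, (spec (φ w) g ≠ 0 ∧ ∃ c : w.1.F, (spec (φ w) g).eval c = 0 ∧ p ⟨w.1, ext c w.2⟩)

lemma hasRoot_iff {κ : Type} (G : Finset (UP ι)) (φ : (w : Pt κ) → ι → w.1.F)
    (p : Pt (Option κ) → Prop) (w : Pt κ) :
    HasRoot G φ p w ↔ ∃ z ∈ zset G (φ w), p ⟨w.1, ext z w.2⟩ := by
  constructor
  · rintro ⟨g, hg, h1, c, h2, hp⟩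
    exact ⟨c, (mem_zset _ _ _).2 ⟨g, hg, h1, h2⟩, hp⟩
  · rintro ⟨z, hz, hp⟩
    obtain ⟨g, hg, h1, h2⟩ := (mem_zset _ _ _).1 hz
    exact ⟨g, hg, h1, z, h2, hp⟩

lemma SAP.hasRoot {d : ℕ} (h : HH d) {κ : Type} {G : Finset (UP ι)}
    (hG : ∀ g ∈ G, g.degree < (d : WithBot ℕ)) {φ : (w : Pt κ) → ι → w.1.F}
    (hφ : ∀ i, PF (fun w => φ w i)) {p : Pt (Option κ) → Prop} (hp : SAP p) :
    SAP (HasRoot G φ p) :=
  SAP.exists_mem G fun g hg => h κ ι φ hφ g (hG g hg) p hp

lemma SAP.noRoot {d : ℕ} (h : HH d) {κ : Type} {G : Finset (UP ι)}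
    (hG : ∀ g ∈ G, g.degree < (d : WithBot ℕ)) {φ : (w : Pt κ) → ι → w.1.F}
    (hφ : ∀ i, PF (fun w => φ w i)) {p : Pt (Option κ) → Prop} (hp : SAP p) :
    SAP (NoRoot G φ p) :=
  SAP.forall_mem G fun g hg => (h κ ι φ hφ g (hG g hg) p hp).not

/-- prescribed signs for a finite family at a point -/
def Sg {α : Type} (r : α → UP ι) (σ : α → SignType) {M : Model} (v : ι → M.F) (t : M.F) : Prop :=
  ∀ q, SignType.sign ((spec v (r q)).eval t) = σ q

lemma SAP.sg {α : Type} [Finite α] (r : α → UP ι) (σ : α → SignType) {κ : Type}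
    {φ : (w : Pt κ) → ι → w.1.F} (hφ : ∀ i, PF (fun w => φ w i)) {f : (w : Pt κ) → w.1.F}
    (hf : PF f) :
    SAP (fun w => Sg r σ (φ w) (f w)) := by
  have := Fintype.ofFinite α
  exact SAP.congr (SAP.forall_mem Finset.univ
    (p := fun q w => SignType.sign ((spec (φ w) (r q)).eval (f w)) = σ q)
    fun q _ => SAP.sign_eq (PF.spec_eval hφ (r q) hf) _) (fun w => by simp [Sg])

lemma Sg.transfer {α : Type} {r : α → UP ι} {σ : α → SignType} {G : Finset (UP ι)}
    (hr : ∀ q, r q ∈ G) {M : Model} {v : ι → M.F} {I : Set M.F} (hI : I.OrdConnected)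
    (hno : ∀ z ∈ zset G v, z ∉ I) {x y : M.F} (hx : x ∈ I) (hy : y ∈ I) (h : Sg r σ v x) :
    Sg r σ v y := by
  intro q
  rw [← h q]
  by_cases h0 : spec v (r q) = 0
  · simp [h0]
  · exact sign_const _ hI (fun t ht h1 => hno t ((mem_zset _ _ _).2 ⟨r q, hr q, h0, h1⟩) ht) hy hx

lemma main_step {α : Type} [Finite α] (d : ℕ) (h : HH (d + 1)) (F : UP ι)
    (hF : F.degree < ((d + 2 : ℕ) : WithBot ℕ)) (r : α → UP ι)
    (hr : ∀ q, (r q).degree < ((d + 1 : ℕ) : WithBot ℕ)) (σ : α → SignType) :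
    SAP (fun v : Pt ι => (spec v.2 F).coeff (d + 1) ≠ 0 ∧
      ∃ t : v.1.F, (spec v.2 F).eval t = 0 ∧ Sg r σ v.2 t) := by
  classical
  have := Fintype.ofFinite α
  set G : Finset (UP ι) := insert (derivative F) (Finset.univ.image r) with hG
  have hrG : ∀ q, r q ∈ G := fun q => by simp [hG]
  have hdG : derivative F ∈ G := by simp [hG]
  have hGdeg : ∀ g ∈ G, g.degree < ((d + 1 : ℕ) : WithBot ℕ) := by
    intro g hg
    rw [hG, Finset.mem_insert, Finset.mem_image] at hg
    rcases hg with rfl | ⟨q, _, rfl⟩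
    · rw [Polynomial.degree_lt_iff_coeff_zero]
      intro m hm
      rw [Polynomial.coeff_derivative, degree_lt_of_coeff hF (by omega)]
      simp
    · exact hr q
  -- substitutions
  let φ0 : (w : Pt ι) → ι → w.1.F := fun v => v.2
  let φ1 : (w : Pt (Option ι)) → ι → w.1.F := fun w i => w.2 (some i)
  let φ2 : (w : Pt (Option (Option ι))) → ι → w.1.F := fun w i => w.2 (some (some i))
  have h0 : ∀ i, PF (fun w => φ0 w i) := fun i => PF.coord i
  have h1 : ∀ i, PF (fun w => φ1 w i) := fun i => PF.coord (some i)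
  have h2 : ∀ i, PF (fun w => φ2 w i) := fun i => PF.coord (some (some i))
  -- leading coefficient
  let lc : {M : Model} → (ι → M.F) → M.F := fun {M} v => (spec v F).coeff (d + 1)
  -- the pieces
  let T1 : Pt ι → Prop := HasRoot G φ0 (fun w =>
    (spec (φ1 w) F).eval (w.2 none) = 0 ∧ Sg r σ (φ1 w) (w.2 none))
  let K1 : Pt ι → Prop := HasRoot G φ0 (HasRoot G φ1 (fun u =>
    u.2 (some none) < u.2 none ∧
    (spec (φ2 u) F).eval (u.2 (some none)) * (spec (φ2 u) F).eval (u.2 none) < 0 ∧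
    NoRoot G φ2 (fun x => x.2 (some (some none)) < x.2 none ∧ x.2 none < x.2 (some none)) u ∧
    Sg r σ (φ2 u) ((u.2 (some none) + u.2 none) * ((1 / 2 : ℚ) : u.1.F))))
  let K2 : Pt ι → Prop := HasRoot G φ0 (fun w =>
    (spec (φ1 w) F).eval (w.2 none) * lc (φ1 w) < 0 ∧
    NoRoot G φ1 (fun x => x.2 (some none) < x.2 none) w ∧
    Sg r σ (φ1 w) (w.2 none + 1))
  let K3 : Pt ι → Prop := HasRoot G φ0 (fun w =>
    (spec (φ1 w) F).eval (w.2 none) * ((((-1) ^ (d + 1) : ℚ) : w.1.F) * lc (φ1 w)) < 0 ∧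
    NoRoot G φ1 (fun x => x.2 none < x.2 (some none)) w ∧
    Sg r σ (φ1 w) (w.2 none - 1))
  let K4 : Pt ι → Prop := fun v =>
    ((((-1) ^ (d + 1) : ℚ) : v.1.F) * lc v.2) * lc v.2 < 0 ∧
    NoRoot G φ0 (fun _ => True) v ∧
    Sg r σ v.2 0
  have hlc : ∀ {κ : Type} {φ : (w : Pt κ) → ι → w.1.F}, (∀ i, PF (fun w => φ w i)) →
      PF (fun w => lc (φ w)) := fun hφ => PF.spec_coeff hφ F (d + 1)
  have hT1 : SAP T1 := SAP.hasRoot h hGdeg h0
    ((SAP.eq_zero (PF.spec_eval h1 F (PF.coord none))).and (SAP.sg r σ h1 (PF.coord none)))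
  have hK1 : SAP K1 := by
    refine SAP.hasRoot h hGdeg h0 (SAP.hasRoot h hGdeg h1 ?_)
    refine (SAP.lt (PF.coord _) (PF.coord _)).and ((SAP.lt ((PF.spec_eval h2 F (PF.coord _)).mul
      (PF.spec_eval h2 F (PF.coord _))) PF.zero).and ((SAP.noRoot h hGdeg h2 ?_).and ?_))
    · exact (SAP.lt (PF.coord _) (PF.coord _)).and (SAP.lt (PF.coord _) (PF.coord _))
    · exact SAP.sg r σ h2 (((PF.coord _).add (PF.coord _)).mul (PF.const _))
  have hK2 : SAP K2 := by
    refine SAP.hasRoot h hGdeg h0 ?_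
    refine (SAP.lt ((PF.spec_eval h1 F (PF.coord _)).mul (hlc h1)) PF.zero).and
      ((SAP.noRoot h hGdeg h1 (SAP.lt (PF.coord _) (PF.coord _))).and ?_)
    exact SAP.sg r σ h1 ((PF.coord _).add PF.one)
  have hK3 : SAP K3 := by
    refine SAP.hasRoot h hGdeg h0 ?_
    refine (SAP.lt ((PF.spec_eval h1 F (PF.coord _)).mul ((PF.const _).mul (hlc h1)))
      PF.zero).and ((SAP.noRoot h hGdeg h1 (SAP.lt (PF.coord _) (PF.coord _))).and ?_)
    exact SAP.sg r σ h1 ((PF.coord _).sub PF.one)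
  have hK4 : SAP K4 := by
    refine (SAP.lt (((PF.const _).mul (hlc h0)).mul (hlc h0)) PF.zero).and
      ((SAP.noRoot h hGdeg h0 (SAP.const True)).and ?_)
    exact SAP.sg r σ h0 PF.zero
  have hlc0 : SAP (fun v : Pt ι => lc v.2 ≠ 0) := (SAP.eq_zero (hlc h0)).not
  refine SAP.congr (hlc0.and (hT1.or (hK1.or (hK2.or (hK3.or hK4))))) fun v => ?_
  refine and_congr_right fun hv => ?_
  -- facts on `P`
  obtain ⟨M, v⟩ := v
  set P := spec v F with hP
  have hdeg : P.natDegree = d + 1 := by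
    refine Polynomial.natDegree_eq_of_le_of_coeff_ne_zero ?_ hv
    rw [Polynomial.natDegree_le_iff_coeff_eq_zero]
    intro N hN
    rw [hP, spec_coeff, Polynomial.coeff_eq_zero_of_degree_lt (lt_of_lt_of_le hF
      (by exact_mod_cast (show d + 2 ≤ N by omega)))]
    simp
  have hlcP : P.leadingCoeff = lc v := by rw [Polynomial.leadingCoeff, hdeg]
  have hP0 : P ≠ 0 := by
    intro h0
    apply hv
    show P.coeff (d + 1) = 0
    rw [h0]
    simp
  have hder0 : derivative P ≠ 0 := by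
    intro h0
    have := Polynomial.derivative_eq_zero.1 h0
    omega
  have hZ : ∀ t, t ∉ zset G v → P.derivative.eval t ≠ 0 := by
    intro t ht h0
    apply ht
    rw [mem_zset]
    refine ⟨derivative F, hdG, ?_, ?_⟩
    · rw [spec_derivative]; exact hder0
    · rw [spec_derivative]; exact h0
  have hsgn : (((-1) ^ (d + 1) : ℚ) : M.F) * lc v = (-1) ^ P.natDegree * P.leadingCoeff := by
    rw [hdeg, hlcP]
    push_cast
    rfl
  constructor
  · rintro ⟨t, ht0, hsg⟩
    by_cases htZ : t ∈ zset G v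
    · left
      exact (hasRoot_iff _ _ _ _).2 ⟨t, htZ, ht0, hsg⟩
    · right
      rcases root_cases P hP0 (zset G v) hZ htZ ht0 with
        ⟨a, ha, b, hb, hat, htb, hgap, hneg⟩ | ⟨a, ha, hat, hgap, hneg⟩ |
        ⟨b, hb, htb, hgap, hneg⟩ | ⟨hgap, hneg⟩
      · left
        refine (hasRoot_iff _ _ _ _).2 ⟨a, ha, (hasRoot_iff _ _ _ _).2 ⟨b, hb, ?_, ?_, ?_, ?_⟩⟩
        · exact hat.trans htb
        · exact hneg
        · exact (noRoot_iff _ _ _ _).2 fun z hz => hgap z hz
        · refine Sg.transfer hrG (I := Set.Ioo a b) Set.ordConnected_Ioo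
            (fun z hz hzI => hgap z hz hzI) ⟨hat, htb⟩ ?_ hsg
          show (a + b) * ((1 / 2 : ℚ) : M.F) ∈ Set.Ioo a b
          push_cast
          constructor <;> linarith
      · right; left
        refine (hasRoot_iff _ _ _ _).2 ⟨a, ha, ?_, ?_, ?_⟩
        · show P.eval a * lc v < 0
          rw [← hlcP]; exact hneg
        · exact (noRoot_iff _ _ _ _).2 fun z hz => hgap z hz
        · refine Sg.transfer hrG (I := Set.Ioi a) Set.ordConnected_Ioi
            (fun z hz hzI => hgap z hz hzI) hat ?_ hsg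
          show a < a + 1
          linarith
      · right; right; left
        refine (hasRoot_iff _ _ _ _).2 ⟨b, hb, ?_, ?_, ?_⟩
        · show P.eval b * ((((-1) ^ (d + 1) : ℚ) : M.F) * lc v) < 0
          rw [hsgn]; exact hneg
        · exact (noRoot_iff _ _ _ _).2 fun z hz => hgap z hz
        · refine Sg.transfer hrG (I := Set.Iio b) Set.ordConnected_Iio
            (fun z hz hzI => hgap z hz hzI) htb ?_ hsg
          show b - 1 < b
          linarith
      · right; right; right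
        refine ⟨?_, ?_, ?_⟩
        · show ((((-1) ^ (d + 1) : ℚ) : M.F) * lc v) * lc v < 0
          rw [hsgn, ← hlcP]; exact hneg
        · exact (noRoot_iff _ _ _ _).2 fun z hz => absurd hz (hgap z)
        · exact Sg.transfer hrG (I := Set.univ) Set.ordConnected_univ
            (fun z hz _ => hgap z hz) (Set.mem_univ _) (Set.mem_univ _) hsg
  · rintro (hT | hK | hK | hK | hK)
    · obtain ⟨z, _, hz0, hsg⟩ := (hasRoot_iff _ _ _ _).1 hT
      exact ⟨z, hz0, hsg⟩
    · obtain ⟨a, _, hK'⟩ := (hasRoot_iff _ _ _ _).1 hK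
      obtain ⟨b, _, hab, hneg, hno, hsg⟩ := (hasRoot_iff _ _ _ _).1 hK'
      have hab' : (a : M.F) < b := hab
      obtain ⟨t, hat, htb, ht0⟩ := exists_root_between P hab' hneg
      refine ⟨t, ht0, Sg.transfer hrG (I := Set.Ioo a b) Set.ordConnected_Ioo
        (fun z hz hzI => (noRoot_iff _ _ _ _).1 hno z hz hzI) ?_ ⟨hat, htb⟩ hsg⟩
      show (a + b) * ((1 / 2 : ℚ) : M.F) ∈ Set.Ioo a b
      push_cast
      constructor <;> linarith
    · obtain ⟨a, _, hneg, hno, hsg⟩ := (hasRoot_iff _ _ _ _).1 hK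
      have hneg' : P.eval a * P.leadingCoeff < 0 := by rw [hlcP]; exact hneg
      obtain ⟨t, hat, ht0⟩ := root_right P hP0 hneg'
      refine ⟨t, ht0, Sg.transfer hrG (I := Set.Ioi a) Set.ordConnected_Ioi
        (fun z hz hzI => (noRoot_iff _ _ _ _).1 hno z hz hzI) ?_ hat hsg⟩
      show a < a + 1
      linarith
    · obtain ⟨b, _, hneg, hno, hsg⟩ := (hasRoot_iff _ _ _ _).1 hK
      have hneg' : P.eval b * ((-1) ^ P.natDegree * P.leadingCoeff) < 0 := by
        rw [← hsgn]; exact hneg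
      obtain ⟨t, htb, ht0⟩ := root_left P hP0 hneg'
      refine ⟨t, ht0, Sg.transfer hrG (I := Set.Iio b) Set.ordConnected_Iio
        (fun z hz hzI => (noRoot_iff _ _ _ _).1 hno z hz hzI) ?_ htb hsg⟩
      show b - 1 < b
      linarith
    · obtain ⟨hneg, hno, hsg⟩ := hK
      have hneg' : ((((-1) ^ (d + 1) : ℚ) : M.F) * lc v) * lc v < 0 := hneg
      rw [hsgn, ← hlcP] at hneg'
      obtain ⟨t, ht0⟩ := root_all P hP0 hneg'
      exact ⟨t, ht0, Sg.transfer hrG (I := Set.univ) Set.ordConnected_univ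
        (fun z hz _ => (noRoot_iff _ _ _ _).1 hno z hz trivial) (Set.mem_univ _)
        (Set.mem_univ _) hsg⟩

end main

lemma sign_even_mul {K : Type*} [Field K] [LinearOrder K] [IsStrictOrderedRing K] (c x y : K)
    (hc : c ≠ 0) (k : ℕ) (h : c ^ (2 * k) * x = y) :
    SignType.sign x = SignType.sign y := by
  have : 0 < c ^ (2 * k) := by
    rw [pow_mul]
    exact pow_pos (by positivity) k
  rw [← h, sign_mul, sign_pos this, one_mul]

lemma H0_B {ι : Type} (d : ℕ) (h : HH (d + 1)) (F : UP ι)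
    (hF : F.degree < ((d + 2 : ℕ) : WithBot ℕ)) (p : Pt (Option ι) → Prop) (hp : SAP p) :
    SAP (fun v : Pt ι => (spec v.2 F).coeff (d + 1) ≠ 0 ∧
      ∃ t : v.1.F, (spec v.2 F).eval t = 0 ∧ p ⟨v.1, ext t v.2⟩) := by
  classical
  obtain ⟨Q, hQ⟩ := hp.iff_def
  choose Fq hFq using exists_univ (ι := ι)
  have hrem : ∀ q : MvPolynomial (Option ι) ℚ, ∃ r : UP ι,
      r.degree < ((d + 1 : ℕ) : WithBot ℕ) ∧ ∀ {M : Model} (v : ι → M.F) (t : M.F),
        (spec v F).eval t = 0 →
        ∃ k : ℕ, ((spec v F).coeff (d + 1)) ^ (2 * k) * (spec v (Fq q)).eval t =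
          (spec v r).eval t := fun q =>
    exists_rem F d hF ((Fq q).natDegree + 1) (Fq q)
      (lt_of_le_of_lt Polynomial.degree_le_natDegree (by exact_mod_cast Nat.lt_succ_self _))
  choose r hrdeg hr using hrem
  let α := {q // q ∈ Q}
  let rr : α → UP ι := fun q => r q.1
  let Good : (α → SignType) → Prop := fun σ => ∃ (v : Pt ι) (t : v.1.F),
    (spec v.2 F).coeff (d + 1) ≠ 0 ∧ (spec v.2 F).eval t = 0 ∧ Sg rr σ v.2 t ∧ p ⟨v.1, ext t v.2⟩
  have hsign : ∀ {M : Model} (v : ι → M.F) (t : M.F), (spec v F).coeff (d + 1) ≠ 0 →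
      (spec v F).eval t = 0 →
      ∀ q, SignType.sign (MvPolynomial.aeval (ext t v) q) =
        SignType.sign ((spec v (r q)).eval t) := by
    intro M v t hv ht q
    obtain ⟨k, hk⟩ := hr q v t ht
    rw [hFq q v t]
    exact sign_even_mul _ _ _ hv k hk
  refine SAP.congr (SAP.exists_fin (α := α → SignType)
    (p := fun σ v => Good σ ∧ ((spec v.2 F).coeff (d + 1) ≠ 0 ∧
      ∃ t : v.1.F, (spec v.2 F).eval t = 0 ∧ Sg rr σ v.2 t))
    fun σ => (SAP.const _).and (main_step d h F hF rr (fun q => hrdeg q.1) σ)) fun v => ?_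
  constructor
  · rintro ⟨hv, t, ht, hpt⟩
    refine ⟨fun q => SignType.sign ((spec v.2 (rr q)).eval t), ⟨v, t, hv, ht, fun q => rfl, hpt⟩,
      hv, t, ht, fun q => rfl⟩
  · rintro ⟨σ, ⟨w, s, hw, hs, hσ, hps⟩, hv, t, ht, hσ'⟩
    refine ⟨hv, t, ht, ?_⟩
    refine (hQ ⟨w.1, ext s w.2⟩ ⟨v.1, ext t v.2⟩ fun q hq => ?_).1 hps
    show SignType.sign (MvPolynomial.aeval (ext s w.2) q) =
      SignType.sign (MvPolynomial.aeval (ext t v.2) q)
    rw [hsign w.2 s hw hs q, hsign v.2 t hv ht q]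
    have h1 := hσ ⟨q, hq⟩
    have h2 := hσ' ⟨q, hq⟩
    exact h1.trans h2.symm

lemma H0_succ (d : ℕ) (h : HH (d + 1)) : H0 (d + 2) := by
  intro ι F hF p hp
  have hB := H0_B d h F hF p hp
  have hdegA : (F.erase (d + 1)).degree < ((d + 1 : ℕ) : WithBot ℕ) := by
    rw [Polynomial.degree_lt_iff_coeff_zero]
    intro m hm
    rw [Polynomial.coeff_erase]
    split_ifs with h1
    · rfl
    · exact Polynomial.coeff_eq_zero_of_degree_lt (lt_of_lt_of_le hF
        (by exact_mod_cast (show d + 2 ≤ m by omega)))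
  have hA := h ι ι (fun v => v.2) (fun i => PF.coord i) (F.erase (d + 1)) hdegA p hp
  have hlc : SAP (fun v : Pt ι => (spec v.2 F).coeff (d + 1) = 0) :=
    SAP.eq_zero (PF.spec_coeff (φ := fun v => v.2) (fun i => PF.coord i) F (d + 1))
  refine SAP.congr ((hlc.and hA).or hB) fun v => ?_
  have herase : (spec v.2 F).coeff (d + 1) = 0 → spec v.2 (F.erase (d + 1)) = spec v.2 F := by
    intro h0
    ext i
    rw [spec_coeff, spec_coeff, Polynomial.coeff_erase]
    split_ifs with h1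
    · rw [h1, ← spec_coeff, h0, map_zero]
    · rfl
  constructor
  · rintro ⟨hne, t, ht, hpt⟩
    by_cases h0 : (spec v.2 F).coeff (d + 1) = 0
    · left
      refine ⟨h0, ?_⟩
      show spec v.2 (F.erase (d + 1)) ≠ 0 ∧
        ∃ t : v.1.F, (spec v.2 (F.erase (d + 1))).eval t = 0 ∧ p ⟨v.1, ext t v.2⟩
      rw [herase h0]
      exact ⟨hne, t, ht, hpt⟩
    · exact Or.inr ⟨h0, t, ht, hpt⟩
  · rintro (⟨h0, h1⟩ | ⟨h0, t, ht, hpt⟩)
    · have h1' : spec v.2 (F.erase (d + 1)) ≠ 0 ∧
        ∃ t : v.1.F, (spec v.2 (F.erase (d + 1))).eval t = 0 ∧ p ⟨v.1, ext t v.2⟩ := h1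
      rwa [herase h0] at h1'
    · refine ⟨fun hz => h0 ?_, t, ht, hpt⟩
      rw [hz]
      simp

theorem H0_all : ∀ d, H0 d
  | 0 => by
    intro ι F hF p _
    refine SAP.congr (SAP.const False) fun v => ?_
    have : F = 0 := by
      rw [← Polynomial.degree_eq_bot]
      have h1 : F.degree < 0 := by simpa using hF
      exact Polynomial.degree_eq_bot.2 (by
        by_contra hne
        exact absurd h1 (not_lt.2 (Polynomial.zero_le_degree_iff.2 hne)))
    subst this
    simp [spec]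
  | 1 => by
    intro ι F hF p _
    refine SAP.congr (SAP.const False) fun v => ?_
    have h1 : F = C (F.coeff 0) := by
      ext1 i
      rw [Polynomial.coeff_C]
      split_ifs with h2
      · rw [h2]
      · exact Polynomial.coeff_eq_zero_of_degree_lt (lt_of_lt_of_le hF
          (by exact_mod_cast (show 1 ≤ i by omega)))
    simp only [iff_false]
    rintro ⟨hne, t, ht, _⟩
    rw [h1] at hne ht
    simp only [spec, Polynomial.map_C, eval_C] at hne ht
    exact hne (by rw [ht, C_0])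
  | d + 2 => H0_succ d (HH_of_H0 (H0_all (d + 1)))

lemma ext_PF {ι κ : Type} {φ : (w : Pt κ) → ι → w.1.F} (hφ : ∀ i, PF (fun w => φ w i))
    {f : (w : Pt κ) → w.1.F} (hf : PF f) : ∀ o, PF (fun w => ext (f w) (φ w) o) := by
  intro o
  cases o with
  | none => exact hf
  | some i => exact hφ i

end Pool.Agent.Helper716_Lang.RC

namespace Pool.Agent.Helper716_Lang.RC

open MvPolynomial

variable {ι κ : Type}

/-- TARGET: elimination of one quantifier, uniformly over all real closed fields -/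
theorem SAP.exists_pt {p : Pt (Option ι) → Prop} (hp : SAP p) :
    SAP (fun v : Pt ι => ∃ t : v.1.F, p ⟨v.1, ext t v.2⟩) := by
  classical
  obtain ⟨Q, hQ⟩ := hp.iff_def
  choose Fq hFq using exists_univ (ι := ι)
  set G : Finset (UP ι) := Q.image Fq with hG
  set D : ℕ := G.sup Polynomial.natDegree + 1 with hD
  have hGdeg : ∀ g ∈ G, g.degree < (D : WithBot ℕ) := by
    intro g hg
    refine lt_of_le_of_lt Polynomial.degree_le_natDegree ?_
    exact_mod_cast Nat.lt_succ_of_le (Finset.le_sup (f := Polynomial.natDegree) hg)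
  have h : HH D := HH_of_H0 (H0_all D)
  let φ0 : (w : Pt ι) → ι → w.1.F := fun v => v.2
  let φ1 : (w : Pt (Option ι)) → ι → w.1.F := fun w i => w.2 (some i)
  let φ2 : (w : Pt (Option (Option ι))) → ι → w.1.F := fun w i => w.2 (some (some i))
  have h0 : ∀ i, PF (fun w => φ0 w i) := fun i => PF.coord i
  have h1 : ∀ i, PF (fun w => φ1 w i) := fun i => PF.coord (some i)
  have h2 : ∀ i, PF (fun w => φ2 w i) := fun i => PF.coord (some (some i))
  let E1 : Pt ι → Prop := HasRoot G φ0 p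
  let E2 : Pt ι → Prop := HasRoot G φ0 (HasRoot G φ1 (fun u =>
    p ⟨u.1, ext ((u.2 (some none) + u.2 none) * ((1 / 2 : ℚ) : u.1.F)) (φ2 u)⟩))
  let E3 : Pt ι → Prop := HasRoot G φ0 (fun w => p ⟨w.1, ext (w.2 none + 1) (φ1 w)⟩)
  let E4 : Pt ι → Prop := HasRoot G φ0 (fun w => p ⟨w.1, ext (w.2 none - 1) (φ1 w)⟩)
  let E5 : Pt ι → Prop := fun v => p ⟨v.1, ext 0 v.2⟩
  have hE1 : SAP E1 := SAP.hasRoot h hGdeg h0 hp
  have hE2 : SAP E2 := SAP.hasRoot h hGdeg h0 (SAP.hasRoot h hGdeg h1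
    (hp.preimage (ext_PF h2 (((PF.coord _).add (PF.coord _)).mul (PF.const _)))))
  have hE3 : SAP E3 := SAP.hasRoot h hGdeg h0
    (hp.preimage (ext_PF h1 ((PF.coord _).add PF.one)))
  have hE4 : SAP E4 := SAP.hasRoot h hGdeg h0
    (hp.preimage (ext_PF h1 ((PF.coord _).sub PF.one)))
  have hE5 : SAP E5 := hp.preimage (ext_PF h0 PF.zero)
  refine SAP.congr (hE1.or (hE2.or (hE3.or (hE4.or hE5)))) fun v => ?_
  obtain ⟨M, v⟩ := v
  constructor
  · rintro ⟨t, hpt⟩
    have trans : ∀ (I : Set M.F), I.OrdConnected → (∀ z ∈ zset G v, z ∉ I) → t ∈ I →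
        ∀ s ∈ I, p ⟨M, ext s v⟩ := by
      intro I hI hno htI s hsI
      refine (hQ ⟨M, ext t v⟩ ⟨M, ext s v⟩ fun q hq => ?_).1 hpt
      show SignType.sign (MvPolynomial.aeval (ext t v) q) =
        SignType.sign (MvPolynomial.aeval (ext s v) q)
      rw [hFq q v t, hFq q v s]
      by_cases hz : spec v (Fq q) = 0
      · simp [hz]
      · refine sign_const _ hI (fun x hx hx0 => hno x ?_ hx) htI hsI
        exact (mem_zset _ _ _).2 ⟨Fq q, Finset.mem_image_of_mem _ hq, hz, hx0⟩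
    by_cases htZ : t ∈ zset G v
    · left
      exact (hasRoot_iff _ _ _ _).2 ⟨t, htZ, hpt⟩
    · right
      rcases comp_left (zset G v) t with ⟨a, ha, hat, hamax⟩ | hL <;>
      rcases comp_right (zset G v) t with ⟨b, hb, htb, hbmin⟩ | hR
      · left
        have hs : ∀ z ∈ zset G v, z ∉ Set.Ioo a b := by
          rintro z hz ⟨h1, h2⟩
          rcases lt_trichotomy z t with h | h | h
          · exact absurd (hamax z hz h) (not_le.2 h1)
          · exact htZ (h ▸ hz)
          · exact absurd (hbmin z hz h) (not_le.2 h2)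
        refine (hasRoot_iff _ _ _ _).2 ⟨a, ha, (hasRoot_iff _ _ _ _).2 ⟨b, hb, ?_⟩⟩
        refine trans _ Set.ordConnected_Ioo hs ⟨hat, htb⟩ _ ?_
        show (a + b) * ((1 / 2 : ℚ) : M.F) ∈ Set.Ioo a b
        push_cast
        constructor <;> linarith
      · right; left
        have hs : ∀ z ∈ zset G v, z ∉ Set.Ioi a := by
          intro z hz h1
          have h1' : a < z := h1
          rcases lt_trichotomy z t with h | h | h
          · exact absurd (hamax z hz h) (not_le.2 h1')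
          · exact htZ (h ▸ hz)
          · exact hR z hz h
        refine (hasRoot_iff _ _ _ _).2 ⟨a, ha, trans _ Set.ordConnected_Ioi hs hat _ ?_⟩
        show a < a + 1
        linarith
      · right; right; left
        have hs : ∀ z ∈ zset G v, z ∉ Set.Iio b := by
          intro z hz h1
          have h1' : z < b := h1
          rcases lt_trichotomy z t with h | h | h
          · exact hL z hz h
          · exact htZ (h ▸ hz)
          · exact absurd (hbmin z hz h) (not_le.2 h1')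
        refine (hasRoot_iff _ _ _ _).2 ⟨b, hb, trans _ Set.ordConnected_Iio hs htb _ ?_⟩
        show b - 1 < b
        linarith
      · right; right; right
        have hs : ∀ z ∈ zset G v, z ∉ Set.univ := by
          intro z hz _
          rcases lt_trichotomy z t with h | h | h
          · exact hL z hz h
          · exact htZ (h ▸ hz)
          · exact hR z hz h
        exact trans _ Set.ordConnected_univ hs (Set.mem_univ _) _ (Set.mem_univ _)
  · rintro (hE | hE | hE | hE | hE)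
    · obtain ⟨z, _, hz⟩ := (hasRoot_iff _ _ _ _).1 hE
      exact ⟨z, hz⟩
    · obtain ⟨a, _, hE'⟩ := (hasRoot_iff _ _ _ _).1 hE
      obtain ⟨b, _, hz⟩ := (hasRoot_iff _ _ _ _).1 hE'
      exact ⟨_, hz⟩
    · obtain ⟨z, _, hz⟩ := (hasRoot_iff _ _ _ _).1 hE
      exact ⟨_, hz⟩
    · obtain ⟨z, _, hz⟩ := (hasRoot_iff _ _ _ _).1 hE
      exact ⟨_, hz⟩
    · exact ⟨0, hE⟩

end Pool.Agent.Helper716_Lang.RC
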