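import Pool.Agent.Helper716_Lang.Conic

/-!
# The coordinate ring of the conic without real points
-/

set_option autoImplicit false

namespace Pool.Agent.Helper716_Lang

open MvPolynomial

/-- the equation of the conic without real points -/
noncomputable def conicEq : MvPolynomial (Fin 3) ℝ := X 0 ^ 2 + X 1 ^ 2 + X 2 ^ 2

/-- the parametrisation of the conic over the complex numbers -/
noncomputable def par : MvPolynomial (Fin 3) ℝ →ₐ[ℝ] MvPolynomial (Fin 2) ℂ :=
  aeval ![X 0 ^ 2 + X 1 ^ 2, C Complex.I * (X 0 ^ 2 - X 1 ^ 2), C (2 * Complex.I) * (X 0 * X 1)]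

theorem par_X0 : par (X 0) = X 0 ^ 2 + X 1 ^ 2 := by simp [par]
theorem par_X1 : par (X 1) = C Complex.I * (X 0 ^ 2 - X 1 ^ 2) := by simp [par]
theorem par_X2 : par (X 2) = C (2 * Complex.I) * (X 0 * X 1) := by simp [par]

theorem par_conicEq : par conicEq = 0 := by
  rw [conicEq, map_add, map_add, map_pow, map_pow, map_pow, par_X0, par_X1, par_X2]
  have h := CI_mul_CI
  have h2 : (C (2 * Complex.I) : MvPolynomial (Fin 2) ℂ) = 2 * C Complex.I := by
    rw [C_mul]
    congr 1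
  rw [h2]
  linear_combination ((X 0 ^ 2 - X 1 ^ 2) ^ 2 + 4 * (X 0 * X 1) ^ 2 : MvPolynomial (Fin 2) ℂ) * h

/-- complex combinations of values of real ternary forms -/
def Dec (w : ℕ) (p : MvPolynomial (Fin 2) ℂ) : Prop :=
  ∃ u v : MvPolynomial (Fin 3) ℝ, u.IsHomogeneous w ∧ v.IsHomogeneous w ∧
    p = par u + C Complex.I * par v

theorem Dec.add {w : ℕ} {p q : MvPolynomial (Fin 2) ℂ} (hp : Dec w p) (hq : Dec w q) :
    Dec w (p + q) := by
  obtain ⟨u, v, hu, hv, rfl⟩ := hp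
  obtain ⟨u', v', hu', hv', rfl⟩ := hq
  exact ⟨u + u', v + v', hu.add hu', hv.add hv', by rw [map_add, map_add]; ring⟩

theorem Dec.mul {w w' : ℕ} {p q : MvPolynomial (Fin 2) ℂ} (hp : Dec w p) (hq : Dec w' q) :
    Dec (w + w') (p * q) := by
  obtain ⟨u, v, hu, hv, rfl⟩ := hp
  obtain ⟨u', v', hu', hv', rfl⟩ := hq
  refine ⟨u * u' - v * v', u * v' + v * u', (hu.mul hu').sub (hv.mul hv'),
    (hu.mul hv').add (hv.mul hu'), ?_⟩
  rw [map_sub, map_add, map_mul, map_mul, map_mul, map_mul]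
  linear_combination (par v * par v') * CI_mul_CI

theorem Dec.zero (w : ℕ) : Dec w 0 :=
  ⟨0, 0, isHomogeneous_zero _ _ _, isHomogeneous_zero _ _ _, by simp⟩

theorem Dec.C (c : ℂ) : Dec 0 (C c) := by
  refine ⟨MvPolynomial.C c.re, MvPolynomial.C c.im, isHomogeneous_C _ _, isHomogeneous_C _ _, ?_⟩
  have h : ∀ r : ℝ, par (MvPolynomial.C r) = MvPolynomial.C (r : ℂ) := fun r => by
    rw [par, aeval_C]
    rfl
  rw [h, h, ← C_mul, ← C_add]
  congr 1
  apply Complex.ext <;> simp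

theorem Dec.X0X0 : Dec 1 (X 0 ^ 2) := by
  refine ⟨MvPolynomial.C (1 / 2) * X 0, MvPolynomial.C (-1 / 2) * X 1,
    (isHomogeneous_X _ _).C_mul _, (isHomogeneous_X _ _).C_mul _, ?_⟩
  have h : ∀ r : ℝ, par (MvPolynomial.C r) = MvPolynomial.C (r : ℂ) := fun r => by
    rw [par, aeval_C]
    rfl
  rw [map_mul, map_mul, h, h, par_X0, par_X1]
  have h1 : (MvPolynomial.C ((1 / 2 : ℝ) : ℂ) : MvPolynomial (Fin 2) ℂ) * 2 = 1 := by
    rw [show (2 : MvPolynomial (Fin 2) ℂ) = MvPolynomial.C 2 from (map_ofNat _ 2).symm, ← C_mul]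
    norm_num
  have h2 : (MvPolynomial.C ((-1 / 2 : ℝ) : ℂ) : MvPolynomial (Fin 2) ℂ) =
      -MvPolynomial.C ((1 / 2 : ℝ) : ℂ) := by
    rw [← C_neg]
    norm_num
  rw [h2]
  linear_combination (-(X 0 ^ 2 : MvPolynomial (Fin 2) ℂ)) * h1 +
    (MvPolynomial.C ((1 / 2 : ℝ) : ℂ) * (X 0 ^ 2 - X 1 ^ 2) : MvPolynomial (Fin 2) ℂ) * CI_mul_CI

theorem Dec.X1X1 : Dec 1 (X 1 ^ 2) := by
  refine ⟨MvPolynomial.C (1 / 2) * X 0, MvPolynomial.C (1 / 2) * X 1,
    (isHomogeneous_X _ _).C_mul _, (isHomogeneous_X _ _).C_mul _, ?_⟩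
  have h : ∀ r : ℝ, par (MvPolynomial.C r) = MvPolynomial.C (r : ℂ) := fun r => by
    rw [par, aeval_C]
    rfl
  rw [map_mul, map_mul, h, par_X0, par_X1]
  have h1 : (MvPolynomial.C ((1 / 2 : ℝ) : ℂ) : MvPolynomial (Fin 2) ℂ) * 2 = 1 := by
    rw [show (2 : MvPolynomial (Fin 2) ℂ) = MvPolynomial.C 2 from (map_ofNat _ 2).symm, ← C_mul]
    norm_num
  linear_combination (-(X 1 ^ 2 : MvPolynomial (Fin 2) ℂ)) * h1 -
    (MvPolynomial.C ((1 / 2 : ℝ) : ℂ) * (X 0 ^ 2 - X 1 ^ 2) : MvPolynomial (Fin 2) ℂ) * CI_mul_CI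

theorem Dec.X0X1 : Dec 1 (X 0 * X 1) := by
  refine ⟨0, MvPolynomial.C (-1 / 2) * X 2,
    isHomogeneous_zero _ _ _, (isHomogeneous_X _ _).C_mul _, ?_⟩
  have h : ∀ r : ℝ, par (MvPolynomial.C r) = MvPolynomial.C (r : ℂ) := fun r => by
    rw [par, aeval_C]
    rfl
  rw [map_zero, map_mul, h, par_X2]
  have h1 : (MvPolynomial.C ((-1 / 2 : ℝ) : ℂ) : MvPolynomial (Fin 2) ℂ) *
      MvPolynomial.C (2 * Complex.I) = -MvPolynomial.C Complex.I := by
    rw [← C_mul, ← C_neg]
    congr 1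
    push_cast
    ring
  linear_combination (X 0 * X 1 : MvPolynomial (Fin 2) ℂ) * CI_mul_CI -
    (MvPolynomial.C Complex.I * (X 0 * X 1) : MvPolynomial (Fin 2) ℂ) * h1

theorem Dec.monomial (w : ℕ) : ∀ k l : ℕ, k + l = 2 * w → Dec w (X 0 ^ k * X 1 ^ l) := by
  induction w with
  | zero =>
    intro k l h
    have hk : k = 0 := by omega
    have hl : l = 0 := by omega
    subst hk hl
    have := Dec.C 1
    simpa using this
  | succ w ih =>
    intro k l h
    rcases Nat.lt_or_ge k 2 with hk | hk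
    · rcases Nat.lt_or_ge l 2 with hl | hl
      · have hk1 : k = 1 := by omega
        have hl1 : l = 1 := by omega
        have hw0 : w = 0 := by omega
        subst hk1 hl1 hw0
        simpa using Dec.X0X1
      · have h1 := (ih k (l - 2) (by omega)).mul Dec.X1X1
        have h2 : (X 0 ^ k * X 1 ^ (l - 2) * X 1 ^ 2 : MvPolynomial (Fin 2) ℂ) =
            X 0 ^ k * X 1 ^ l := by
          rw [mul_assoc, ← pow_add, Nat.sub_add_cancel hl]
        rwa [h2] at h1
    · have h1 := (ih (k - 2) l (by omega)).mul Dec.X0X0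
      have h2 : (X 0 ^ (k - 2) * X 1 ^ l * X 0 ^ 2 : MvPolynomial (Fin 2) ℂ) =
          X 0 ^ k * X 1 ^ l := by
        rw [mul_right_comm, ← pow_add, Nat.sub_add_cancel hk]
      rwa [h2] at h1

theorem dec_of_homogeneous (w : ℕ) (p : MvPolynomial (Fin 2) ℂ) (hp : p.IsHomogeneous (2 * w)) :
    Dec w p := by
  classical
  rw [MvPolynomial.as_sum p]
  have key : ∀ S : Finset (Fin 2 →₀ ℕ), (∀ α ∈ S, α ∈ p.support) →
      Dec w (∑ α ∈ S, MvPolynomial.monomial α (coeff α p)) := by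
    intro S
    induction S using Finset.induction_on with
    | empty => intro _; simpa using Dec.zero w
    | insert α S hα ih =>
      intro h
      rw [Finset.sum_insert hα]
      refine Dec.add ?_ (ih fun β hβ => h β (Finset.mem_insert_of_mem hβ))
      have h1 : α.degree = 2 * w := by
        rw [Finsupp.degree_eq_weight_one]
        exact hp (mem_support_iff.1 (h α (Finset.mem_insert_self _ _)))
      rw [Finsupp.degree_eq_sum, Fin.sum_univ_two] at h1
      have h2 := (Dec.C (coeff α p)).mul (Dec.monomial w (α 0) (α 1) h1)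
      rw [zero_add] at h2
      rw [MvPolynomial.monomial_eq, Finsupp.prod_fintype _ _ (by simp), Fin.prod_univ_two]
      exact h2
  exact key _ fun α hα => hα

theorem sig_par (u : MvPolynomial (Fin 3) ℝ) : sig (par u) = par u := by
  have h : ∀ i, sig ((![X 0 ^ 2 + X 1 ^ 2, C Complex.I * (X 0 ^ 2 - X 1 ^ 2),
      C (2 * Complex.I) * (X 0 * X 1)] : Fin 3 → MvPolynomial (Fin 2) ℂ) i) =
      (![X 0 ^ 2 + X 1 ^ 2, C Complex.I * (X 0 ^ 2 - X 1 ^ 2),
      C (2 * Complex.I) * (X 0 * X 1)] : Fin 3 → MvPolynomial (Fin 2) ℂ) i := by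
    intro i
    match i with
    | 0 =>
      show sig (X 0 ^ 2 + X 1 ^ 2) = X 0 ^ 2 + X 1 ^ 2
      rw [map_add, map_pow, map_pow, sig_X0, sig_X1]
      ring
    | 1 =>
      show sig (C Complex.I * (X 0 ^ 2 - X 1 ^ 2)) = C Complex.I * (X 0 ^ 2 - X 1 ^ 2)
      rw [map_mul, map_sub, map_pow, map_pow, sig_X0, sig_X1, sig_C, Complex.conj_I, C_neg]
      ring
    | 2 =>
      show sig (C (2 * Complex.I) * (X 0 * X 1)) = C (2 * Complex.I) * (X 0 * X 1)
      have h1 : (starRingEnd ℂ) (2 * Complex.I) = -(2 * Complex.I) := by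
        rw [map_mul, Complex.conj_I, map_ofNat]
        ring
      rw [map_mul sig (C (2 * Complex.I)), map_mul sig (X 0) (X 1), sig_X0, sig_X1, sig_C, h1,
        C_neg]
      ring
  rw [par, sig_aeval]
  simp only [h]

/-- every real binary form of degree `2 w` comes from a real ternary form of degree `w` -/
theorem exists_ternary (w : ℕ) (p : MvPolynomial (Fin 2) ℂ) (hp : p ∈ RB (2 * w)) :
    ∃ u : MvPolynomial (Fin 3) ℝ, u.IsHomogeneous w ∧ par u = p := by
  obtain ⟨u, v, hu, hv, huv⟩ := dec_of_homogeneous w p (mem_RB.1 hp).1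
  have h1 := (mem_RB.1 hp).2
  rw [huv, map_add, map_mul, sig_par, sig_par, sig_C, Complex.conj_I, C_neg] at h1
  have h2 : (2 : MvPolynomial (Fin 2) ℂ) * (C Complex.I * par v) = 0 := by
    linear_combination -h1
  have h3 := (mul_eq_zero.1 h2).resolve_left two_ne_zero
  refine ⟨u, hu, ?_⟩
  rw [huv, h3, add_zero]

/-- division by the equation of the conic -/
theorem exists_division (F : MvPolynomial (Fin 3) ℝ) :
    ∃ (G : MvPolynomial (Fin 3) ℝ) (R0 R1 : MvPolynomial (Fin 2) ℝ),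
      F = conicEq * G + rename Fin.castSucc R0 + X 2 * rename Fin.castSucc R1 := by
  induction F using MvPolynomial.induction_on with
  | C c => exact ⟨0, C c, 0, by simp⟩
  | add p q hp hq =>
    obtain ⟨G, R0, R1, h⟩ := hp
    obtain ⟨G', R0', R1', h'⟩ := hq
    refine ⟨G + G', R0 + R0', R1 + R1', ?_⟩
    rw [map_add, map_add]
    conv_lhs => rw [h, h']
    ring
  | mul_X p i hp =>
    obtain ⟨G, R0, R1, h⟩ := hp
    match i with
    | 0 =>
      refine ⟨G * X 0, R0 * X 0, R1 * X 0, ?_⟩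
      rw [map_mul, map_mul, rename_X]
      conv_lhs => rw [h]
      show (conicEq * G + rename Fin.castSucc R0 + X 2 * rename Fin.castSucc R1) * X 0 = _
      have h0 : (Fin.castSucc (0 : Fin 2) : Fin 3) = 0 := rfl
      rw [h0]
      ring
    | 1 =>
      refine ⟨G * X 1, R0 * X 1, R1 * X 1, ?_⟩
      rw [map_mul, map_mul, rename_X]
      conv_lhs => rw [h]
      show (conicEq * G + rename Fin.castSucc R0 + X 2 * rename Fin.castSucc R1) * X 1 = _
      have h0 : (Fin.castSucc (1 : Fin 2) : Fin 3) = 1 := rfl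
      rw [h0]
      ring
    | 2 =>
      refine ⟨G * X 2 + rename Fin.castSucc R1, -(X 0 ^ 2 + X 1 ^ 2) * R1, R0, ?_⟩
      rw [map_mul, map_neg, map_add, map_pow, map_pow, rename_X, rename_X]
      conv_lhs => rw [h]
      show (conicEq * G + rename Fin.castSucc R0 + X 2 * rename Fin.castSucc R1) * X 2 = _
      have h0 : (Fin.castSucc (0 : Fin 2) : Fin 3) = 0 := rfl
      have h1 : (Fin.castSucc (1 : Fin 2) : Fin 3) = 1 := rfl
      rw [h0, h1, conicEq]
      ring

/-- the evaluation of `par F` at complex numbers -/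
theorem eval_par (F : MvPolynomial (Fin 3) ℝ) (α β : ℂ) :
    MvPolynomial.eval ![α, β] (par F) =
      aeval ![α ^ 2 + β ^ 2, Complex.I * (α ^ 2 - β ^ 2), 2 * Complex.I * (α * β)] F := by
  induction F using MvPolynomial.induction_on with
  | C c =>
    rw [par, aeval_C, aeval_C]
    show MvPolynomial.eval ![α, β] (C (c : ℂ)) = (c : ℂ)
    rw [eval_C]
  | add p q hp hq => rw [map_add, map_add, hp, hq, map_add]
  | mul_X p i hp =>
    rw [map_mul, map_mul, hp, map_mul, aeval_X]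
    congr 1
    match i with
    | 0 => rw [par_X0]; simp
    | 1 => rw [par_X1]; simp
    | 2 => rw [par_X2]; simp

theorem eq_zero_of_offzero (P : MvPolynomial (Fin 2) ℝ)
    (h : ∀ x y : ℝ, (x ≠ 0 ∨ y ≠ 0) → MvPolynomial.eval ![x, y] P = 0) : P = 0 := by
  have h1 : P * X 0 = 0 := by
    apply MvPolynomial.funext
    intro v
    have hv : v = ![v 0, v 1] := by
      funext i
      fin_cases i <;> rfl
    rw [map_mul, map_zero, eval_X]
    by_cases h0 : v 0 = 0
    · rw [h0, mul_zero]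
    · rw [hv, h (v 0) (v 1) (Or.inl h0), zero_mul]
  exact (mul_eq_zero.1 h1).resolve_right (X_ne_zero 0)

/-- the kernel of the parametrisation -/
theorem conicEq_dvd (F : MvPolynomial (Fin 3) ℝ) (hF : par F = 0) : conicEq ∣ F := by
  obtain ⟨G, R0, R1, h⟩ := exists_division F
  have key : ∀ x y : ℝ, (x ≠ 0 ∨ y ≠ 0) → MvPolynomial.eval ![x, y] R0 = 0 ∧
      MvPolynomial.eval ![x, y] R1 = 0 := by
    intro x y hxy
    -- square roots
    obtain ⟨α, hα⟩ := IsAlgClosed.exists_pow_nat_eq (((x : ℂ) - Complex.I * y) / 2)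
      (n := 2) (by norm_num)
    obtain ⟨β, hβ⟩ := IsAlgClosed.exists_pow_nat_eq (((x : ℂ) + Complex.I * y) / 2)
      (n := 2) (by norm_num)
    have hx : α ^ 2 + β ^ 2 = (x : ℂ) := by rw [hα, hβ]; ring
    have hy : Complex.I * (α ^ 2 - β ^ 2) = (y : ℂ) := by
      rw [hα, hβ]
      linear_combination (-(y : ℂ)) * Complex.I_mul_I
    set ζ : ℂ := 2 * Complex.I * (α * β) with hζ
    have hζ2 : ζ ^ 2 = -((x : ℂ) ^ 2 + (y : ℂ) ^ 2) := by
      have h1 : ζ ^ 2 = 4 * Complex.I ^ 2 * (α ^ 2 * β ^ 2) := by rw [hζ]; ring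
      rw [h1, hα, hβ, Complex.I_sq]
      linear_combination (y : ℂ) ^ 2 * Complex.I_mul_I
    have h1 : MvPolynomial.eval ![α, β] (par F) = 0 := by rw [hF, map_zero]
    rw [eval_par, hx, hy, ← hζ, h, map_add, map_add, map_mul, map_mul] at h1
    have h2 : aeval ![(x : ℂ), (y : ℂ), ζ] conicEq = 0 := by
      rw [conicEq]
      simp only [map_add, map_pow, aeval_X]
      show (x : ℂ) ^ 2 + (y : ℂ) ^ 2 + ζ ^ 2 = 0
      rw [hζ2]
      ring
    have h3 : ∀ P : MvPolynomial (Fin 2) ℝ, aeval ![(x : ℂ), (y : ℂ), ζ]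
        (rename Fin.castSucc P) = ((MvPolynomial.eval ![x, y] P : ℝ) : ℂ) := by
      intro P
      rw [aeval_rename]
      have h4 : (![(x : ℂ), (y : ℂ), ζ] ∘ Fin.castSucc : Fin 2 → ℂ) =
          algebraMap ℝ ℂ ∘ (![x, y] : Fin 2 → ℝ) := by
        funext i
        fin_cases i <;> rfl
      rw [h4, MvPolynomial.aeval_algebraMap_apply]
      congr 1
    rw [h2, h3, aeval_X, h3, zero_mul, zero_add] at h1
    replace h1 : ((MvPolynomial.eval ![x, y] R0 : ℝ) : ℂ) +
        ζ * ((MvPolynomial.eval ![x, y] R1 : ℝ) : ℂ) = 0 := h1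
    -- `ζ` is purely imaginary and not zero
    have hpos : 0 < x ^ 2 + y ^ 2 := by
      rcases hxy with h | h
      · positivity
      · positivity
    set u := MvPolynomial.eval ![x, y] R0
    set v := MvPolynomial.eval ![x, y] R1
    have h5 : (u : ℂ) ^ 2 = ζ ^ 2 * (v : ℂ) ^ 2 := by
      linear_combination ((u : ℂ) - ζ * v) * h1
    rw [hζ2] at h5
    have h6 : u ^ 2 = -(x ^ 2 + y ^ 2) * v ^ 2 := by exact_mod_cast h5
    have h7 : v ^ 2 = 0 := by nlinarith [sq_nonneg u, sq_nonneg v]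
    have h8 : v = 0 := by simpa using h7
    refine ⟨?_, h8⟩
    rw [h8] at h6
    simpa using h6
  have h0 : R0 = 0 := eq_zero_of_offzero R0 fun x y hxy => (key x y hxy).1
  have h1 : R1 = 0 := eq_zero_of_offzero R1 fun x y hxy => (key x y hxy).2
  rw [h0, h1] at h
  exact ⟨G, by rw [h]; simp⟩

theorem par_eq_zero_iff (F : MvPolynomial (Fin 3) ℝ) : par F = 0 ↔ conicEq ∣ F := by
  refine ⟨conicEq_dvd F, ?_⟩
  rintro ⟨G, rfl⟩
  rw [map_mul, par_conicEq, zero_mul]

/-- **Main theorem, ternary version.** -/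
theorem conic_ternary {I J : Type*} [Fintype I] [Fintype J] (w : I → ℕ) (hw : ∀ i, 0 < w i)
    (d : J → ℕ) (hd : ∀ j, 0 < d j) (hN : ∑ j, d j < ∑ i, w i) (f : J → MvPolynomial I ℝ)
    (hf : ∀ j, (f j).IsWeightedHomogeneous w (d j)) :
    ∃ s : I → MvPolynomial (Fin 3) ℝ, (∀ i, (s i).IsHomogeneous (w i)) ∧
      (∃ i, ¬ conicEq ∣ s i) ∧ ∀ j, conicEq ∣ aeval s (f j) := by
  obtain ⟨p, hp0, hp, hpf⟩ := conic_binary w hw d hd hN f hf
  choose s hs hsp using fun i => exists_ternary (w i) (p i) (hp i)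
  refine ⟨s, hs, ?_, fun j => ?_⟩
  · by_contra hcon
    push Not at hcon
    apply hp0
    funext i
    rw [← hsp i]
    exact (par_eq_zero_iff _).2 (hcon i)
  · rw [← par_eq_zero_iff]
    have h1 := congrArg (fun φ : MvPolynomial I ℝ →ₐ[ℝ] MvPolynomial (Fin 2) ℂ => φ (f j))
      (MvPolynomial.comp_aeval s par)
    have h2 : par (aeval s (f j)) = aeval (fun i => par (s i)) (f j) := h1
    rw [h2]
    simp only [hsp]
    exact hpf j

end Pool.Agent.Helper716_Lang
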