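import Pool.Agent.Helper716_Lang.Conic

/-!
# Complete intersections in the real forms of weighted projective spaces

Coordinates `z_i`, `i ∈ I`, of weights `w i ≥ 1`; the conjugate linear map
`(J z) i = ε i * conj (z (π i))` with `π` an involution preserving the weights and
`ε i * ε (π i) = (-1) ^ w i` induces a real structure on the weighted projective space.  Weighted
homogeneous forms `f_j`, `∑ deg f_j < ∑ w i`, whose span is stable under `f ↦ conj ∘ f ∘ J`, have a
common zero in the binary forms `s_i` of degree `w i` with `s (x, y) = J (s (-conj y, conj x))`.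
-/

set_option autoImplicit false

namespace Pool.Agent.Helper716_Lang

namespace Tw

open MvPolynomial

section kline

variable {I : Type*}

/-- conjugating the restriction to a line -/
theorem map_sig_kline (f : MvPolynomial I ℂ) (a u : I → MvPolynomial (Fin 2) ℂ) :
    Polynomial.map ((sig : MvPolynomial (Fin 2) ℂ →ₐ[ℝ] MvPolynomial (Fin 2) ℂ) :
      MvPolynomial (Fin 2) ℂ →+* MvPolynomial (Fin 2) ℂ)
        (kline (MvPolynomial.map C f : MvPolynomial I (MvPolynomial (Fin 2) ℂ)) a u) =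
      kline (MvPolynomial.map C (MvPolynomial.map (starRingEnd ℂ) f) :
        MvPolynomial I (MvPolynomial (Fin 2) ℂ)) (fun i => sig (a i)) (fun i => sig (u i)) := by
  rw [kline, kline]
  induction f using MvPolynomial.induction_on with
  | C c =>
    simp only [MvPolynomial.map_C, MvPolynomial.aeval_C, Polynomial.algebraMap_apply,
      Algebra.algebraMap_self, RingHom.id_apply, Polynomial.map_C, RingHom.coe_coe, sig_C]
  | add p q hp hq =>
    simp only [map_add, Polynomial.map_add, hp, hq]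
  | mul_X p i hp =>
    simp only [map_mul, Polynomial.map_mul, hp, MvPolynomial.map_X, MvPolynomial.aeval_X,
      Polynomial.map_add, Polynomial.map_C, Polynomial.map_X, RingHom.coe_coe]

/-- composing the restriction to a line with a monomial substitution -/
theorem kline_tau (π : I → I) (ε : I → ℝ) (f : MvPolynomial I ℂ)
    (a u : I → MvPolynomial (Fin 2) ℂ) :
    kline (MvPolynomial.map C (aeval (fun i => C ((ε i : ℝ) : ℂ) * X (π i) :
      I → MvPolynomial I ℂ) f) : MvPolynomial I (MvPolynomial (Fin 2) ℂ)) a u =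
    kline (MvPolynomial.map C f : MvPolynomial I (MvPolynomial (Fin 2) ℂ))
      (fun i => C ((ε i : ℝ) : ℂ) * a (π i)) (fun i => C ((ε i : ℝ) : ℂ) * u (π i)) := by
  rw [kline, kline]
  induction f using MvPolynomial.induction_on with
  | C c => simp
  | add p q hp hq => simp only [map_add, hp, hq]
  | mul_X p i hp =>
    simp only [map_mul, hp, MvPolynomial.map_X, MvPolynomial.aeval_X, MvPolynomial.map_C,
      MvPolynomial.aeval_C, Polynomial.algebraMap_apply, Algebra.algebraMap_self,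
      RingHom.id_apply]
    ring

/-- the polynomial form of the reality condition -/
theorem tau_identity (π : I → I) (ε : I → ℝ) (f g : MvPolynomial I ℂ)
    (hfg : ∀ z : I → ℂ, (starRingEnd ℂ) (MvPolynomial.eval
      (fun i => (ε i : ℂ) * (starRingEnd ℂ) (z (π i))) f) = MvPolynomial.eval z g) :
    aeval (fun i => C ((ε i : ℝ) : ℂ) * X (π i) : I → MvPolynomial I ℂ) f =
      MvPolynomial.map (starRingEnd ℂ) g := by
  apply MvPolynomial.funext
  intro u
  have h1 := hfg (fun i => (starRingEnd ℂ) (u i))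
  simp only [Complex.conj_conj] at h1
  have h3 : MvPolynomial.eval u (aeval (fun i => C ((ε i : ℝ) : ℂ) * X (π i) :
      I → MvPolynomial I ℂ) f) = MvPolynomial.eval (fun i => (ε i : ℂ) * u (π i)) f := by
    rw [← MvPolynomial.aeval_eq_eval, ← MvPolynomial.aeval_eq_eval]
    have h4 := congrArg (fun φ : MvPolynomial I ℂ →ₐ[ℂ] ℂ => φ f)
      (MvPolynomial.comp_aeval (fun i => C ((ε i : ℝ) : ℂ) * X (π i) : I → MvPolynomial I ℂ)
        (aeval u : MvPolynomial I ℂ →ₐ[ℂ] ℂ))
    have h5 : (fun i => aeval u ((fun i => C ((ε i : ℝ) : ℂ) * X (π i) :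
        I → MvPolynomial I ℂ) i)) = fun i => (ε i : ℂ) * u (π i) := by
      funext i
      simp
    rw [← h5]
    exact h4
  rw [h3]
  have h6 := congrArg (starRingEnd ℂ) h1
  rw [Complex.conj_conj] at h6
  rw [h6, MvPolynomial.eval_map, MvPolynomial.eval_eq, MvPolynomial.eval₂_eq, map_sum]
  refine Finset.sum_congr rfl fun α _ => ?_
  rw [map_mul, map_prod]
  simp

end kline

section space

variable {I : Type*} (w : I → ℕ) (π : I → I) (ε : I → ℝ)

/-- the real structure on vectors of binary forms -/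
noncomputable def rho (s : I → MvPolynomial (Fin 2) ℂ) : I → MvPolynomial (Fin 2) ℂ :=
  fun i => C ((ε i : ℝ) : ℂ) * sig (s (π i))

theorem rho_add (s t : I → MvPolynomial (Fin 2) ℂ) : rho π ε (s + t) = rho π ε s + rho π ε t := by
  funext i
  simp only [rho, Pi.add_apply, map_add, mul_add]

theorem rho_smul (c : ℝ) (s : I → MvPolynomial (Fin 2) ℂ) :
    rho π ε (c • s) = c • rho π ε s := by
  funext i
  simp only [rho, Pi.smul_apply, map_smul, mul_smul_comm]

theorem rho_zero : rho π ε 0 = 0 := by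
  funext i
  simp [rho]

/-- real vectors of binary forms -/
noncomputable def TV : Submodule ℝ (I → MvPolynomial (Fin 2) ℂ) where
  carrier := {s | (∀ i, (s i).IsHomogeneous (w i)) ∧ rho π ε s = s}
  add_mem' := by
    rintro s t ⟨h1, h2⟩ ⟨h3, h4⟩
    exact ⟨fun i => (h1 i).add (h3 i), by rw [rho_add, h2, h4]⟩
  zero_mem' := ⟨fun i => isHomogeneous_zero _ _ _, rho_zero π ε⟩
  smul_mem' := by
    rintro c s ⟨h1, h2⟩
    have hc : ∀ p : MvPolynomial (Fin 2) ℂ, c • p = C (c : ℂ) * p := fun p => by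
      rw [Algebra.smul_def]
      rfl
    refine ⟨fun i => ?_, by rw [rho_smul, h2]⟩
    rw [Pi.smul_apply, hc]
    exact (h1 i).C_mul _

theorem mem_TV {s : I → MvPolynomial (Fin 2) ℂ} : s ∈ TV w π ε ↔
    (∀ i, (s i).IsHomogeneous (w i)) ∧ rho π ε s = s := Iff.rfl

/-- real vectors of binary forms supported in weight `k` -/
noncomputable def TK (k : ℕ) : Submodule ℝ (I → MvPolynomial (Fin 2) ℂ) where
  carrier := {s | s ∈ TV w π ε ∧ ∀ i, w i ≠ k → s i = 0}
  add_mem' := by
    rintro s t ⟨h1, h2⟩ ⟨h3, h4⟩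
    exact ⟨add_mem h1 h3, fun i hi => by rw [Pi.add_apply, h2 i hi, h4 i hi, add_zero]⟩
  zero_mem' := ⟨zero_mem _, fun i _ => rfl⟩
  smul_mem' := by
    rintro c s ⟨h1, h2⟩
    exact ⟨Submodule.smul_mem _ _ h1, fun i hi => by rw [Pi.smul_apply, h2 i hi, smul_zero]⟩

theorem mem_TK {k : ℕ} {s : I → MvPolynomial (Fin 2) ℂ} : s ∈ TK w π ε k ↔
    s ∈ TV w π ε ∧ ∀ i, w i ≠ k → s i = 0 := Iff.rfl

instance finite_TK [Finite I] (k : ℕ) : Module.Finite ℝ (TK w π ε k) := by
  have h1 : ∀ m, Module.Finite ℂ (homogeneousSubmodule (Fin 2) ℂ m) := fun m =>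
    Module.finite_of_finrank_pos (by rw [finrank_binary]; omega)
  have h2 : ∀ m, Module.Finite ℝ (homogeneousSubmodule (Fin 2) ℂ m) := fun m =>
    Module.Finite.trans ℂ _
  let φ : TK w π ε k →ₗ[ℝ] (∀ i, homogeneousSubmodule (Fin 2) ℂ (w i)) :=
    { toFun := fun s i => ⟨s.1 i, s.2.1.1 i⟩
      map_add' := fun _ _ => rfl
      map_smul' := fun _ _ => rfl }
  refine Module.Finite.of_injective φ fun s t h => Subtype.ext (funext fun i => ?_)
  exact congrArg (fun x : (∀ i, homogeneousSubmodule (Fin 2) ℂ (w i)) => (x i).1) h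

/-- the component of weight `k` -/
noncomputable def pk (k : ℕ) (s : I → MvPolynomial (Fin 2) ℂ) : I → MvPolynomial (Fin 2) ℂ :=
  fun i => if w i = k then s i else 0

theorem pk_mem (hwπ : ∀ i, w (π i) = w i) (k : ℕ) {s : I → MvPolynomial (Fin 2) ℂ}
    (hs : s ∈ TV w π ε) : pk w k s ∈ TK w π ε k := by
  refine ⟨⟨fun i => ?_, ?_⟩, fun i hi => if_neg hi⟩
  · by_cases h : w i = k
    · rw [pk, if_pos h]
      exact hs.1 i
    · rw [pk, if_neg h]
      exact isHomogeneous_zero _ _ _
  · funext i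
    have h1 := congrFun hs.2 i
    simp only [rho, pk, hwπ] at h1 ⊢
    by_cases h : w i = k
    · rw [if_pos h, if_pos h, h1]
    · rw [if_neg h, if_neg h, map_zero, mul_zero]

end space

section forms

variable {I : Type*}

/-- values of weighted homogeneous polynomials at binary forms -/
theorem isHomogeneous_value (w : I → ℕ) (g : MvPolynomial I ℂ) (e : ℕ)
    (hg : g.IsWeightedHomogeneous w e) (s : I → MvPolynomial (Fin 2) ℂ)
    (hs : ∀ i, (s i).IsHomogeneous (w i)) : (aeval s g).IsHomogeneous e := by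
  rw [aeval_def, eval₂_eq]
  refine IsHomogeneous.sum _ _ _ fun α hα => ?_
  have h1 : Finsupp.weight w α = e := hg (mem_support_iff.1 hα)
  have h2 : (∏ i ∈ α.support, s i ^ α i).IsHomogeneous (∑ i ∈ α.support, w i * α i) :=
    IsHomogeneous.prod _ _ _ fun i _ => (hs i).pow _
  have h3 : ∑ i ∈ α.support, w i * α i = e := by
    rw [← h1, Finsupp.weight_apply, Finsupp.sum]
    exact Finset.sum_congr rfl fun i _ => by rw [smul_eq_mul]; ring
  rw [h3] at h2
  have h4 := (isHomogeneous_C (Fin 2) (coeff α g)).mul h2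
  rw [zero_add] at h4
  exact h4

theorem pderiv_zero_of_lt (w : I → ℕ) (g : MvPolynomial I ℂ) (e : ℕ)
    (hg : g.IsWeightedHomogeneous w e) (i : I) (hi : e < w i) : pderiv i g = 0 := by
  classical
  rw [MvPolynomial.as_sum g, map_sum]
  refine Finset.sum_eq_zero fun α hα => ?_
  have h1 : Finsupp.weight w α = e := hg (mem_support_iff.1 hα)
  have h2 : α i = 0 := by
    by_contra h
    have h3 : w i ≤ Finsupp.weight w α := by
      rw [Finsupp.weight_apply, Finsupp.sum]
      refine le_trans ?_ (Finset.single_le_sum (f := fun i => α i • w i) (fun _ _ => Nat.zero_le _)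
        (Finsupp.mem_support_iff.2 h))
      simp only [smul_eq_mul]
      exact Nat.le_mul_of_pos_left _ (Nat.pos_of_ne_zero h)
    omega
  rw [pderiv_monomial, h2]
  simp

/-- the derivative in a direction of degree one less -/
theorem isHomogeneous_direction [Fintype I] (w : I → ℕ) (hw : ∀ i, 0 < w i)
    (g : MvPolynomial I ℂ) (e : ℕ) (hg : g.IsWeightedHomogeneous w e)
    (s ζ : I → MvPolynomial (Fin 2) ℂ) (hs : ∀ i, (s i).IsHomogeneous (w i))
    (hζ : ∀ i, (ζ i).IsHomogeneous (w i - 1)) :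
    (∑ i, aeval s (pderiv i g) * ζ i).IsHomogeneous (e - 1) := by
  refine IsHomogeneous.sum _ _ _ fun i _ => ?_
  rcases lt_or_ge e (w i) with h | h
  · rw [pderiv_zero_of_lt w g e hg i h, map_zero, zero_mul]
    exact isHomogeneous_zero _ _ _
  · have h1 : (pderiv i g).IsWeightedHomogeneous w (e - w i) := hg.pderiv (by omega)
    have h2 := (isHomogeneous_value w _ _ h1 s hs).mul (hζ i)
    have h3 : (e - w i) + (w i - 1) = e - 1 := by
      have := hw i
      omega
    rwa [h3] at h2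

/-- evaluation of a complex polynomial at binary forms -/
theorem eval_map_C (g : MvPolynomial I ℂ) (s : I → MvPolynomial (Fin 2) ℂ) :
    MvPolynomial.eval s (MvPolynomial.map C g) = aeval s g := by
  rw [MvPolynomial.eval_map, MvPolynomial.aeval_def]
  rfl

/-- the first order term, for complex coefficients -/
theorem coeff_one_eq [Fintype I] (g : MvPolynomial I ℂ) (a u : I → MvPolynomial (Fin 2) ℂ) :
    (kline (MvPolynomial.map C g : MvPolynomial I (MvPolynomial (Fin 2) ℂ)) a u).coeff 1 =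
      ∑ i, aeval a (pderiv i g) * u i := by
  rw [kline_coeff_one]
  refine Finset.sum_congr rfl fun i _ => ?_
  rw [MvPolynomial.pderiv_map, eval_map_C]

/-- the derivative in the conjugate direction -/
theorem deriv_conj [Fintype I] (π : I → I) (ε : I → ℝ) (f g : MvPolynomial I ℂ)
    (hfg : ∀ z : I → ℂ, (starRingEnd ℂ) (MvPolynomial.eval
      (fun i => (ε i : ℂ) * (starRingEnd ℂ) (z (π i))) f) = MvPolynomial.eval z g)
    (a : I → MvPolynomial (Fin 2) ℂ) (ha : rho π ε a = a) (ζ : I → MvPolynomial (Fin 2) ℂ)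
    (h : ∑ i, aeval a (pderiv i g) * ζ i = 0) :
    ∑ i, aeval a (pderiv i f) * rho π ε ζ i = 0 := by
  rw [← coeff_one_eq] at h ⊢
  have h1 := congrArg (fun P : Polynomial (MvPolynomial (Fin 2) ℂ) => P.coeff 1)
    (map_sig_kline g a ζ)
  simp only [Polynomial.coeff_map, h, map_zero] at h1
  rw [← tau_identity π ε f g hfg, kline_tau] at h1
  have h2 : (fun i => C ((ε i : ℝ) : ℂ) * sig (a (π i))) = a := ha
  rw [h2] at h1
  exact h1.symm

end forms

section directions

variable {I : Type*} (w : I → ℕ) (π : I → I) (ε : I → ℝ)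

theorem rho_rho (hππ : ∀ i, π (π i) = i)
    (hε : ∀ i, ε i * ε (π i) = (-1) ^ w i) (hw : ∀ i, 0 < w i)
    (ζ : I → MvPolynomial (Fin 2) ℂ) (hζ : ∀ i, (ζ i).IsHomogeneous (w i - 1)) :
    rho π ε (rho π ε ζ) = fun i => -ζ i := by
  funext i
  have h1 : sig (sig (ζ i)) = (-1) ^ (w i - 1) * ζ i := sig_sig (hζ i)
  have h2 : rho π ε (rho π ε ζ) i =
      C ((ε i : ℝ) : ℂ) * (C ((ε (π i) : ℝ) : ℂ) * sig (sig (ζ i))) := by
    simp only [rho, map_mul, sig_C, Complex.conj_ofReal, hππ]
  have h3 : (C ((ε i : ℝ) : ℂ) * C ((ε (π i) : ℝ) : ℂ) : MvPolynomial (Fin 2) ℂ) =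
      (-1) ^ w i := by
    rw [← C_mul, ← Complex.ofReal_mul, hε]
    simp
  have h4 : ((-1) ^ w i * (-1) ^ (w i - 1) : MvPolynomial (Fin 2) ℂ) = -1 := by
    have h5 : w i = (w i - 1) + 1 := by have := hw i; omega
    conv_lhs => rw [h5]
    simp only [Nat.add_sub_cancel]
    rw [pow_succ, mul_assoc, mul_comm (-1 : MvPolynomial (Fin 2) ℂ), ← mul_assoc, ← mul_pow]
    simp
  rw [h2, h1]
  linear_combination (-1 : MvPolynomial (Fin 2) ℂ) ^ (w i - 1) * ζ i * h3 + ζ i * h4

/-- the four real directions -/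
noncomputable def fourT (ζ : I → MvPolynomial (Fin 2) ℂ) :
    Fin 4 → I → MvPolynomial (Fin 2) ℂ :=
  fourG ζ (rho π ε ζ) (X 0) (X 1) (C Complex.I)

theorem rho_apply (s : I → MvPolynomial (Fin 2) ℂ) (i : I) :
    rho π ε s i = C ((ε i : ℝ) : ℂ) * sig (s (π i)) := rfl

theorem rho_isHomogeneous {ζ : I → MvPolynomial (Fin 2) ℂ} {m : ℕ} (i : I)
    (hζ : (ζ (π i)).IsHomogeneous m) : (rho π ε ζ i).IsHomogeneous m :=
  (sig_isHomogeneous hζ).C_mul _

theorem fourT_mem (hππ : ∀ i, π (π i) = i) (hwπ : ∀ i, w (π i) = w i)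
    (hε : ∀ i, ε i * ε (π i) = (-1) ^ w i) (hw : ∀ i, 0 < w i)
    (ζ : I → MvPolynomial (Fin 2) ℂ) (hζ : ∀ i, (ζ i).IsHomogeneous (w i - 1)) (l : Fin 4) :
    fourT π ε ζ l ∈ TV w π ε := by
  have hX0 : (X 0 : MvPolynomial (Fin 2) ℂ).IsHomogeneous 1 := isHomogeneous_X ℂ 0
  have hX1 : (X 1 : MvPolynomial (Fin 2) ℂ).IsHomogeneous 1 := isHomogeneous_X ℂ 1
  have hζ' : ∀ i, (rho π ε ζ i).IsHomogeneous (w i - 1) := fun i =>
    rho_isHomogeneous π ε i (by have := hζ (π i); rwa [hwπ] at this)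
  have hdeg : ∀ i, w i - 1 + 1 = w i := fun i => by have := hw i; omega
  have hsI : sig (C Complex.I) = -C Complex.I := by rw [sig_C, Complex.conj_I, C_neg]
  have key : ∀ i, C ((ε i : ℝ) : ℂ) * sig (ζ (π i)) = rho π ε ζ i := fun i => rfl
  have key2 : ∀ i, C ((ε i : ℝ) : ℂ) * sig (rho π ε ζ (π i)) = -ζ i := fun i =>
    congrFun (rho_rho w π ε hππ hε hw ζ hζ) i
  refine ⟨fun i => ?_, ?_⟩
  · match l with
    | 0 =>
      have := ((hζ i).mul hX0).add ((hζ' i).mul hX1.neg)
      rwa [hdeg] at this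
    | 1 =>
      have := (((hζ i).mul hX0).sub ((hζ' i).mul hX1.neg)).C_mul Complex.I
      rwa [hdeg] at this
    | 2 =>
      have := ((hζ i).mul hX1).add ((hζ' i).mul hX0)
      rwa [hdeg] at this
    | 3 =>
      have := (((hζ i).mul hX1).sub ((hζ' i).mul hX0)).C_mul Complex.I
      rwa [hdeg] at this
  · funext i
    match l with
    | 0 =>
      show C ((ε i : ℝ) : ℂ) * sig (ζ (π i) * X 0 + rho π ε ζ (π i) * (-X 1)) =
        ζ i * X 0 + rho π ε ζ i * (-X 1)
      simp only [map_add, map_mul, map_neg, sig_X0, sig_X1]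
      linear_combination (-X 1) * key i - X 0 * key2 i
    | 1 =>
      show C ((ε i : ℝ) : ℂ) *
        sig (C Complex.I * (ζ (π i) * X 0 - rho π ε ζ (π i) * (-X 1))) =
        C Complex.I * (ζ i * X 0 - rho π ε ζ i * (-X 1))
      simp only [map_sub, map_mul, map_neg, sig_X0, sig_X1, hsI]
      linear_combination C Complex.I * X 1 * key i - C Complex.I * X 0 * key2 i
    | 2 =>
      show C ((ε i : ℝ) : ℂ) * sig (ζ (π i) * X 1 + rho π ε ζ (π i) * X 0) =
        ζ i * X 1 + rho π ε ζ i * X 0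
      simp only [map_add, map_mul, sig_X0, sig_X1]
      linear_combination X 0 * key i - X 1 * key2 i
    | 3 =>
      show C ((ε i : ℝ) : ℂ) *
        sig (C Complex.I * (ζ (π i) * X 1 - rho π ε ζ (π i) * X 0)) =
        C Complex.I * (ζ i * X 1 - rho π ε ζ i * X 0)
      simp only [map_sub, map_mul, sig_X0, sig_X1, hsI]
      linear_combination -C Complex.I * X 0 * key i - C Complex.I * X 1 * key2 i

theorem fourT_eq_zero (ζ : I → MvPolynomial (Fin 2) ℂ) (h : ∀ l, fourT π ε ζ l = 0) (i : I) :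
    ζ i = 0 := by
  have h1 : ζ i * X 0 + rho π ε ζ i * (-X 1) = 0 := congrFun (h 0) i
  have h2 : C Complex.I * (ζ i * X 0 - rho π ε ζ i * (-X 1)) = 0 := congrFun (h 1) i
  have hI : (C Complex.I : MvPolynomial (Fin 2) ℂ) ≠ 0 := by
    intro h0
    have := CI_mul_CI
    rw [h0] at this
    simp at this
  have h3 := (mul_eq_zero.1 h2).resolve_left hI
  have h4 : (2 : MvPolynomial (Fin 2) ℂ) * (ζ i * X 0) = 0 := by
    linear_combination h1 + h3
  have h5 := (mul_eq_zero.1 h4).resolve_left two_ne_zero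
  exact (mul_eq_zero.1 h5).resolve_right (X_ne_zero 0)

/-- The directions at a given point. -/
theorem exists_directions {J : Type*} [Fintype I] [Fintype J] (hππ : ∀ i, π (π i) = i)
    (hwπ : ∀ i, w (π i) = w i) (hε : ∀ i, ε i * ε (π i) = (-1) ^ w i) (hw : ∀ i, 0 < w i)
    (d : J → ℕ) (hd : ∀ j, 0 < d j) (hN : ∑ j, d j < ∑ i, w i) (f : J → MvPolynomial I ℂ)
    (hf : ∀ j, (f j).IsWeightedHomogeneous w (d j))
    (hreal : ∀ j, ∃ c : J → ℂ, ∀ z : I → ℂ, (starRingEnd ℂ) (MvPolynomial.eval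
      (fun i => (ε i : ℂ) * (starRingEnd ℂ) (z (π i))) (f j)) =
        ∑ k, c k * MvPolynomial.eval z (f k))
    (a : I → MvPolynomial (Fin 2) ℂ) (ha : a ∈ TV w π ε) :
    ∃ r : Fin 4 → I → MvPolynomial (Fin 2) ℂ, (∀ l, r l ∈ TV w π ε) ∧
      (∃ l, r l ≠ 0) ∧ (∀ j l, (kline (MvPolynomial.map C (f j) :
        MvPolynomial I (MvPolynomial (Fin 2) ℂ)) a (r l)).coeff 1 = 0) ∧
      ∀ i k, ∑ l, r l i * r l k = 0 := by
  classical
  have hah : ∀ i, (a i).IsHomogeneous (w i) := ha.1
  have hlin : ∀ z : I → MvPolynomial (Fin 2) ℂ,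
      (∀ i, z i ∈ homogeneousSubmodule (Fin 2) ℂ (w i - 1)) → ∀ j,
      ∑ i, aeval a (pderiv i (f j)) * z i ∈ homogeneousSubmodule (Fin 2) ℂ (d j - 1) := by
    intro z hz j
    rw [mem_homogeneousSubmodule]
    exact isHomogeneous_direction w hw (f j) (d j) (hf j) a z hah
      fun i => (mem_homogeneousSubmodule _ _).1 (hz i)
  let Λ : (∀ i : I, homogeneousSubmodule (Fin 2) ℂ (w i - 1)) →ₗ[ℂ]
      (∀ j : J, homogeneousSubmodule (Fin 2) ℂ (d j - 1)) :=
    { toFun := fun z j => ⟨∑ i, aeval a (pderiv i (f j)) * (z i : MvPolynomial (Fin 2) ℂ),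
        hlin (fun i => (z i : MvPolynomial (Fin 2) ℂ)) (fun i => (z i).2) j⟩
      map_add' := by
        intro x y
        funext j
        apply Subtype.ext
        simp [mul_add, Finset.sum_add_distrib]
      map_smul' := by
        intro r x
        funext j
        apply Subtype.ext
        simp [Finset.smul_sum] }
  have hfin : ∀ m, Module.Finite ℂ (homogeneousSubmodule (Fin 2) ℂ m) := fun m =>
    Module.finite_of_finrank_pos (by rw [finrank_binary]; omega)
  have hrank : Module.finrank ℂ (∀ j : J, homogeneousSubmodule (Fin 2) ℂ (d j - 1)) <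
      Module.finrank ℂ (∀ i : I, homogeneousSubmodule (Fin 2) ℂ (w i - 1)) := by
    rw [Module.finrank_pi_fintype, Module.finrank_pi_fintype]
    simp only [finrank_binary]
    have h1 : ∀ i, w i - 1 + 1 = w i := fun i => by have := hw i; omega
    have h2 : ∀ j, d j - 1 + 1 = d j := fun j => by have := hd j; omega
    simp only [h1, h2]
    exact hN
  have hker : LinearMap.ker Λ ≠ ⊥ := LinearMap.ker_ne_bot_of_finrank_lt hrank
  obtain ⟨z, hz, hz0⟩ := Submodule.exists_mem_ne_zero_of_ne_bot hker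
  have hzj : ∀ j, ∑ i, aeval a (pderiv i (f j)) * (z i : MvPolynomial (Fin 2) ℂ) = 0 := by
    intro j
    have h1 : Λ z = 0 := hz
    exact congrArg Subtype.val (congrFun h1 j)
  have hzh : ∀ i, (z i : MvPolynomial (Fin 2) ℂ).IsHomogeneous (w i - 1) := fun i =>
    (mem_homogeneousSubmodule _ _).1 (z i).2
  obtain ⟨y, hy⟩ : ∃ y : I → MvPolynomial (Fin 2) ℂ, ∀ i, y i = (z i : MvPolynomial (Fin 2) ℂ) :=
    ⟨fun i => (z i : MvPolynomial (Fin 2) ℂ), fun i => rfl⟩
  have hyne : ∃ i, y i ≠ 0 := by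
    by_contra hcon
    push Not at hcon
    apply hz0
    funext i
    apply Subtype.ext
    rw [← hy i]
    exact hcon i
  simp only [← hy] at hzj hzh
  have hzj' : ∀ j, ∑ i, aeval a (pderiv i (f j)) * rho π ε y i = 0 := by
    intro j
    obtain ⟨c, hc⟩ := hreal j
    refine deriv_conj π ε (f j) (∑ k, C (c k) * f k) (fun z => ?_) a ha.2 y ?_
    · rw [hc z, map_sum]
      exact Finset.sum_congr rfl fun k _ => by rw [map_mul, MvPolynomial.eval_C]
    · have h1 : ∀ i, aeval a (pderiv i (∑ k, C (c k) * f k)) * y i =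
          ∑ k, C (c k) * (aeval a (pderiv i (f k)) * y i) := by
        intro i
        rw [map_sum, map_sum, Finset.sum_mul]
        refine Finset.sum_congr rfl fun k _ => ?_
        rw [pderiv_C_mul, map_mul, aeval_C, mul_assoc]
        rfl
      simp only [h1]
      rw [Finset.sum_comm]
      refine Finset.sum_eq_zero fun k _ => ?_
      rw [← Finset.mul_sum, hzj k, mul_zero]
  refine ⟨fourT π ε y, fun l => fourT_mem w π ε hππ hwπ hε hw y hzh l, ?_, fun j l => ?_,
    fun i k => fourG_prod _ _ _ _ _ CI_mul_CI i k⟩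
  · by_contra hcon
    push Not at hcon
    obtain ⟨i, hi⟩ := hyne
    exact hi (fourT_eq_zero π ε y hcon i)
  · rw [coeff_one_eq]
    exact fourG_first _ _ _ _ _ _ (hzj j) (hzj' j) l

end directions

/-- there are nonzero real vectors -/
theorem exists_ne_zero {I : Type*} (w : I → ℕ) (π : I → I) (ε : I → ℝ)
    (hππ : ∀ i, π (π i) = i) (hwπ : ∀ i, w (π i) = w i)
    (hε : ∀ i, ε i * ε (π i) = (-1) ^ w i) (i₀ : I) :
    ∃ s ∈ TV w π ε, s ≠ 0 := by
  classical
  -- a vector of forms
  let t : ℂ → I → MvPolynomial (Fin 2) ℂ := fun c i => if i = i₀ then C c * X 0 ^ w i else 0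
  have ht : ∀ c i, (t c i).IsHomogeneous (w i) := by
    intro c i
    by_cases h : i = i₀
    · simp only [t, if_pos h]
      exact (isHomogeneous_X_pow 0 (w i)).C_mul c
    · simp only [t, if_neg h]
      exact isHomogeneous_zero _ _ _
  have hρ : ∀ c i, (rho π ε (t c) i).IsHomogeneous (w i) := fun c i =>
    (sig_isHomogeneous (by have := ht c (π i); rwa [hwπ] at this)).C_mul _
  have hρρ : ∀ c, rho π ε (rho π ε (t c)) = t c := by
    intro c
    funext i
    have h1 : sig (sig (t c i)) = (-1) ^ w i * t c i := sig_sig (ht c i)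
    have h2 : rho π ε (rho π ε (t c)) i =
        C ((ε i : ℝ) : ℂ) * (C ((ε (π i) : ℝ) : ℂ) * sig (sig (t c i))) := by
      simp only [rho, map_mul, sig_C, Complex.conj_ofReal, hππ]
    have h3 : (C ((ε i : ℝ) : ℂ) * C ((ε (π i) : ℝ) : ℂ) : MvPolynomial (Fin 2) ℂ) =
        (-1) ^ w i := by
      rw [← C_mul, ← Complex.ofReal_mul, hε]
      simp
    have h4 : ((-1) ^ w i * (-1) ^ w i : MvPolynomial (Fin 2) ℂ) = 1 := by
      rw [← mul_pow]
      simp
    rw [h2, h1]
    linear_combination (-1 : MvPolynomial (Fin 2) ℂ) ^ w i * t c i * h3 + t c i * h4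
  have hmem : ∀ c, t c + rho π ε (t c) ∈ TV w π ε := by
    intro c
    refine ⟨fun i => (ht c i).add (hρ c i), ?_⟩
    rw [rho_add, hρρ, add_comm]
  by_cases h1 : t 1 + rho π ε (t 1) = 0
  · refine ⟨_, hmem Complex.I, fun h2 => ?_⟩
    have h3 := congrFun h1 i₀
    have h4 := congrFun h2 i₀
    have h5 : rho π ε (t Complex.I) i₀ = -C Complex.I * rho π ε (t 1) i₀ := by
      simp only [rho, t]
      split_ifs
      · simp only [map_mul, sig_C, Complex.conj_I, map_pow, map_one, C_neg]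
        ring
      · simp
    have h6 : t Complex.I i₀ = C Complex.I * t 1 i₀ := by
      simp [t]
    rw [Pi.add_apply, h5, h6] at h4
    rw [Pi.add_apply] at h3
    have h7 : (2 * C Complex.I * t 1 i₀ : MvPolynomial (Fin 2) ℂ) = 0 := by
      simp only [Pi.zero_apply] at h3 h4
      linear_combination h4 + C Complex.I * h3
    have h8 : t 1 i₀ = X 0 ^ w i₀ := by simp [t]
    have hI : (C Complex.I : MvPolynomial (Fin 2) ℂ) ≠ 0 := by
      intro h0
      have := CI_mul_CI
      rw [h0] at this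
      simp at this
    rw [h8] at h7
    exact mul_ne_zero (mul_ne_zero two_ne_zero hI) (pow_ne_zero _ (X_ne_zero 0)) h7
  · exact ⟨_, hmem 1, h1⟩

/-- **Main theorem, binary version, for all real forms.** -/
theorem twisted {I J : Type*} [Fintype I] [Fintype J] (w : I → ℕ) (π : I → I) (ε : I → ℝ)
    (hππ : ∀ i, π (π i) = i) (hwπ : ∀ i, w (π i) = w i) (hε : ∀ i, ε i * ε (π i) = (-1) ^ w i)
    (hw : ∀ i, 0 < w i) (d : J → ℕ) (hd : ∀ j, 0 < d j) (hN : ∑ j, d j < ∑ i, w i)
    (f : J → MvPolynomial I ℂ) (hf : ∀ j, (f j).IsWeightedHomogeneous w (d j))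
    (hreal : ∀ j, ∃ c : J → ℂ, ∀ z : I → ℂ, (starRingEnd ℂ) (MvPolynomial.eval
      (fun i => (ε i : ℂ) * (starRingEnd ℂ) (z (π i))) (f j)) =
        ∑ k, c k * MvPolynomial.eval z (f k)) :
    ∃ s ∈ TV w π ε, s ≠ 0 ∧ ∀ j, aeval s (f j) = 0 := by
  classical
  -- the weights that occur
  let S : Finset ℕ := Finset.univ.image w
  have hS : ∀ i, w i ∈ S := fun i => Finset.mem_image_of_mem _ (Finset.mem_univ i)
  let b : ∀ k : S, Module.Basis (Fin (Module.finrank ℝ (TK w π ε k.1))) ℝ (TK w π ε k.1) :=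
    fun k => Module.finBasis ℝ (TK w π ε k.1)
  let ι := Σ k : S, Fin (Module.finrank ℝ (TK w π ε k.1))
  let E : I → ι → MvPolynomial (Fin 2) ℂ := fun i m => (b m.1 m.2 : I → MvPolynomial (Fin 2) ℂ) i
  let el : (ι → ℝ) → ∀ k : S, TK w π ε k.1 := fun s k => ∑ m, s ⟨k, m⟩ • b k m
  have hel : ∀ (s : ι → ℝ) (k : S) (i : I), w i ≠ k.1 →
      (el s k : I → MvPolynomial (Fin 2) ℂ) i = 0 := fun s k i hi => (el s k).2.2 i hi
  have hE0 : ∀ (s : ι → ℝ) (i : I), ∑ m, s m • E i m =
      ∑ k : S, (el s k : I → MvPolynomial (Fin 2) ℂ) i := by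
    intro s i
    rw [Fintype.sum_sigma]
    refine Finset.sum_congr rfl fun k _ => ?_
    simp only [el, AddSubmonoidClass.coe_finsetSum, Finset.sum_apply]
    rfl
  have hE1 : ∀ (s : ι → ℝ) (i : I), ∑ m, s m • E i m =
      (el s ⟨w i, hS i⟩ : I → MvPolynomial (Fin 2) ℂ) i := by
    intro s i
    rw [hE0, Finset.sum_eq_single ⟨w i, hS i⟩]
    · intro k _ hk
      exact hel s k i fun h => hk (Subtype.ext h.symm)
    · simp
  have hmem : ∀ s : ι → ℝ, (fun i => ∑ m, s m • E i m) ∈ TV w π ε := by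
    intro s
    have h1 : (fun i => ∑ m, s m • E i m) =
        ∑ k : S, (el s k : I → MvPolynomial (Fin 2) ℂ) := by
      funext i
      rw [hE0, Finset.sum_apply]
    rw [h1]
    exact Submodule.sum_mem _ fun k _ => (el s k).2.1
  have hsurj : ∀ y ∈ TV w π ε, ∃ ρ : ι → ℝ, (fun i => ∑ m, ρ m • E i m) = y := by
    intro y hy
    obtain ⟨c, hc⟩ : ∃ c : ∀ k : S, Fin (Module.finrank ℝ (TK w π ε k.1)) → ℝ,
        ∀ k : S, ∑ m, c k m • b k m = ⟨pk w k.1 y, pk_mem w π ε hwπ k.1 hy⟩ :=
      ⟨fun k m => (b k).repr ⟨pk w k.1 y, pk_mem w π ε hwπ k.1 hy⟩ m,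
        fun k => (b k).sum_repr _⟩
    refine ⟨fun m => c m.1 m.2, ?_⟩
    funext i
    rw [hE1]
    have h1 : el (fun m => c m.1 m.2) ⟨w i, hS i⟩ =
        ⟨pk w (w i) y, pk_mem w π ε hwπ (w i) hy⟩ := hc ⟨w i, hS i⟩
    rw [h1]
    simp [pk]
  -- a basis element
  have hIne : Nonempty I := by
    by_contra hcon
    rw [not_nonempty_iff] at hcon
    simp at hN
  obtain ⟨i₀⟩ := hIne
  obtain ⟨s₀, hs₀, hs₀0⟩ := exists_ne_zero w π ε hππ hwπ hε i₀
  have hιne : Nonempty ι := by
    by_contra hcon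
    rw [not_nonempty_iff] at hcon
    obtain ⟨ρ, hρ⟩ := hsurj s₀ hs₀
    apply hs₀0
    rw [← hρ]
    funext i
    simp
  -- values
  suffices hmain : ∃ s : ι → ℝ, s ≠ 0 ∧ ∀ j, MvPolynomial.eval (fun i => ∑ m, s m • E i m)
      (MvPolynomial.map C (f j) : MvPolynomial I (MvPolynomial (Fin 2) ℂ)) = 0 by
    obtain ⟨s, hs0, hs⟩ := hmain
    refine ⟨fun i => ∑ m, s m • E i m, hmem s, ?_, fun j => ?_⟩
    · intro h0
      apply hs0
      funext ⟨k, m⟩
      have h1 : el s k = 0 := by
        apply Subtype.ext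
        funext i
        by_cases hik : w i = k.1
        · obtain ⟨k, hk⟩ := k
          obtain rfl : w i = k := hik
          have h2 := congrFun h0 i
          simp only [hE1] at h2
          exact h2
        · exact hel s k i hik
      exact Fintype.linearIndependent_iff.1 (b k).linearIndependent (fun m => s ⟨k, m⟩) h1 m
    · rw [← eval_map_C]
      exact hs j
  have : IsRealClosed ℝ := RC.isRealClosed_real
  refine engine_lin sphereMin_real (scaling_of_isRealClosed ℝ) E (fun m => m.1.1)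
    (fun m => ?_) _ d hd ?_ ?_
  · obtain ⟨i, _, hi⟩ := Finset.mem_image.1 m.1.2
    rw [← hi]
    exact hw i
  · -- weighted homogeneity
    intro j r s
    rw [eval_map_C, eval_map_C]
    have hsc : ∀ (q : MvPolynomial (Fin 2) ℂ) (k : ℕ), (r ^ k) • q =
        (C (r : ℂ) : MvPolynomial (Fin 2) ℂ) ^ k * q := by
      intro q k
      rw [Algebra.smul_def, map_pow]
      rfl
    have h1 : (fun i => ∑ m : ι, (r ^ m.1.1 * s m) • E i m) =
        fun i => (C (r : ℂ) : MvPolynomial (Fin 2) ℂ) ^ w i * ∑ m, s m • E i m := by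
      funext i
      rw [Finset.mul_sum]
      refine Finset.sum_congr rfl fun m _ => ?_
      by_cases hm : w i = m.1.1
      · rw [hm, mul_smul, hsc]
      · have h2 : E i m = 0 := (b m.1 m.2).2.2 i hm
        rw [h2]
        simp
    rw [h1, MvPolynomial.aeval_def, MvPolynomial.aeval_def, MvPolynomial.eval₂_eq,
      MvPolynomial.eval₂_eq, Finset.smul_sum]
    refine Finset.sum_congr rfl fun α hα => ?_
    have h2 : Finsupp.weight w α = d j := hf j (MvPolynomial.mem_support_iff.1 hα)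
    rw [hsc, ← h2]
    simp only [mul_pow, Finset.prod_mul_distrib]
    have h3 : (C (r : ℂ) : MvPolynomial (Fin 2) ℂ) ^ (Finsupp.weight w α) =
        ∏ i ∈ α.support, ((C (r : ℂ) : MvPolynomial (Fin 2) ℂ) ^ w i) ^ α i := by
      rw [Finsupp.weight_apply, Finsupp.sum, ← Finset.prod_pow_eq_pow_sum]
      refine Finset.prod_congr rfl fun i _ => ?_
      rw [← pow_mul, smul_eq_mul, mul_comm]
    rw [h3]
    ring
  · -- the directions
    intro s
    obtain ⟨r, hr, ⟨l0, hr0⟩, hr1, hr2⟩ := exists_directions w π ε hππ hwπ hε hw d hd hN f hf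
      hreal (fun i => ∑ m, s m • E i m) (hmem s)
    choose ρ hρ using fun l => hsurj (r l) (hr l)
    refine ⟨4, ρ, ⟨l0, fun h0 => hr0 ?_⟩, fun j l => ?_, fun j => ?_⟩
    · rw [← hρ l0, h0]
      funext i
      simp
    · rw [hρ]
      exact hr1 j l
    · simp only [hρ]
      exact sum_coeff_two r hr2 _ _

/-- the value of `sig p` -/
theorem eval_sig (p : MvPolynomial (Fin 2) ℂ) (x y : ℂ) :
    MvPolynomial.eval ![x, y] (sig p) =
      (starRingEnd ℂ) (MvPolynomial.eval ![-(starRingEnd ℂ) y, (starRingEnd ℂ) x] p) := by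
  induction p using MvPolynomial.induction_on with
  | C c => simp
  | add p q hp hq => simp only [map_add, hp, hq]
  | mul_X p i hp =>
    simp only [map_mul, hp]
    congr 1
    fin_cases i
    · simp
    · simp

end Tw

end Pool.Agent.Helper716_Lang
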