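import Pool.Agent.Helper716_Lang.NonConst

/-!
# Real rational curves on weighted Fano complete intersections without real points

`f_1, ..., f_r` are real polynomials, weighted homogeneous of degrees `d_j ≥ 1` for weights
`w_i ≥ 1`, with `∑ d_j < ∑ w_i` and no common real zero other than `0`.  Then there are real ternary
forms `s_i` of degree `w_i` such that `x ^ 2 + y ^ 2 + z ^ 2` divides every `f_j (s_1, ..., s_N)`,
and the map `p ↦ (s_1 (p), ..., s_N (p))` from the conic `x ^ 2 + y ^ 2 + z ^ 2 = 0` to the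
weighted projective space is defined at some point and is not constant.
-/

set_option autoImplicit false

namespace Pool.Agent.Helper716_Lang.WeightedFanoTernary

open MvPolynomial

/-- A real weighted complete intersection with `∑ d_j < ∑ w_i` and without real points receives a
nonconstant real map from the conic without real points. -/
theorem result (N r : ℕ) (w : Fin N → ℕ) (hw : ∀ i, 1 ≤ w i) (d : Fin r → ℕ) (hd : ∀ j, 1 ≤ d j)
    (hwd : ∑ j, d j < ∑ i, w i) (f : Fin r → MvPolynomial (Fin N) ℝ)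
    (hf : ∀ j, (f j).IsWeightedHomogeneous w (d j))
    (hnoreal : ∀ a : Fin N → ℝ, (∀ j, eval a (f j) = 0) → a = 0) :
    ∃ s : Fin N → MvPolynomial (Fin 3) ℝ,
      (∀ i, (s i).IsHomogeneous (w i)) ∧
      (∃ p : Fin 3 → ℂ, p 0 ^ 2 + p 1 ^ 2 + p 2 ^ 2 = 0 ∧ ∃ i, aeval p (s i) ≠ 0) ∧
      (¬ ∃ c : Fin N → ℂ, ∀ p : Fin 3 → ℂ, p 0 ^ 2 + p 1 ^ 2 + p 2 ^ 2 = 0 →
        ∃ t : ℂ, ∀ i, aeval p (s i) = t ^ w i * c i) ∧
      ∀ j, (X 0 ^ 2 + X 1 ^ 2 + X 2 ^ 2 : MvPolynomial (Fin 3) ℝ) ∣ aeval s (f j) := by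
  obtain ⟨s, hs, ⟨i, hi⟩, hsf⟩ := Pool.Agent.Helper716_Lang.conic_ternary w hw d hd hwd f hf
  refine ⟨s, hs, ?_, ?_, hsf⟩
  · obtain ⟨p, hp, hpi⟩ := Pool.Agent.Helper716_Lang.exists_point (s i) hi
    exact ⟨p, hp, i, hpi⟩
  · exact Pool.Agent.Helper716_Lang.not_constant w hw d f hf hnoreal s ⟨i, hi⟩ hsf

end Pool.Agent.Helper716_Lang.WeightedFanoTernary
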